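import Pool.Agent.MP_8f9e6e_pr.Defs
import Mathlib

-- part MP_8f9e6e_pr.Tower
section

/-! Witness sets of stacked contractions and the rank bound. -/

open Finset

namespace Pool.Agent.MP_8f9e6e_pr

variable {n d : ℕ} {S S' : Set (Finset (Fin n))} {f g : Finset (Fin n)}

theorem Contr.mono (h : S ⊆ S') (hf : Contr d S f) : Contr d S' f := by
  induction hf with
  | base f hf => exact .base f (h hf)
  | step g u h1 _ ih => exact .step g u h1 ih

theorem Contr.ind {P : Finset (Fin n) → Prop} (h1 : ∀ f ∈ S, P f)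
    (h2 : ∀ g u, g.card = d + 1 → u ∉ g → (∀ w ∈ g, P (insert u (g.erase w))) → P g)
    (hf : Contr d S f) : P f := by
  induction hf with
  | base f hf => exact h1 f hf
  | step g u hg _ ih =>
    by_cases hu : u ∈ g
    · simpa [Finset.insert_erase hu] using ih u hu
    · exact h2 g u hg hu ih

/-- Vertex sets built by stacking. -/
inductive Tow (d : ℕ) (C : Finset (Fin n) → Prop) (f : Finset (Fin n)) : Finset (Fin n) → Prop
  | base : Tow d C f f
  | step (B g : Finset (Fin n)) (u : Fin n) : Tow d C f B → g ⊆ B → g.card = d + 1 → u ∉ B →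
      (∀ w ∈ g, C (insert u (g.erase w))) → Tow d C f (insert u B)

variable {C C' : Finset (Fin n) → Prop} {A B : Finset (Fin n)}

theorem Tow.mono (h : ∀ f, C f → C' f) (hB : Tow d C f B) : Tow d C' f B := by
  induction hB with
  | base => exact .base
  | step B g u _ h1 h2 h3 h4 ih => exact .step B g u ih h1 h2 h3 fun w hw => h _ (h4 w hw)

theorem Tow.subset (hB : Tow d C f B) : f ⊆ B := by
  induction hB with
  | base => exact le_rfl
  | step B g u _ _ _ _ _ ih => exact ih.trans (Finset.subset_insert _ _)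

theorem Tow.merge (hA : Tow d C f A) (hB : Tow d C g B) (h : g ⊆ A) : Tow d C f (A ∪ B) := by
  induction hB with
  | base => rwa [Finset.union_eq_left.2 h]
  | step B g' u _ h1 h2 h3 h4 ih =>
    rw [Finset.union_insert]
    by_cases hu : u ∈ A ∪ B
    · rwa [Finset.insert_eq_of_mem hu]
    · exact .step _ g' u ih (h1.trans Finset.subset_union_right) h2 hu h4

/-- `A` is the vertex set of a witness for `f`. -/
def Spn (d : ℕ) (S : Set (Finset (Fin n))) (f A : Finset (Fin n)) : Prop :=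
  f.card = d + 1 ∧ Contr d {g ∈ S | g ⊆ A} f ∧ Tow d (Contr d {g ∈ S | g ⊆ A}) f A

theorem spn_step {u : Fin n} (hg : g.card = d + 1) (hu : u ∉ g) (A : Fin n → Finset (Fin n))
    (h : ∀ w ∈ g, Spn d S (insert u (g.erase w)) (A w)) :
    Spn d S g (insert u g ∪ g.biUnion A) := by
  set X := insert u g ∪ g.biUnion A
  have h1 : ∀ w ∈ g, ∀ f, Contr d {g ∈ S | g ⊆ A w} f → Contr d {g ∈ S | g ⊆ X} f :=
    fun w hw f => Contr.mono fun g' hg' => ⟨hg'.1, hg'.2.trans
      ((Finset.subset_biUnion_of_mem A hw).trans Finset.subset_union_right)⟩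
  have h2 := fun w hw => h1 w hw _ (h w hw).2.1
  refine ⟨hg, .step g u hg h2, ?_⟩
  have h3 : ∀ J ⊆ g, Tow d (Contr d {g ∈ S | g ⊆ X}) g (insert u g ∪ J.biUnion A) := by
    intro J
    induction J using Finset.induction_on with
    | empty => exact fun _ => by simpa using Tow.step g g u .base le_rfl hg hu h2
    | insert w J _ ih =>
      intro hJ
      have hw := hJ (Finset.mem_insert_self _ _)
      rw [Finset.biUnion_insert, Finset.union_comm (A w), ← Finset.union_assoc]
      exact (ih ((Finset.subset_insert _ _).trans hJ)).merge ((h w hw).2.2.mono (h1 w hw))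
        ((Finset.insert_subset_insert _ (Finset.erase_subset _ _)).trans Finset.subset_union_left)
  exact h3 g le_rfl

theorem exists_spn (hS : ∀ f ∈ S, f.card = d + 1) {L : ℕ} (hL : d + 2 ≤ L) (hf : Contr d S f) :
    (∃ A, A.card ≤ L ∧ Spn d S f A) ∨ ∃ g A, L < A.card ∧ A.card ≤ (d + 2) * L ∧ Spn d S g A := by
  refine Contr.ind (P := fun f => (∃ A, A.card ≤ L ∧ Spn d S f A) ∨
    ∃ g A, L < A.card ∧ A.card ≤ (d + 2) * L ∧ Spn d S g A) (fun f hf => ?_)
    (fun g u hg hu ih => ?_) hf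
  · exact Or.inl ⟨f, by have := hS f hf; omega, hS f hf, .base f ⟨hf, le_rfl⟩, .base⟩
  · by_cases h : ∃ g A, L < A.card ∧ A.card ≤ (d + 2) * L ∧ Spn d S g A
    · exact Or.inr h
    choose! A h1 h2 using fun w hw => (ih w hw).resolve_right h
    refine Or.inl ⟨_, not_lt.1 fun hlt => h ⟨g, _, hlt, ?_, spn_step hg hu A h2⟩, spn_step hg hu A h2⟩
    have a1 := Finset.card_biUnion_le_card_mul g _ _ h1
    have a2 := Finset.card_insert_le u g
    rw [hg] at a1
    refine (Finset.card_union_le _ _).trans ?_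
    nlinarith

/-- The boundary over the field with two elements. -/
def bd (d : ℕ) (g : Finset (Fin n)) : Finset (Fin n) → ZMod 2 :=
  fun r => if r ⊆ g ∧ r.card = d then 1 else 0

theorem bd_step {u : Fin n} (hg : g.card = d + 1) (hu : u ∉ g) :
    bd d g = ∑ w ∈ g, bd d (insert u (g.erase w)) := by
  funext r
  simp only [bd, Finset.sum_apply, Finset.subset_insert_iff, Finset.subset_erase, Finset.sum_boole]
  by_cases h : r.erase u ⊆ g ∧ r.card = d
  · rw [show g.filter (fun w => (r.erase u ⊆ g ∧ w ∉ r.erase u) ∧ r.card = d) = g \ r.erase u by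
      ext w; simp only [Finset.mem_filter, Finset.mem_sdiff]; tauto,
      Finset.card_sdiff_of_subset h.1, hg]
    by_cases hr : u ∈ r
    · have := Finset.card_pos.2 ⟨u, hr⟩
      rw [if_neg fun h' => hu (h'.1 hr), Finset.card_erase_of_mem hr,
        show d + 1 - (r.card - 1) = 2 by omega]
      rfl
    · rw [Finset.erase_eq_of_notMem hr] at h ⊢
      rw [if_pos h, h.2]
      simp
  · rw [if_neg fun h' => h ⟨(Finset.erase_subset _ _).trans h'.1, h'.2⟩,
      Finset.filter_eq_empty_iff.2 fun w _ h' => h ⟨h'.1.1, h'.2⟩]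
    simp

theorem rank_step {ι X : Type} [Fintype X] [DecidableEq ι] (N : Submodule (ZMod 2) (X → ZMod 2))
    (x : ι → X → ZMod 2) (r : ι → X) (J : Finset ι) (hN : ∀ w ∈ J, ∀ y ∈ N, y (r w) = 0)
    (hx : ∀ w ∈ J, x w (r w) ≠ 0) (hx' : ∀ w ∈ J, ∀ w' ∈ J, w' ≠ w → x w' (r w) = 0) :
    Module.finrank (ZMod 2) N + J.card ≤
      Module.finrank (ZMod 2) (N ⊔ Submodule.span (ZMod 2) (x '' J) : Submodule _ _) := by
  induction J using Finset.induction_on with
  | empty => exact Submodule.finrank_mono le_sup_left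
  | insert w J hw ih =>
    have h1 := ih (fun a ha => hN a (Finset.mem_insert_of_mem ha))
      (fun a ha => hx a (Finset.mem_insert_of_mem ha))
      fun a ha b hb => hx' a (Finset.mem_insert_of_mem ha) b (Finset.mem_insert_of_mem hb)
    have hw' := Finset.mem_insert_self w J
    have h2 : N ⊔ Submodule.span (ZMod 2) (x '' J) ≤ LinearMap.ker (LinearMap.proj (r w)) :=
      sup_le (fun y hy => hN w hw' y hy) (Submodule.span_le.2 (by
        rintro _ ⟨a, ha, rfl⟩
        exact hx' w hw' a (Finset.mem_insert_of_mem ha) fun h => hw (h ▸ ha)))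
    have h3 : N ⊔ Submodule.span (ZMod 2) (x '' J) <
        N ⊔ Submodule.span (ZMod 2) (x '' (insert w J : Finset ι)) :=
      lt_of_le_of_ne (sup_le_sup_left (Submodule.span_mono (Set.image_mono
        (Finset.coe_subset.2 (Finset.subset_insert _ _)))) _) fun h => hx w hw' (h2 (h ▸
          Submodule.mem_sup_right (Submodule.subset_span ⟨w, hw', rfl⟩)))
    have := Submodule.finrank_lt_finrank_of_lt h3
    rw [Finset.card_insert_of_notMem hw]
    omega

/-- Chains supported in `B`. -/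
def supp (B : Finset (Fin n)) : Submodule (ZMod 2) (Finset (Fin n) → ZMod 2) where
  carrier := {y | ∀ r, ¬ r ⊆ B → y r = 0}
  add_mem' := fun ha hb r hr => by simp [ha r hr, hb r hr]
  zero_mem' := fun _ _ => rfl
  smul_mem' := fun c y hy r hr => by simp [hy r hr]

theorem bd_supp (h : g ⊆ B) : bd d g ∈ supp B := fun _ hr => if_neg fun h' => hr (h'.1.trans h)

theorem Tow.rank (hd : 1 ≤ d) (M : Submodule (ZMod 2) (Finset (Fin n) → ZMod 2))
    (hM : ∀ g, C g → bd d g ∈ M) (hf : f.card = d + 1) (hC : C f) (hB : Tow d C f B) :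
    1 + d * B.card ≤ Module.finrank (ZMod 2) (M ⊓ supp B : Submodule _ _) + d * (d + 1) := by
  induction hB with
  | base =>
    obtain ⟨r, hr, hrc⟩ := Finset.exists_subset_card_eq (s := f) (n := d) (by omega)
    have := (rank_step ⊥ (fun _ : Unit => bd d f) (fun _ => r) {()} (by simp)
      (by simp [bd, hr, hrc]) (by simp)).trans (Submodule.finrank_mono (t := M ⊓ supp f)
        (sup_le bot_le (Submodule.span_le.2 (by
          rintro _ ⟨a, -, rfl⟩
          exact ⟨hM f hC, bd_supp le_rfl⟩))))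
    rw [hf]
    simp only [Finset.card_singleton] at this
    omega
  | step B g u _ h1 h2 h3 h4 ih =>
    obtain ⟨v, hv⟩ := Finset.card_pos.1 (show 0 < g.card by omega)
    have hu : u ∉ g := fun h => h3 (h1 h)
    have := (rank_step (M ⊓ supp B) (fun w => bd d (insert u (g.erase w)))
      (fun w => insert u ((g.erase w).erase v)) (g.erase v)
      (fun w _ y hy => hy.2 _ fun h => h3 (h (Finset.mem_insert_self _ _)))
      (fun w hw => by
        obtain ⟨a1, a2⟩ := Finset.mem_erase.1 hw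
        rw [bd, if_pos ⟨Finset.insert_subset_insert _ (Finset.erase_subset _ _), by
          rw [Finset.card_insert_of_notMem (by simp [hu]),
            Finset.card_erase_add_one (Finset.mem_erase.2 ⟨a1.symm, hv⟩),
            Finset.card_erase_of_mem a2, h2]; rfl⟩]
        exact one_ne_zero)
      (fun w _ w' hw' hne => if_neg fun h => by
        obtain ⟨a1, a2⟩ := Finset.mem_erase.1 hw'
        have := h.1 (Finset.mem_insert_of_mem (Finset.mem_erase.2 ⟨a1, Finset.mem_erase.2 ⟨hne, a2⟩⟩))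
        simp [ne_of_mem_of_not_mem a2 hu] at this)).trans
      (Submodule.finrank_mono (t := M ⊓ supp (insert u B)) (sup_le (inf_le_inf_left _
        fun y hy r hr => hy r fun h => hr (h.trans (Finset.subset_insert _ _)))
        (Submodule.span_le.2 (by
          rintro _ ⟨w, hw, rfl⟩
          exact ⟨hM _ (h4 w (Finset.mem_of_mem_erase hw)),
            bd_supp (Finset.insert_subset_insert _ ((Finset.erase_subset _ _).trans h1))⟩))))
    rw [Finset.card_erase_of_mem hv, h2] at this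
    rw [Finset.card_insert_of_notMem h3, mul_add]
    omega

theorem Spn.card (hd : 1 ≤ d) (T : Finset (Finset (Fin n))) (h : Spn d S f A)
    (hT : ∀ g ∈ S, g ⊆ A → g ∈ T) : 1 + d * A.card ≤ T.card + d * (d + 1) := by
  set M := Submodule.span (ZMod 2) (Set.range fun g : T => bd d g.1) with hM
  have h0 : ∀ g, Contr d {g ∈ S | g ⊆ A} g → bd d g ∈ M := fun g hg =>
    Contr.ind (P := fun g => bd d g ∈ M)
      (fun f hf => Submodule.subset_span ⟨⟨f, hT f hf.1 hf.2⟩, rfl⟩)
      (fun g u h1 h2 h3 => by rw [bd_step h1 h2]; exact Submodule.sum_mem _ h3) hg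
  have h1 := Tow.rank hd M h0 h.1 h.2.1 h.2.2
  have h2 : Module.finrank (ZMod 2) M ≤ T.card :=
    (finrank_range_le_card (R := ZMod 2) fun g : T => bd d g.1).trans (by simp)
  have h3 := Submodule.finrank_mono (inf_le_left (a := M) (b := supp A))
  omega

end Pool.Agent.MP_8f9e6e_pr

end

-- part MP_8f9e6e_pr.Slots
section

/-! Encoding of witness sets by their excess. -/

open Finset

namespace Pool.Agent.MP_8f9e6e_pr

variable {n d : ℕ}

/-- Descriptions of faces. -/
abbrev Slot (n : ℕ) : Type := Fin n × (ℕ ⊕ Finset (Fin n))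

/-- The face described by a slot. -/
noncomputable def ev (G : Fin n → Finset (Fin n)) (σ : Slot n) : Finset (Fin n) :=
  insert σ.1 (σ.2.elim (fun i => (G σ.1).erase ((G σ.1).toList.getD i σ.1)) id)

/-- Decoding. -/
noncomputable def dec (φ : Fin n → Slot n) : ℕ → Fin n → Finset (Fin n)
  | 0 => fun _ => ∅
  | k + 1 => fun u => ev (dec φ k) (φ u)

/-- The available slots. -/
def slots (d : ℕ) (A : Finset (Fin n)) (X : Finset (Finset (Fin n))) : Finset (Slot n) :=
  A ×ˢ ((Finset.range (d + 1)).disjSum (X.biUnion (Finset.powersetCard d)))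

theorem slots_mono {A A' : Finset (Fin n)} {X X' : Finset (Finset (Fin n))} (h : A ⊆ A')
    (h' : X ⊆ X') : slots d A X ⊆ slots d A' X' :=
  Finset.product_subset_product h (Finset.disjSum_mono le_rfl
    (Finset.biUnion_subset_biUnion_of_subset_left _ h'))

theorem card_slots (A : Finset (Fin n)) {X : Finset (Finset (Fin n))}
    (hX : ∀ x ∈ X, x.card = d + 1) : (slots d A X).card ≤ A.card * ((d + 1) * (X.card + 1)) := by
  rw [slots, Finset.card_product, Finset.card_disjSum, Finset.card_range]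
  refine Nat.mul_le_mul_left _ ?_
  have := Finset.card_biUnion_le_card_mul X (Finset.powersetCard d) (d + 1) fun x hx => by
    rw [Finset.card_powersetCard, hX x hx, Nat.choose_succ_self_right]
  nlinarith

theorem ev_congr {G G' : Fin n → Finset (Fin n)} {σ : Slot n} (h : G σ.1 = G' σ.1) :
    ev G σ = ev G' σ := by rw [ev, ev, h]

theorem dec_update {φ : Fin n → Slot n} {B : Finset (Fin n)} (hB : ∀ x ∈ B, (φ x).1 ∈ B)
    {u : Fin n} (hu : u ∉ B) (σ : Slot n) (k : ℕ) :
    ∀ x ∈ B, dec (Function.update φ u σ) k x = dec φ k x := by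
  induction k with
  | zero => exact fun _ _ => rfl
  | succ k ih =>
    intro x hx
    simp only [dec]
    rw [Function.update_of_ne (ne_of_mem_of_not_mem hx hu)]
    exact ev_congr (ih _ (hB x hx))

theorem level (hd : 2 ≤ d) (M : Submodule (ZMod 2) (Finset (Fin n) → ZMod 2))
    {B g : Finset (Fin n)} {u : Fin n} (h1 : g ⊆ B) (h2 : g.card = d + 1) (h3 : u ∉ B)
    (h4 : ∀ w ∈ g, bd d (insert u (g.erase w)) ∈ M) :
    ∃ Y ⊆ (insert u B).powersetCard (d + 1), (∀ y ∈ Y, u ∈ y) ∧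
      Module.finrank (ZMod 2) (M ⊓ supp B : Submodule _ _) + d + Y.card ≤
        Module.finrank (ZMod 2) (M ⊓ supp (insert u B) : Submodule _ _) ∧
      ∀ x ⊆ insert u B, x.card = d + 1 → u ∈ x → bd d x ∈ M →
        (∃ w ∈ g, x = insert u (g.erase w)) ∨ ∃ y ∈ Y, ∃ r ∈ y.powersetCard d, ∃ v ∈ x,
          x = insert v r := by
  classical
  obtain ⟨v, hv⟩ := Finset.card_pos.1 (show 0 < g.card by omega)
  have hu : u ∉ g := fun h => h3 (h1 h)
  have e0 := rank_step (M ⊓ supp B) (fun w => bd d (insert u (g.erase w)))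
    (fun w => insert u ((g.erase w).erase v)) (g.erase v)
    (fun w _ y hy => hy.2 _ fun h => h3 (h (Finset.mem_insert_self _ _)))
    (fun w hw => by
      obtain ⟨a1, a2⟩ := Finset.mem_erase.1 hw
      rw [bd, if_pos ⟨Finset.insert_subset_insert _ (Finset.erase_subset _ _), by
        rw [Finset.card_insert_of_notMem (by simp [hu]),
          Finset.card_erase_add_one (Finset.mem_erase.2 ⟨a1.symm, hv⟩),
          Finset.card_erase_of_mem a2, h2]; rfl⟩]
      exact one_ne_zero)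
    (fun w _ w' hw' hne => if_neg fun h => by
      obtain ⟨a1, a2⟩ := Finset.mem_erase.1 hw'
      have := h.1 (Finset.mem_insert_of_mem (Finset.mem_erase.2 ⟨a1, Finset.mem_erase.2 ⟨hne, a2⟩⟩))
      simp [ne_of_mem_of_not_mem a2 hu] at this)
  rw [Finset.card_erase_of_mem hv, h2] at e0
  let Z : Finset (Finset (Fin n)) → Submodule (ZMod 2) (Finset (Fin n) → ZMod 2) := fun Y =>
    ⨅ r ∈ {r | u ∈ r ∧ ¬ r ⊆ insert u g ∧ ∀ y ∈ Y, ¬ r ⊆ y}, LinearMap.ker (LinearMap.proj r)
  have mZ : ∀ Y y, y ∈ Z Y ↔ ∀ r, u ∈ r → ¬ r ⊆ insert u g → (∀ y ∈ Y, ¬ r ⊆ y) → y r = 0 := by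
    simp [Z]
  obtain ⟨Y, hY, hmax⟩ := Finset.exists_max_image
    (((insert u B).powersetCard (d + 1)).powerset.filter fun Y => (∀ y ∈ Y, u ∈ y) ∧
      Module.finrank (ZMod 2) (M ⊓ supp B : Submodule _ _) + d + Y.card ≤
        Module.finrank (ZMod 2) (M ⊓ supp (insert u B) ⊓ Z Y : Submodule _ _)) Finset.card
    ⟨∅, Finset.mem_filter.2 ⟨by simp, by simp, e0.trans (Submodule.finrank_mono (sup_le
      (fun y hy => ⟨⟨hy.1, fun r hr => hy.2 r fun h => hr (h.trans (Finset.subset_insert _ _))⟩,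
        (mZ _ _).2 fun r a1 _ _ => hy.2 r fun h => h3 (h a1)⟩)
      (Submodule.span_le.2 (by
        rintro _ ⟨w, hw, rfl⟩
        exact ⟨⟨h4 w (Finset.mem_of_mem_erase hw),
          bd_supp (Finset.insert_subset_insert _ ((Finset.erase_subset _ _).trans h1))⟩,
          (mZ _ _).2 fun r _ a2 _ => bd_supp
            (Finset.insert_subset_insert _ (Finset.erase_subset _ _)) r a2⟩))))⟩⟩
  simp only [Finset.mem_filter, Finset.mem_powerset] at hY hmax
  obtain ⟨y1, y2, y3⟩ := hY
  refine ⟨Y, y1, y2, y3.trans (Submodule.finrank_mono inf_le_left), fun x x1 x2 x3 x4 => ?_⟩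
  by_cases hx : x ⊆ insert u g
  · obtain ⟨w, hw, hwx⟩ := Finset.exists_mem_notMem_of_card_lt_card (s := x) (t := insert u g)
      (by rw [Finset.card_insert_of_notMem hu]; omega)
    have hwu : w ≠ u := fun h => hwx (h ▸ x3)
    have hwg := (Finset.mem_insert.1 hw).resolve_left hwu
    refine Or.inl ⟨w, hwg, Finset.eq_of_subset_of_card_le ?_ ?_⟩
    · rw [← Finset.erase_insert_of_ne hwu.symm]
      exact Finset.subset_erase.2 ⟨hx, hwx⟩
    · rw [Finset.card_insert_of_notMem fun h => hu (Finset.mem_of_mem_erase h),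
        Finset.card_erase_add_one hwg, h2, x2]
  obtain ⟨a, ha, hag⟩ := Finset.not_subset.1 hx
  obtain ⟨b, hb, hb'⟩ := Finset.exists_mem_notMem_of_card_lt_card (s := {u, a}) (t := x)
    (Finset.card_le_two.trans_lt (by omega))
  simp only [Finset.mem_insert, Finset.mem_singleton, not_or] at hb'
  have r1 : (x.erase b).card = d := by rw [Finset.card_erase_of_mem hb, x2]; rfl
  by_contra hno
  have r2 : ∀ y ∈ Y, ¬ x.erase b ⊆ y := fun y hy h => hno (Or.inr ⟨y, hy, x.erase b,
    Finset.mem_powersetCard.2 ⟨h, r1⟩, b, hb, (Finset.insert_erase hb).symm⟩)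
  have r3 : x ∉ Y := fun h => r2 x h (Finset.erase_subset _ _)
  have r4 := (rank_step (M ⊓ supp (insert u B) ⊓ Z Y) (fun _ : Unit => bd d x)
    (fun _ => x.erase b) {()} (fun _ _ y hy => (mZ _ _).1 hy.2 _
      (Finset.mem_erase.2 ⟨Ne.symm hb'.1, x3⟩)
      (fun h => hag (h (Finset.mem_erase.2 ⟨Ne.symm hb'.2, ha⟩))) r2)
    (by simp [bd, Finset.erase_subset, r1]) (by simp)).trans
    (Submodule.finrank_mono (t := M ⊓ supp (insert u B) ⊓ Z (insert x Y)) (sup_le
      (inf_le_inf_left _ fun y hy => (mZ _ _).2 fun r a1 a2 a3 => (mZ _ _).1 hy r a1 a2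
        fun y hy => a3 y (Finset.mem_insert_of_mem hy))
      (Submodule.span_le.2 (by
        rintro _ ⟨_, -, rfl⟩
        exact ⟨⟨x4, bd_supp x1⟩, (mZ _ _).2 fun r _ _ a3 =>
          bd_supp le_rfl r (a3 x (Finset.mem_insert_self _ _))⟩))))
  have r5 := hmax (insert x Y) ⟨Finset.insert_subset (Finset.mem_powersetCard.2 ⟨x1, x2⟩) y1,
    fun y hy => (Finset.mem_insert.1 hy).elim (fun h => h ▸ x3) (y2 y), by
      rw [Finset.card_insert_of_notMem r3]
      simp only [Finset.card_singleton] at r4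
      omega⟩
  rw [Finset.card_insert_of_notMem r3] at r5
  omega

/-- The admissible parent maps. -/
def pars (d : ℕ) (f A : Finset (Fin n)) (X : Finset (Finset (Fin n))) : Finset (Fin n → Slot n) :=
  Fintype.piFinset fun u => if u ∈ A \ f then slots d A (insert f X) else {(u, .inr ∅)}

theorem card_pars (f A : Finset (Fin n)) (X : Finset (Finset (Fin n))) :
    (pars d f A X).card = (slots d A (insert f X)).card ^ (A \ f).card := by
  rw [pars, Fintype.card_piFinset]
  simp only [apply_ite Finset.card, Finset.card_singleton]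
  rw [Finset.prod_ite_mem, Finset.univ_inter, Finset.prod_const]

theorem Tow.code (hd : 2 ≤ d) (M : Submodule (ZMod 2) (Finset (Fin n) → ZMod 2))
    {C : Finset (Fin n) → Prop} {f B : Finset (Fin n)}
    (hM : ∀ g, C g → bd d g ∈ M) (hf : f.card = d + 1) (hC : C f) (hB : Tow d C f B) :
    ∃ X ⊆ B.powersetCard (d + 1), ∃ φ ∈ pars d f B X,
      1 + d * B.card + X.card ≤
        Module.finrank (ZMod 2) (M ⊓ supp B : Submodule _ _) + d * (d + 1) ∧
      ∀ x ⊆ B, x.card = d + 1 → bd d x ∈ M →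
        ∃ σ ∈ slots d B (insert f X), ∀ k, B.card ≤ k → ev (dec φ k) σ = x := by
  induction hB with
  | base =>
    refine ⟨∅, by simp, fun u => (u, .inr ∅), by simp [pars],
      Tow.rank (by omega) M hM hf hC .base, fun x x1 x2 _ => ?_⟩
    obtain rfl := Finset.eq_of_subset_of_card_le x1 (by omega)
    obtain ⟨v, hv⟩ := Finset.card_pos.1 (show 0 < x.card by omega)
    exact ⟨(v, .inr (x.erase v)), by
      simp [slots, hv, Finset.erase_subset, Finset.card_erase_of_mem, hf],
      fun k _ => Finset.insert_erase hv⟩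
  | step B g u hT h1 h2 h3 h4 ih =>
    obtain ⟨X, hX, φ, hφ, a1, a2⟩ := ih
    obtain ⟨Y, hY, b1, b2, b3⟩ := level hd M h1 h2 h3 fun w hw => hM _ (h4 w hw)
    obtain ⟨σ, hσ, hσ'⟩ := a2 g h1 h2 (by
      rw [bd_step h2 fun h => h3 (h1 h)]
      exact Submodule.sum_mem _ fun w hw => hM _ (h4 w hw))
    have sm : slots d B (insert f X) ⊆ slots d (insert u B) (insert f (X ∪ Y)) :=
      slots_mono (Finset.subset_insert _ _) (Finset.insert_subset_insert _ Finset.subset_union_left)
    have huf : u ∉ f := fun h => h3 (hT.subset h)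
    have hcl : ∀ x ∈ B, (φ x).1 ∈ B := fun x hx => by
      have := Fintype.mem_piFinset.1 hφ x
      split_ifs at this
      · exact (Finset.mem_product.1 this).1
      · rwa [Finset.mem_singleton.1 this]
    have hc := Finset.card_insert_of_notMem h3
    have up := fun (τ : Slot n) (hτ : τ ∈ slots d B (insert f X)) k =>
      ev_congr (σ := τ) (dec_update hcl h3 σ k _ (Finset.mem_product.1 hτ).1)
    refine ⟨X ∪ Y, Finset.union_subset (hX.trans (Finset.powersetCard_mono
      (Finset.subset_insert _ _))) hY, Function.update φ u σ, Fintype.mem_piFinset.2 fun x => ?_,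
      ?_, fun x x1 x2 x3 => ?_⟩
    · by_cases hx : x = u
      · rw [hx, Function.update_self, if_pos (by simp [huf])]
        exact sm hσ
      · have := Fintype.mem_piFinset.1 hφ x
        rw [Function.update_of_ne hx]
        by_cases hx' : x ∈ B \ f
        · rw [if_pos hx'] at this
          rw [if_pos (by simpa [hx] using hx')]
          exact sm this
        · rw [if_neg hx'] at this
          rwa [if_neg (by simpa [hx] using hx')]
    · have := Finset.card_union_le X Y
      rw [hc, mul_add]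
      omega
    by_cases hux : u ∈ x
    · rcases b3 x x1 x2 hux x3 with ⟨w, hw, rfl⟩ | ⟨y, hy, r, hr, v, hv, rfl⟩
      · obtain ⟨i, hi, hi'⟩ := List.mem_iff_getElem.1 (Finset.mem_toList.2 hw)
        refine ⟨(u, .inl i), by simpa [slots, h2] using hi, fun k hk => ?_⟩
        obtain ⟨k, rfl⟩ : ∃ k', k = k' + 1 := ⟨k - 1, by omega⟩
        have : dec (Function.update φ u σ) (k + 1) u = g := by
          simp only [dec, Function.update_self]
          rw [up σ hσ, hσ' k (by omega)]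
        simp only [ev, Sum.elim_inl]
        rw [this, List.getD_eq_getElem _ _ hi, hi']
      · exact ⟨(v, .inr r), Finset.mem_product.2 ⟨x1 hv, Finset.inr_mem_disjSum.2
          (Finset.mem_biUnion.2 ⟨y, by simp [hy], hr⟩)⟩, fun _ _ => rfl⟩
    · obtain ⟨τ, hτ, hτ'⟩ := a2 x ((Finset.subset_insert_iff_of_notMem hux).1 x1) x2 x3
      exact ⟨τ, sm hτ, fun k hk => by rw [up τ hτ, hτ' k (by omega)]⟩

theorem Spn.code (hd : 2 ≤ d) {S : Set (Finset (Fin n))} {f A : Finset (Fin n)}
    (T : Finset (Finset (Fin n))) (h : Spn d S f A) (hT : ∀ g, g ∈ T ↔ g ∈ S ∧ g ⊆ A)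
    (hS : ∀ g ∈ S, g.card = d + 1) :
    ∃ X ⊆ A.powersetCard (d + 1), ∃ φ ∈ pars d f A X,
      1 + d * A.card + X.card ≤ T.card + d * (d + 1) ∧
      T ⊆ (slots d A (insert f X)).image (ev (dec φ n)) := by
  set M := Submodule.span (ZMod 2) (Set.range fun g : T => bd d g.1) with hM
  have h0 : ∀ g, Contr d {g ∈ S | g ⊆ A} g → bd d g ∈ M := fun g hg =>
    Contr.ind (P := fun g => bd d g ∈ M)
      (fun f hf => Submodule.subset_span ⟨⟨f, (hT f).2 hf⟩, rfl⟩)
      (fun g u h1 h2 h3 => by rw [bd_step h1 h2]; exact Submodule.sum_mem _ h3) hg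
  obtain ⟨X, hX, φ, hφ, h1, h4⟩ := Tow.code hd M h0 h.1 h.2.1 h.2.2
  have h2 : Module.finrank (ZMod 2) M ≤ T.card :=
    (finrank_range_le_card (R := ZMod 2) fun g : T => bd d g.1).trans (by simp)
  have h3 := Submodule.finrank_mono (inf_le_left (a := M) (b := supp A))
  refine ⟨X, hX, φ, hφ, by omega, fun g hg => ?_⟩
  obtain ⟨σ, a1, a2⟩ := h4 g ((hT g).1 hg).2 (hS g ((hT g).1 hg).1)
    (Submodule.subset_span ⟨⟨g, hg⟩, rfl⟩)
  exact Finset.mem_image.2 ⟨σ, a1, a2 n (by simpa using A.card_le_univ)⟩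

end Pool.Agent.MP_8f9e6e_pr

end

-- part MP_8f9e6e_pr.Clean
section

/-! Deterministic lemmas about a link predicate `L` on finite sets. -/

open Finset

namespace Pool.Agent.MP_8f9e6e_pr

variable {V : Type} [DecidableEq V]

open Classical in
/-- Absent sets. -/
noncomputable def non (L : Finset V → Prop) (T : Finset V) (y : ℕ) : Finset (Finset V) :=
  (T.powersetCard y).filter fun Y => ¬ L Y

open Classical in
/-- Present sets. -/
noncomputable def fac (L : Finset V → Prop) (T : Finset V) (y : ℕ) : Finset (Finset V) :=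
  (T.powersetCard y).filter L

open Classical in
/-- Apexes. -/
noncomputable def apx (L : Finset V → Prop) (T Y : Finset V) : Finset V :=
  T.filter fun c => c ∉ Y ∧ ∀ x ∈ Y, L (insert c (Y.erase x))

open Classical in
/-- Vertices completing `R` to an absent set. -/
noncomputable def nn (L : Finset V → Prop) (T R : Finset V) : Finset V :=
  T.filter fun x => x ∉ R ∧ ¬ L (insert x R)

open Classical in
/-- Vertices completing `R` to a present set. -/
noncomputable def nb (L : Finset V → Prop) (T R : Finset V) : Finset V :=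
  T.filter fun x => x ∉ R ∧ L (insert x R)

/-- Number of open pairs. -/
noncomputable def opn (L : Finset V → Prop) (T : Finset V) (y : ℕ) : ℕ :=
  ∑ Y ∈ non L T y, (apx L T Y).card

/-- Completeness on `T`. -/
def Comp (L : Finset V → Prop) (T : Finset V) (y : ℕ) : Prop := ∀ Y ⊆ T, Y.card = y → L Y

variable {L : Finset V → Prop} {T U Y R : Finset V} {y μ : ℕ}

omit [DecidableEq V] in
theorem mem_non : Y ∈ non L T y ↔ (Y ⊆ T ∧ Y.card = y) ∧ ¬ L Y := by
  simp [non, Finset.mem_powersetCard]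

omit [DecidableEq V] in
theorem mem_fac : Y ∈ fac L T y ↔ (Y ⊆ T ∧ Y.card = y) ∧ L Y := by
  simp [fac, Finset.mem_powersetCard]

theorem mem_apx {c : V} : c ∈ apx L T Y ↔ c ∈ T ∧ c ∉ Y ∧ ∀ x ∈ Y, L (insert c (Y.erase x)) := by
  simp [apx]

theorem mem_nn {x : V} : x ∈ nn L T R ↔ x ∈ T ∧ x ∉ R ∧ ¬ L (insert x R) := by simp [nn]

theorem mem_nb {x : V} : x ∈ nb L T R ↔ x ∈ T ∧ x ∉ R ∧ L (insert x R) := by simp [nb]

/-- Key inequality, description by absent sets. -/
def KA (L : Finset V → Prop) (U : Finset V) (y μ : ℕ) : Prop :=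
  ∀ T ⊆ U, opn L T y ≤ μ * (T.card + (non L T y).card + 1)

theorem exists_hit (F : Finset (Finset V)) (hF : ∀ R ∈ F, R.Nonempty) :
    ∃ Z : Finset V, Z.card ≤ F.card ∧ ∀ R ∈ F, ∃ x ∈ R, x ∈ Z := by
  induction F using Finset.induction_on with
  | empty => exact ⟨∅, by simp, by simp⟩
  | insert R F hR ih =>
    obtain ⟨Z, hZ, h⟩ := ih fun R' h' => hF R' (Finset.mem_insert_of_mem h')
    obtain ⟨x, hx⟩ := hF R (Finset.mem_insert_self _ _)
    refine ⟨insert x Z, ?_, fun R' h' => ?_⟩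
    · rw [Finset.card_insert_of_notMem hR]
      exact (Finset.card_insert_le _ _).trans (by omega)
    · rcases Finset.mem_insert.1 h' with rfl | h'
      · exact ⟨x, hx, Finset.mem_insert_self _ _⟩
      · obtain ⟨x', h1, h2⟩ := h R' h'
        exact ⟨x', h1, Finset.mem_insert_of_mem h2⟩

theorem sum_nn_le (L : Finset V → Prop) (T : Finset V) (k : ℕ) :
    ∑ R ∈ T.powersetCard k, (nn L T R).card ≤ (k + 1) * (non L T (k + 1)).card := by
  rw [← Finset.card_sigma]
  have h2 : (k + 1) * (non L T (k + 1)).card = ((non L T (k + 1)).sigma fun Y => Y).card := by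
    rw [Finset.card_sigma, Finset.sum_congr rfl fun Y hY => (mem_non.1 hY).1.2, Finset.sum_const,
      smul_eq_mul, mul_comm]
  rw [h2]
  refine Finset.card_le_card_of_injOn (fun q => ⟨insert q.2 q.1, q.2⟩) (fun q hq => ?_)
    fun q hq q' hq' h => ?_
  · simp only [Finset.coe_sigma, Set.mem_sigma_iff, Finset.mem_coe, Finset.mem_powersetCard,
      mem_nn, mem_non] at hq ⊢
    exact ⟨⟨⟨Finset.insert_subset hq.2.1 hq.1.1, by
      rw [Finset.card_insert_of_notMem hq.2.2.1, hq.1.2]⟩, hq.2.2.2⟩, Finset.mem_insert_self _ _⟩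
  · simp only [Finset.coe_sigma, Set.mem_sigma_iff, Finset.mem_coe, mem_nn] at hq hq'
    simp only [Sigma.mk.injEq, heq_eq_eq] at h
    obtain ⟨h1, h2⟩ := h
    refine Sigma.ext ?_ (heq_of_eq h2)
    rw [← Finset.erase_insert hq.2.2.1, ← Finset.erase_insert hq'.2.2.1, h1, h2]

theorem card_le_apx (L : Finset V → Prop) (T Y : Finset V) :
    T.card ≤ (apx L T Y).card + Y.card + ∑ x ∈ Y, (nn L T (Y.erase x)).card := by
  have : T ⊆ apx L T Y ∪ Y ∪ Y.biUnion fun x => nn L T (Y.erase x) := by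
    intro c hc
    simp only [Finset.mem_union, Finset.mem_biUnion, mem_apx, mem_nn]
    by_cases h1 : c ∈ Y
    · exact Or.inl (Or.inr h1)
    by_cases h2 : ∀ x ∈ Y, L (insert c (Y.erase x))
    · exact Or.inl (Or.inl ⟨hc, h1, h2⟩)
    · push Not at h2
      obtain ⟨x, hx, h3⟩ := h2
      exact Or.inr ⟨x, hx, hc, fun h => h1 (Finset.mem_of_mem_erase h), h3⟩
  exact (Finset.card_le_card this).trans ((Finset.card_union_le _ _).trans
    (add_le_add (Finset.card_union_le _ _) Finset.card_biUnion_le))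

theorem nn_mono {T T' : Finset V} (h : T ⊆ T') : nn L T R ⊆ nn L T' R := fun _ hx =>
  mem_nn.2 ⟨h (mem_nn.1 hx).1, (mem_nn.1 hx).2⟩

theorem clean (hA : KA L U y μ) (hT : T ⊆ U) (hy : 2 ≤ y) {r : ℕ}
    (h1 : 4 * y ^ 2 * (non L T y).card ≤ r * T.card) (h2 : 4 * r ≤ T.card) (h3 : 4 * y ≤ T.card)
    (h4 : 8 * μ ≤ T.card) : ∃ Z : Finset V, Z.card ≤ r + 16 * μ ∧ Comp L (T \ Z) y := by
  obtain ⟨k, rfl⟩ : ∃ k, y = k + 1 := ⟨y - 1, by omega⟩
  set t := T.card with ht
  set Hv := (T.powersetCard k).filter fun R => t < 4 * (k + 1) * (nn L T R).card with hHv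
  have e1 : Hv.card ≤ r := by
    have a1 : Hv.card * t ≤ ∑ R ∈ Hv, 4 * (k + 1) * (nn L T R).card := by
      rw [← smul_eq_mul]
      exact Finset.card_nsmul_le_sum _ _ _ fun R hR => (Finset.mem_filter.1 hR).2.le
    have a2 : ∑ R ∈ Hv, (nn L T R).card ≤ (k + 1) * (non L T (k + 1)).card :=
      (Finset.sum_le_sum_of_subset (Finset.filter_subset _ _)).trans (sum_nn_le L T k)
    rw [← Finset.mul_sum] at a1
    have a3 : Hv.card * t ≤ r * t := by nlinarith
    exact Nat.le_of_mul_le_mul_right a3 (by omega)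
  obtain ⟨Z₁, hZ₁, hh₁⟩ := exists_hit Hv fun R hR => by
    rw [← Finset.card_pos, (Finset.mem_powersetCard.1 (Finset.mem_filter.1 hR).1).2]; omega
  set T' := T \ Z₁ with hT'
  have e2 : t ≤ T'.card + r := by
    have : T.card - Z₁.card ≤ T'.card := Finset.le_card_sdiff Z₁ T
    omega
  have e2' : T'.card ≤ t := Finset.card_le_card Finset.sdiff_subset
  have e3 : ∀ Y ∈ non L T' (k + 1), t ≤ 4 * (apx L T' Y).card := by
    intro Y hY
    obtain ⟨⟨hYT, hYc⟩, -⟩ := mem_non.1 hY
    have b1 := card_le_apx L T' Y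
    have b2 : ∑ x ∈ Y, 4 * (k + 1) * (nn L T' (Y.erase x)).card ≤ (k + 1) * t := by
      refine (Finset.sum_le_card_nsmul _ _ t fun x hx => ?_).trans (by rw [hYc, smul_eq_mul])
      by_contra hlt
      obtain ⟨v, hv, hvZ⟩ := hh₁ (Y.erase x) (Finset.mem_filter.2 ⟨Finset.mem_powersetCard.2
        ⟨(Finset.erase_subset _ _).trans (hYT.trans Finset.sdiff_subset), by
          rw [Finset.card_erase_of_mem hx, hYc]; rfl⟩, by
        exact (not_le.1 hlt).trans_le (Nat.mul_le_mul_left _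
          (Finset.card_le_card (nn_mono Finset.sdiff_subset)))⟩)
      exact (Finset.mem_sdiff.1 (hYT (Finset.mem_of_mem_erase hv))).2 hvZ
    rw [← Finset.mul_sum, mul_comm 4, mul_assoc] at b2
    have b3 := Nat.le_of_mul_le_mul_left b2 (by omega)
    omega
  have e4 : (non L T' (k + 1)).card * t ≤ 4 * opn L T' (k + 1) := by
    rw [opn, Finset.mul_sum, ← smul_eq_mul]
    exact Finset.card_nsmul_le_sum _ _ _ e3
  have e5 := hA T' (Finset.sdiff_subset.trans hT)
  have e6 : (non L T' (k + 1)).card ≤ 16 * μ := by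
    have : (non L T' (k + 1)).card * t ≤ 16 * μ * t := by nlinarith
    exact Nat.le_of_mul_le_mul_right this (by omega)
  obtain ⟨Z₂, hZ₂, hh₂⟩ := exists_hit (non L T' (k + 1)) fun R hR => by
    rw [← Finset.card_pos, (mem_non.1 hR).1.2]; omega
  refine ⟨Z₁ ∪ Z₂, (Finset.card_union_le _ _).trans (by omega), fun Y hY hYc => ?_⟩
  by_contra hL
  obtain ⟨v, hv, hvZ⟩ := hh₂ Y (mem_non.2 ⟨⟨hY.trans (Finset.sdiff_subset_sdiff le_rfl
    Finset.subset_union_left), hYc⟩, hL⟩)
  exact (Finset.mem_sdiff.1 (hY hv)).2 (Finset.mem_union_right _ hvZ)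

end Pool.Agent.MP_8f9e6e_pr

end

-- part MP_8f9e6e_pr.Graph
section

/-! Links that are graphs, and the step down to smaller sets. -/

open Finset

namespace Pool.Agent.MP_8f9e6e_pr

variable {V : Type} [DecidableEq V]

/-- Key inequality, description by present pairs. -/
def KF (L : Finset V → Prop) (U : Finset V) (μ : ℕ) : Prop :=
  ∀ T ⊆ U, opn L T 2 ≤ μ * (T.card + (fac L T 2).card + 1)

/-- Key inequality for absent pairs. -/
def KS (L : Finset V → Prop) (U : Finset V) (μ : ℕ) : Prop :=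
  ∀ T ⊆ U, (non L T 2).card ≤ μ * (T.card + (fac L T 2).card + 1)

/-- Key inequality for absent pairs between two sets. -/
def KB (L : Finset V → Prop) (U : Finset V) (μ : ℕ) : Prop :=
  ∀ B ⊆ U, ∀ P ⊆ U, Disjoint B P → ∑ x ∈ B, (nn L P {x}).card ≤
    μ * (B.card + P.card + ∑ x ∈ B, (nb L P {x}).card + 1)

/-- Key inequality for open cherries at a clique. -/
def KC (L : Finset V → Prop) (U : Finset V) (μ : ℕ) : Prop :=
  ∀ B ⊆ U, ∀ P ⊆ U, Disjoint B P → Comp L P 2 →
    ∑ x ∈ B, (nn L P {x}).card * (nb L P {x}).card ≤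
      μ * (B.card + P.card + ∑ x ∈ B, (nb L P {x}).card + 1)

/-- Key inequality for good apexes. -/
def KD (L : Finset V → Prop) (U : Finset V) (y μ : ℕ) : Prop :=
  ∀ W ⊆ U, ∀ Z : V → Finset V, ∀ D ⊆ non L U y,
    (∀ c ∈ W, ∀ Y ⊆ U, Y.card = y → c ∈ Y → Disjoint (Y.erase c) (Z c) → L Y) →
    ∑ Y ∈ D, (W.filter fun c => c ∉ Y ∧ Disjoint Y (Z c)).card ≤
      μ * (W.card + ∑ c ∈ W, (Z c).card + D.card + 1)

variable {L : Finset V → Prop} {T U P : Finset V} {y μ : ℕ}

theorem fac_erase_le (L : Finset V → Prop) (T : Finset V) (v : V) :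
    (fac L T 2).card ≤ (fac L (T.erase v) 2).card + (nb L T {v}).card := by
  have : fac L T 2 ⊆ fac L (T.erase v) 2 ∪ (nb L T {v}).image fun x => insert x {v} := by
    intro Y hY
    obtain ⟨⟨h1, h2⟩, h3⟩ := mem_fac.1 hY
    by_cases hv : v ∈ Y
    · obtain ⟨x, hx⟩ := Finset.card_eq_one.1 (show (Y.erase v).card = 1 by
        rw [Finset.card_erase_of_mem hv, h2])
      have hx1 : x ∈ Y.erase v := hx ▸ Finset.mem_singleton_self x
      have hY' : insert x {v} = Y := by rw [Finset.pair_comm, ← hx, Finset.insert_erase hv]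
      exact Finset.mem_union_right _ (Finset.mem_image.2 ⟨x, mem_nb.2
        ⟨h1 (Finset.mem_of_mem_erase hx1), by simpa using Finset.ne_of_mem_erase hx1, hY' ▸ h3⟩,
        hY'⟩)
    · exact Finset.mem_union_left _ (mem_fac.2 ⟨⟨Finset.subset_erase.2 ⟨h1, hv⟩, h2⟩, h3⟩)
  exact (Finset.card_le_card this).trans ((Finset.card_union_le _ _).trans
    (add_le_add le_rfl Finset.card_image_le))

theorem mem_apx_pair {Y : Finset V} {c : V} (hY : Y.card = 2) (hc : c ∈ T) (hcY : c ∉ Y)
    (h : ∀ x ∈ Y, L (insert c {x})) : c ∈ apx L T Y := by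
  refine mem_apx.2 ⟨hc, hcY, fun x hx => ?_⟩
  obtain ⟨x', hx'⟩ := Finset.card_eq_one.1 (show (Y.erase x).card = 1 by
    rw [Finset.card_erase_of_mem hx, hY])
  rw [hx']
  exact h x' (Finset.mem_of_mem_erase (hx' ▸ Finset.mem_singleton_self x'))

theorem ga (hF : KF L U μ) (hU : U.Nonempty) {D : ℕ} (hD : 2 ≤ D)
    (h : D * U.card ≤ (fac L U 2).card) :
    ∃ Q ⊆ U, D ≤ Q.card ∧ (non L Q 2).card ≤ 2 * μ * Q.card := by
  classical
  obtain ⟨T, hT, hmin⟩ := Finset.exists_min_image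
    (U.powerset.filter fun T => T.Nonempty ∧ D * T.card ≤ (fac L T 2).card) Finset.card
    ⟨U, by simp [hU, h]⟩
  simp only [Finset.mem_filter, Finset.mem_powerset] at hT hmin
  obtain ⟨hTU, hTn, hTD⟩ := hT
  have hT0 := Finset.card_pos.2 hTn
  have e1 : ∀ v ∈ T, D ≤ (nb L T {v}).card ∧ (fac L T 2).card ≤ (nb L T {v}).card * T.card := by
    intro v hv
    have a1 := fac_erase_le L T v
    have a2 := Finset.card_erase_of_mem hv
    obtain ⟨k, hk⟩ : ∃ k, T.card = k + 1 := ⟨T.card - 1, by omega⟩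
    have a3 : (fac L (T.erase v) 2).card ≤ D * k := by
      by_contra hlt
      have hne : (T.erase v).Nonempty := by
        obtain ⟨Y, hY⟩ := Finset.card_pos.1 (show 0 < (fac L (T.erase v) 2).card by omega)
        obtain ⟨⟨h1, h2⟩, -⟩ := mem_fac.1 hY
        exact (Finset.card_pos.1 (by omega)).mono h1
      have := hmin (T.erase v) ⟨(Finset.erase_subset _ _).trans hTU, hne, by
        rw [a2, hk]; exact (not_le.1 hlt).le⟩
      omega
    rw [hk] at hTD ⊢
    have a4 : D ≤ (nb L T {v}).card := by nlinarith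
    exact ⟨a4, by nlinarith⟩
  have e2 : ∑ c ∈ T, (non L (nb L T {c}) 2).card ≤ opn L T 2 := by
    have := Finset.sum_card_bipartiteAbove_eq_sum_card_bipartiteBelow (s := non L T 2) (t := T)
      (fun Y c => c ∈ apx L T Y)
    calc _ ≤ ∑ c ∈ T, ((non L T 2).bipartiteBelow (fun Y c => c ∈ apx L T Y) c).card := by
          refine Finset.sum_le_sum fun c hc => Finset.card_le_card fun Y hY => ?_
          obtain ⟨⟨h1, h2⟩, h3⟩ := mem_non.1 hY
          refine Finset.mem_bipartiteBelow _ |>.2 ⟨mem_non.2 ⟨⟨fun x hx => (mem_nb.1 (h1 hx)).1, h2⟩,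
            h3⟩, mem_apx_pair h2 hc (fun h => (mem_nb.1 (h1 h)).2.1 (by simp)) fun x hx => ?_⟩
          rw [Finset.pair_comm]
          exact (mem_nb.1 (h1 hx)).2.2
      _ = _ := this.symm
      _ ≤ _ := Finset.sum_le_sum fun Y _ => Finset.card_le_card fun c hc =>
          ((Finset.mem_bipartiteAbove _).1 hc).2
  obtain ⟨c, hc, hcm⟩ := Finset.exists_min_image T (fun c => (non L (nb L T {c}) 2).card) hTn
  have e3 : T.card * (non L (nb L T {c}) 2).card ≤ opn L T 2 := by
    rw [← smul_eq_mul]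
    exact (Finset.card_nsmul_le_sum _ _ _ hcm).trans e2
  obtain ⟨e4, e5⟩ := e1 c hc
  refine ⟨nb L T {c}, fun x hx => hTU (mem_nb.1 hx).1, e4, ?_⟩
  have e6 := hF T hTU
  have e7 : T.card + (fac L T 2).card + 1 ≤ T.card * (2 * (nb L T {c}).card) := by nlinarith
  refine Nat.le_of_mul_le_mul_left ?_ hT0
  calc _ ≤ μ * (T.card * (2 * (nb L T {c}).card)) := e3.trans (e6.trans (Nat.mul_le_mul_left _ e7))
    _ = _ := by ring

theorem nn_add_nb {x : V} (hx : x ∉ P) : (nn L P {x}).card + (nb L P {x}).card = P.card := by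
  classical
  rw [← Finset.card_filter_add_card_filter_not (s := P) fun a => ¬ L (insert a {x})]
  congr 2 <;> ext a
  · simp only [mem_nn, Finset.mem_filter, Finset.mem_singleton]
    exact ⟨fun h => ⟨h.1, h.2.2⟩, fun h => ⟨h.1, fun h' => hx (h' ▸ h.1), h.2⟩⟩
  · simp only [mem_nb, Finset.mem_filter, Finset.mem_singleton, not_not]
    exact ⟨fun h => ⟨h.1, h.2.2⟩, fun h => ⟨h.1, fun h' => hx (h' ▸ h.1), h.2⟩⟩

theorem gb (hA : KA L U 2 μ) (hB : KB L U μ) (hC : KC L U μ) (hμ : 1 ≤ μ) (hP : P ⊆ U)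
    (hc : Comp L P 2) (hv : 32 * μ ≤ P.card) :
    ∃ Z : Finset V, Z.card ≤ 56 * μ ∧ Comp L (U \ Z) 2 := by
  set v := P.card with hvP
  set B := (U \ P).filter fun x => v ≤ 4 * (nn L P {x}).card with hBd
  have hBU : B ⊆ U := (Finset.filter_subset _ _).trans Finset.sdiff_subset
  have hBP : Disjoint B P := Finset.disjoint_left.2 fun x hx =>
    (Finset.mem_sdiff.1 (Finset.mem_filter.1 hx).1).2
  have e1 : B.card ≤ 32 * μ := by
    have a1 := hB B hBU P hP hBP
    have a2 := hC B hBU P hP hBP hc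
    have a3 : B.card * v ≤ 4 * ∑ x ∈ B, (nn L P {x}).card := by
      rw [Finset.mul_sum, ← smul_eq_mul]
      exact Finset.card_nsmul_le_sum _ _ _ fun x hx => (Finset.mem_filter.1 hx).2
    have a4 : (∑ x ∈ B, (nb L P {x}).card) * v ≤
        4 * ∑ x ∈ B, (nn L P {x}).card * (nb L P {x}).card := by
      rw [Finset.mul_sum, Finset.sum_mul]
      refine Finset.sum_le_sum fun x hx => ?_
      have := (Finset.mem_filter.1 hx).2
      nlinarith
    set m := ∑ x ∈ B, (nb L P {x}).card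
    have a5 : (m + B.card) * v ≤ 8 * μ * (B.card + v + m + 1) := by nlinarith
    have a6 : B.card * v ≤ 32 * μ * v := by nlinarith
    exact Nat.le_of_mul_le_mul_right a6 (by omega)
  set U' := U \ B with hU'
  have hPU' : P ⊆ U' := Finset.subset_sdiff.2 ⟨hP, hBP.symm⟩
  have e2 : ∀ x ∈ U', 4 * (nn L P {x}).card + 4 ≤ v + 3 := by
    intro x hx
    by_cases hxP : x ∈ P
    · have : nn L P {x} = ∅ := Finset.eq_empty_of_forall_notMem fun a ha => by
        obtain ⟨h1, h2, h3⟩ := mem_nn.1 ha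
        exact h3 (hc _ (Finset.insert_subset h1 (Finset.singleton_subset_iff.2 hxP))
          (by rw [Finset.card_insert_of_notMem h2]; simp))
      rw [this, Finset.card_empty]; omega
    · by_contra hlt
      exact (Finset.mem_sdiff.1 hx).2 (Finset.mem_filter.2
        ⟨Finset.mem_sdiff.2 ⟨(Finset.mem_sdiff.1 hx).1, hxP⟩, by omega⟩)
  have e3 : ∀ Y ∈ non L U' 2, v ≤ 4 * (apx L U' Y).card := by
    intro Y hY
    obtain ⟨⟨h1, h2⟩, -⟩ := mem_non.1 hY
    have a1 : P ⊆ apx L U' Y ∪ Y ∪ Y.biUnion fun x => nn L P {x} := by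
      intro c hcP
      simp only [Finset.mem_union, Finset.mem_biUnion, mem_nn]
      by_cases h3 : c ∈ Y
      · exact Or.inl (Or.inr h3)
      by_cases h4 : ∀ x ∈ Y, L (insert c {x})
      · exact Or.inl (Or.inl (mem_apx_pair h2 (hPU' hcP) h3 h4))
      · push Not at h4
        obtain ⟨x, hx, h5⟩ := h4
        exact Or.inr ⟨x, hx, hcP, fun h => h3 (Finset.mem_singleton.1 h ▸ hx), h5⟩
    have a2 := (Finset.card_le_card a1).trans ((Finset.card_union_le _ _).trans
      (add_le_add (Finset.card_union_le _ _) Finset.card_biUnion_le))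
    have a3 : ∑ x ∈ Y, 4 * (nn L P {x}).card ≤ 2 * v :=
      (Finset.sum_le_card_nsmul _ _ v fun x hx => by have := e2 x (h1 hx); omega).trans
        (by rw [h2, smul_eq_mul])
    rw [← Finset.mul_sum] at a3
    omega
  have e4 : (non L U' 2).card * v ≤ 4 * opn L U' 2 := by
    rw [opn, Finset.mul_sum, ← smul_eq_mul]
    exact Finset.card_nsmul_le_sum _ _ _ e3
  have e5 := hA U' Finset.sdiff_subset
  have e6 := Finset.card_le_card hPU'
  have e7 : 2 * (non L U' 2).card ≤ U'.card := by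
    have : μ * (2 * (non L U' 2).card) ≤ μ * U'.card := by nlinarith
    exact Nat.le_of_mul_le_mul_left this hμ
  obtain ⟨Z, hZ, hZc⟩ := clean (r := 8) hA (Finset.sdiff_subset (s := U) (t := B)) le_rfl
    (by rw [← hU']; omega) (by rw [← hU']; omega) (by rw [← hU']; omega) (by rw [← hU']; omega)
  refine ⟨B ∪ Z, (Finset.card_union_le _ _).trans (by omega), ?_⟩
  rwa [sdiff_sdiff_left] at hZc

theorem glemma (hA : KA L U 2 μ) (hF : KF L U μ) (hB : KB L U μ) (hC : KC L U μ) (hμ : 1 ≤ μ)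
    (hU : U.Nonempty) (h : 128 * μ * U.card ≤ (fac L U 2).card) :
    ∃ Z : Finset V, Z.card ≤ 56 * μ ∧ Comp L (U \ Z) 2 := by
  obtain ⟨Q, hQ, h1, h2⟩ := ga hF hU (by omega) h
  obtain ⟨Z, hZ, hZc⟩ := clean (r := 32 * μ) hA hQ le_rfl (by nlinarith) (by omega) (by omega)
    (by omega)
  refine gb hA hB hC hμ (Finset.sdiff_subset.trans hQ) hZc ?_
  have := Finset.le_card_sdiff Z Q
  omega

omit [DecidableEq V] in
theorem start (hS : KS L U μ) {ν : ℕ} (hμ : 1 ≤ μ) (hν : 1 ≤ ν) (h : 1024 * μ * ν ≤ U.card) :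
    128 * ν * U.card ≤ (fac L U 2).card := by
  classical
  have e1 := hS U le_rfl
  have e2 : (fac L U 2).card + (non L U 2).card = U.card.choose 2 := by
    rw [← Finset.card_powersetCard, fac, non]
    convert Finset.card_filter_add_card_filter_not (s := U.powersetCard 2) L
  have e3 : 2 * U.card.choose 2 + U.card = U.card * U.card := by
    generalize U.card = u
    induction u with
    | zero => simp
    | succ u ih => rw [Nat.choose_succ_succ', Nat.choose_one_right]; nlinarith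
  by_contra hlt
  have e4 : 1024 ≤ U.card := by nlinarith
  have e5 : μ * (U.card + (fac L U 2).card + 1) ≤ μ * (130 * ν * U.card) :=
    Nat.mul_le_mul_left _ (by nlinarith)
  have e6 : 128 * ν * U.card ≤ μ * (128 * ν * U.card) := Nat.le_mul_of_pos_left _ hμ
  nlinarith

theorem cluster (hB : KB L U μ) (hμ : 1 ≤ μ) {k : ℕ} (hk : 16 * μ ≤ k) (hU : 4 * k ≤ U.card)
    (ht : ∀ a ∈ U, ∀ b ∈ U, ∀ c ∈ U, a ≠ b → c ≠ a → c ≠ b → L {a, c} → L {b, c} → L {a, b}) :
    ∃ P ⊆ U, k ≤ P.card ∧ Comp L P 2 := by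
  classical
  by_contra hno
  push Not at hno
  have e1 : ∀ x ∈ U, (insert x (nb L U {x})).card < k := by
    intro x hx
    by_contra hlt
    refine hno _ (Finset.insert_subset hx fun a ha => (mem_nb.1 ha).1) (not_lt.1 hlt)
      fun Y hY hYc => ?_
    obtain ⟨a, b, hab, rfl⟩ := Finset.card_eq_two.1 hYc
    have ha := Finset.mem_insert.1 (hY (Finset.mem_insert_self _ _))
    have hb := Finset.mem_insert.1 (hY (Finset.mem_insert_of_mem (Finset.mem_singleton_self _)))
    rcases ha with rfl | ha <;> rcases hb with rfl | hb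
    · exact absurd rfl hab
    · rw [Finset.pair_comm]; exact (mem_nb.1 hb).2.2
    · exact (mem_nb.1 ha).2.2
    · obtain ⟨a1, a2, a3⟩ := mem_nb.1 ha
      obtain ⟨b1, b2, b3⟩ := mem_nb.1 hb
      exact ht a a1 b b1 x hx hab (fun h => a2 (by simp [h])) (fun h => b2 (by simp [h])) a3 b3
  obtain ⟨T, hT, hmax⟩ := Finset.exists_max_image
    (U.powerset.filter fun T => T.card ≤ 2 * k ∧ ∀ x ∈ T, nb L U {x} ⊆ T) Finset.card
    ⟨∅, by simp⟩
  simp only [Finset.mem_filter, Finset.mem_powerset] at hT hmax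
  obtain ⟨hTU, hTk, hTc⟩ := hT
  have e2 : T.card + (U \ T).card = U.card := by
    rw [add_comm, Finset.card_sdiff_add_card_eq_card hTU]
  have e3 : k ≤ T.card := by
    by_contra hlt
    obtain ⟨x, hx⟩ := Finset.card_pos.1 (show 0 < (U \ T).card by omega)
    obtain ⟨hxU, hxT⟩ := Finset.mem_sdiff.1 hx
    have h1 := e1 x hxU
    have h2 := hmax (T ∪ insert x (nb L U {x})) ⟨Finset.union_subset hTU
      (Finset.insert_subset hxU fun a ha => (mem_nb.1 ha).1),
      (Finset.card_union_le _ _).trans (by omega), fun a ha b hb => by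
        rcases Finset.mem_union.1 ha with ha | ha
        · exact Finset.mem_union_left _ (hTc a ha hb)
        refine Finset.mem_union_right _ ?_
        rcases Finset.mem_insert.1 ha with rfl | ha
        · exact Finset.mem_insert_of_mem hb
        by_cases hbx : b = x
        · exact hbx ▸ Finset.mem_insert_self _ _
        obtain ⟨a1, a2, a3⟩ := mem_nb.1 ha
        obtain ⟨b1, b2, b3⟩ := mem_nb.1 hb
        exact Finset.mem_insert_of_mem (mem_nb.2 ⟨b1, by simpa using hbx, ht b b1 x hxU a a1 hbx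
          (fun h => b2 (by simp [h])) (by simpa using a2) b3 (Finset.pair_comm a x ▸ a3)⟩)⟩
    have h3 : (insert x T).card ≤ (T ∪ insert x (nb L U {x})).card :=
      Finset.card_le_card (Finset.insert_subset
        (Finset.mem_union_right _ (Finset.mem_insert_self _ _)) Finset.subset_union_left)
    rw [Finset.card_insert_of_notMem hxT] at h3
    omega
  have e4 := hB T hTU (U \ T) Finset.sdiff_subset Finset.disjoint_sdiff
  have e5 : ∀ x ∈ T, (nb L (U \ T) {x}).card = 0 := fun x hx =>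
    Finset.card_eq_zero.2 (Finset.eq_empty_of_forall_notMem fun a ha => by
      obtain ⟨h1, h2⟩ := mem_nb.1 ha
      exact (Finset.mem_sdiff.1 h1).2 (hTc x hx (mem_nb.2 ⟨(Finset.mem_sdiff.1 h1).1, h2⟩)))
  have e6 : ∀ x ∈ T, (nn L (U \ T) {x}).card = (U \ T).card := fun x hx => by
    rw [← nn_add_nb (L := L) (x := x) (P := U \ T) (fun h => (Finset.mem_sdiff.1 h).2 hx), e5 x hx,
      add_zero]
  rw [Finset.sum_congr rfl e5, Finset.sum_congr rfl e6, Finset.sum_const, Finset.sum_const,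
    smul_eq_mul, smul_eq_mul] at e4
  have e7 : T.card ≤ (U \ T).card := by omega
  nlinarith

theorem stepdown (hA : KA L U y μ) (hD : KD L U y μ) (hμ : 1 ≤ μ) (hy : 2 ≤ y) {W : Finset V}
    (hW : W ⊆ U) (hWc : W.card = 4 * μ) {z : ℕ} (hz : 22 * μ ≤ z) (Z : V → Finset V)
    (hZ : ∀ c ∈ W, (Z c).card ≤ z)
    (hL : ∀ c ∈ W, ∀ Y ⊆ U, Y.card = y → c ∈ Y → Disjoint (Y.erase c) (Z c) → L Y)
    (hU : 16 * y ^ 2 * z ≤ U.card) :
    ∃ Z' : Finset V, Z'.card ≤ (2 * y + 2) * z ∧ Comp L (U \ Z') y := by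
  set Fr := U.filter fun x => 4 * μ < 2 * y * (W.filter fun c => x ∈ Z c).card with hFr
  have hsum : ∑ c ∈ W, (Z c).card ≤ 4 * μ * z :=
    (Finset.sum_le_card_nsmul _ _ z hZ).trans (by rw [hWc, smul_eq_mul])
  have e1 : Fr.card ≤ 2 * y * z := by
    have a1 : Fr.card * (4 * μ) ≤ 2 * y * ∑ x ∈ Fr, (W.filter fun c => x ∈ Z c).card := by
      rw [Finset.mul_sum, ← smul_eq_mul]
      exact Finset.card_nsmul_le_sum _ _ _ fun x hx => (Finset.mem_filter.1 hx).2.le
    have a2 : ∑ x ∈ Fr, (W.filter fun c => x ∈ Z c).card ≤ ∑ c ∈ W, (Z c).card :=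
      (Finset.sum_card_bipartiteAbove_eq_sum_card_bipartiteBelow (s := Fr) (t := W)
        (fun x c => x ∈ Z c)).le.trans (Finset.sum_le_sum fun c _ => Finset.card_le_card
          fun x hx => ((Finset.mem_bipartiteBelow _).1 hx).2)
    have a3 : Fr.card * (4 * μ) ≤ 2 * y * z * (4 * μ) := by nlinarith
    exact Nat.le_of_mul_le_mul_right a3 (by omega)
  set T := U \ (W ∪ Fr) with hT
  have e2 : ∀ Y ∈ non L T y, 4 * μ ≤ 2 * (W.filter fun c => c ∉ Y ∧ Disjoint Y (Z c)).card := by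
    intro Y hY
    obtain ⟨⟨h1, h2⟩, -⟩ := mem_non.1 hY
    have a1 : W ⊆ (W.filter fun c => c ∉ Y ∧ Disjoint Y (Z c)) ∪
        Y.biUnion fun x => W.filter fun c => x ∈ Z c := by
      intro c hc
      simp only [Finset.mem_union, Finset.mem_biUnion, Finset.mem_filter]
      by_cases h3 : Disjoint Y (Z c)
      · exact Or.inl ⟨hc, fun h => (Finset.mem_sdiff.1 (h1 h)).2 (Finset.mem_union_left _ hc), h3⟩
      · obtain ⟨x, hx, hx'⟩ := Finset.not_disjoint_iff.1 h3
        exact Or.inr ⟨x, hx, hc, hx'⟩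
    have a2 := (Finset.card_le_card a1).trans ((Finset.card_union_le _ _).trans
      (add_le_add le_rfl Finset.card_biUnion_le))
    have a3 : ∑ x ∈ Y, 2 * y * (W.filter fun c => x ∈ Z c).card ≤ y * (4 * μ) :=
      (Finset.sum_le_card_nsmul _ _ (4 * μ) fun x hx => not_lt.1 fun h =>
        (Finset.mem_sdiff.1 (h1 hx)).2 (Finset.mem_union_right _ (Finset.mem_filter.2
          ⟨(Finset.mem_sdiff.1 (h1 hx)).1, h⟩))).trans (by rw [h2, smul_eq_mul])
    rw [← Finset.mul_sum, mul_comm 2 y, mul_assoc] at a3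
    have a4 := Nat.le_of_mul_le_mul_left a3 (by omega)
    omega
  have e3 := hD W hW Z (non L T y) (fun Y hY => mem_non.2
    ⟨⟨(mem_non.1 hY).1.1.trans Finset.sdiff_subset, (mem_non.1 hY).1.2⟩, (mem_non.1 hY).2⟩) hL
  have e4 : (non L T y).card * (4 * μ) ≤
      2 * ∑ Y ∈ non L T y, (W.filter fun c => c ∉ Y ∧ Disjoint Y (Z c)).card := by
    rw [Finset.mul_sum, ← smul_eq_mul]
    exact Finset.card_nsmul_le_sum _ _ _ e2
  have e5 : (non L T y).card ≤ 4 * μ * (z + 2) := by
    have a1 : μ * (W.card + ∑ c ∈ W, (Z c).card + (non L T y).card + 1) ≤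
        μ * (4 * μ * (z + 2) + (non L T y).card) := Nat.mul_le_mul_left _ (by nlinarith)
    have a2 : μ * (non L T y).card ≤ μ * (4 * μ * (z + 2)) := by nlinarith
    exact Nat.le_of_mul_le_mul_left a2 hμ
  have e6 : U.card ≤ T.card + 4 * μ + 2 * y * z := by
    have a1 : U.card - (W ∪ Fr).card ≤ T.card := Finset.le_card_sdiff _ _
    have a2 := Finset.card_union_le W Fr
    omega
  have e7 : 8 * y ^ 2 * z ≤ T.card := by nlinarith
  have e8 : 16 * y ^ 2 * μ ≤ T.card := by nlinarith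
  obtain ⟨Z', hZ', hc⟩ := clean (r := z + 2) hA (Finset.sdiff_subset (s := U) (t := W ∪ Fr)) hy
    (by rw [← hT]; nlinarith) (by rw [← hT]; nlinarith) (by rw [← hT]; nlinarith)
    (by rw [← hT]; nlinarith)
  refine ⟨W ∪ Fr ∪ Z', (Finset.card_union_le _ _).trans ?_, by rwa [sdiff_sdiff_left] at hc⟩
  have := Finset.card_union_le W Fr
  nlinarith

end Pool.Agent.MP_8f9e6e_pr

end

-- part MP_8f9e6e_pr.Key
section

/-! The pseudo-randomness property and the key inequalities it gives. -/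

open Finset

namespace Pool.Agent.MP_8f9e6e_pr

variable {V : Type} [Fintype V] [DecidableEq V]

/-- Descriptions. -/
abbrev Code (V : Type) : Type := Finset V × Finset V × Finset (V × V) × Finset (Finset V)

/-- Length of a description. -/
def Code.size (c : Code V) : ℕ := c.1.card + c.2.1.card + c.2.2.1.card + c.2.2.2.card

/-- Block of faces. -/
def blk (d : ℕ) (β κ e : Finset V) : Finset (Finset V) :=
  ((β ∪ κ ∪ e).powersetCard (d + 1)).filter fun f => β ∪ e ⊆ f

open Classical in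
/-- The sets selected by a predicate. -/
noncomputable def sel (s : Finset V → Prop) : Finset (Finset V) := univ.filter s

/-- The decoding schemes. -/
def sch : Fin 7 → Code V → Finset V → Prop :=
  ![fun c e => ∃ Y ∈ c.2.2.2, ∃ a ∈ c.1, a ∉ Y ∧ (∀ x ∈ Y, insert a (Y.erase x) ∉ c.2.2.2) ∧
      e = insert a Y,
    fun c e => ∃ Y ∈ c.2.2.2, ∃ a, a ∉ Y ∧ (∀ x ∈ Y, insert a (Y.erase x) ∉ c.2.2.2) ∧
      e = insert a Y,
    fun c e => ∃ Y ⊆ c.1, Y.card = 2 ∧ Y ∉ c.2.2.2 ∧ ∃ a ∈ c.1, a ∉ Y ∧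
      (∀ x ∈ Y, insert a (Y.erase x) ∈ c.2.2.2) ∧ e = insert a Y,
    fun c e => e ⊆ c.1 ∧ e.card = 2 ∧ e ∉ c.2.2.2,
    fun c e => ∃ x ∈ c.1, ∃ a ∈ c.2.1, (x, a) ∉ c.2.2.1 ∧ e = insert a {x},
    fun c e => ∃ x ∈ c.1, ∃ a ∈ c.2.1, ∃ b ∈ c.2.1, (x, a) ∉ c.2.2.1 ∧ (x, b) ∈ c.2.2.1 ∧
      e = insert b (insert a {x}),
    fun c e => ∃ Y ∈ c.2.2.2, ∃ a ∈ c.1, a ∉ Y ∧ (∀ x ∈ Y, (a, x) ∉ c.2.2.1) ∧ e = insert a Y]

/-- The set `e` gives an unfilled block of at most `j` faces. -/
def Okk (d : ℕ) (H : Finset V → Prop) (β κ : Finset V) (j : ℕ) (e : Finset V) : Prop :=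
  Disjoint e (β ∪ κ) ∧ (blk d β κ e).card ≤ j ∧ ∃ f ∈ blk d β κ e, ¬ H f

/-- The pseudo-randomness property. -/
def Good (d : ℕ) (ν : ℕ → ℕ) (H : Finset V → Prop) : Prop :=
  ∀ i : Fin 7, ∀ β κ : Finset V, β.card ≤ d + 1 → κ.card ≤ d + 1 → ∀ j ≤ d, ∀ c : Code V,
    (∀ Y ∈ c.2.2.2, Y.card ≤ d + 1) → (∀ e, sch i c e → Okk d H β κ j e) →
    (sel (sch i c)).card ≤ ν j * (c.size + 1)

/-- Closed families. -/
def Closed (d : ℕ) (H : Finset V → Prop) : Prop :=
  ∀ g u, g.card = d + 1 → u ∉ g → (∀ w ∈ g, H (insert u (g.erase w))) → H g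

/-- The link. -/
def lk (H : Finset V → Prop) (τ : Finset V) : Finset V → Prop := fun Y => H (τ ∪ Y)

/-- Faces missing one vertex of `β` are present over `U`. -/
def Val (d : ℕ) (H : Finset V → Prop) (β τ U : Finset V) : Prop :=
  Disjoint U τ ∧ ∀ e ⊆ U, (τ ∪ e).card = d + 2 → ∀ w ∈ β, H ((τ ∪ e).erase w)

variable {d j y : ℕ} {ν : ℕ → ℕ} {H : Finset V → Prop} {β κ τ U : Finset V}

omit [DecidableEq V] in
theorem mem_sel {s : Finset V → Prop} {e : Finset V} : e ∈ sel s ↔ s e := by simp [sel]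

omit [Fintype V] in
theorem mem_blk {e f : Finset V} :
    f ∈ blk d β κ e ↔ (f ⊆ β ∪ κ ∪ e ∧ f.card = d + 1) ∧ β ∪ e ⊆ f := by
  simp [blk, Finset.mem_powersetCard]

theorem Good.mono {H' : Finset V → Prop} (h : Good d ν H) (hH : ∀ f, f.card = d + 1 → H f → H' f) :
    Good d ν H' := fun i β κ h1 h2 j hj c hc he => h i β κ h1 h2 j hj c hc fun e hs => by
  obtain ⟨a1, a2, f, hf, a3⟩ := he e hs
  exact ⟨a1, a2, f, hf, fun h => a3 (hH f (mem_blk.1 hf).1.2 h)⟩

omit [Fintype V] in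
theorem okk_one {e : Finset V} (hj : 1 ≤ j) (h1 : Disjoint e τ) (h2 : (τ ∪ e).card = d + 1)
    (h3 : ¬ H (τ ∪ e)) : Okk d H τ ∅ j e := by
  refine ⟨by simpa using h1, le_trans (Finset.card_le_one.2 fun f hf g hg => ?_) hj,
    τ ∪ e, mem_blk.2 ⟨⟨by simp, h2⟩, le_rfl⟩, h3⟩
  rw [mem_blk, Finset.union_empty] at hf hg
  rw [Finset.Subset.antisymm hf.1.1 hf.2, Finset.Subset.antisymm hg.1.1 hg.2]

omit [Fintype V] in
theorem okk_two (hcl : Closed d H) (hτ : β ∪ κ = τ) (hv : Val d H β τ U) (hj : κ.card ≤ j)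
    {Y : Finset V} {a : V} (hY : Y ⊆ U) (ha : a ∈ U) (haY : a ∉ Y) (hc : τ.card + Y.card = d + 1)
    (h1 : ¬ lk H τ Y) (h2 : ∀ x ∈ Y, lk H τ (insert a (Y.erase x))) :
    Okk d H β κ j (insert a Y) := by
  have hU : insert a Y ⊆ U := Finset.insert_subset ha hY
  have hd : Disjoint (insert a Y) τ := hv.1.mono_left hU
  have hc2 : (τ ∪ insert a Y).card = d + 2 := by
    rw [Finset.card_union_of_disjoint hd.symm, Finset.card_insert_of_notMem haY]; omega
  refine ⟨hτ ▸ hd, le_trans (Finset.card_le_card (t := κ.image (τ ∪ insert a Y).erase)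
    fun f hf => ?_) (Finset.card_image_le.trans hj), ?_⟩
  · rw [mem_blk, hτ] at hf
    obtain ⟨w, hw, hwf⟩ := Finset.exists_mem_notMem_of_card_lt_card
      (show f.card < (τ ∪ insert a Y).card by omega)
    refine Finset.mem_image.2 ⟨w, ?_, (Finset.eq_of_subset_of_card_le
      (Finset.subset_erase.2 ⟨hf.1.1, hwf⟩) ?_).symm⟩
    · rw [← hτ, Finset.mem_union, Finset.mem_union] at hw
      rcases hw with (h | h) | h
      · exact absurd (hf.2 (Finset.mem_union_left _ h)) hwf
      · exact h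
      · exact absurd (hf.2 (Finset.mem_union_right _ h)) hwf
    · rw [Finset.card_erase_of_mem hw]; omega
  by_contra hno
  push Not at hno
  have haτ : a ∉ τ := Finset.disjoint_left.1 hv.1 ha
  have hag : a ∉ τ ∪ Y := by simp [haτ, haY]
  refine h1 (hcl _ a (by rw [Finset.card_union_of_disjoint (hv.1.mono_left hY).symm, hc]) hag
    fun w hw => ?_)
  have hwa : a ≠ w := fun h => hag (h ▸ hw)
  have e1 : insert a ((τ ∪ Y).erase w) = (τ ∪ insert a Y).erase w := by
    rw [Finset.union_insert, Finset.erase_insert_of_ne hwa]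
  by_cases hwY : w ∈ Y
  · have := h2 w hwY
    rwa [lk, Finset.union_insert, ← Finset.erase_eq_of_notMem
      (Finset.disjoint_left.1 hv.1 (hY hwY)), ← Finset.erase_union_distrib] at this
  rw [e1]
  by_cases hwβ : w ∈ β
  · exact hv.2 _ hU hc2 w hwβ
  refine hno _ (mem_blk.2 ⟨⟨hτ ▸ Finset.erase_subset _ _, ?_⟩, Finset.subset_erase.2
    ⟨Finset.union_subset_union (hτ ▸ Finset.subset_union_left) le_rfl, by simp [hwβ, hwY, hwa.symm]⟩⟩)
  rw [Finset.card_erase_of_mem (Finset.union_subset_union le_rfl (Finset.subset_insert _ _) hw), hc2]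
  rfl

theorem cnt_pairs {D : Finset (Finset V)} {A : Finset V → Finset V} {s : Finset V → Prop}
    (h : ∀ Y ∈ D, ∀ a ∈ A Y, a ∉ Y ∧ Y.card ≤ d + 1 ∧ s (insert a Y)) :
    ∑ Y ∈ D, (A Y).card ≤ (d + 2) ^ 3 * (sel s).card := by
  rw [← Finset.card_sigma]
  refine Finset.card_le_mul_card_image_of_maps_to (f := fun q => insert q.2 q.1)
    (fun q hq => mem_sel.2 (h _ (Finset.mem_sigma.1 hq).1 _ (Finset.mem_sigma.1 hq).2).2.2) _
    fun e _ => ?_
  by_cases he : e.card ≤ d + 2
  · refine le_trans (Finset.card_le_card (t := e.image fun a => ⟨e.erase a, a⟩) fun q hq => ?_)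
      (Finset.card_image_le.trans (he.trans (Nat.le_self_pow (by norm_num) _)))
    obtain ⟨hq', rfl⟩ := Finset.mem_filter.1 hq
    refine Finset.mem_image.2 ⟨q.2, Finset.mem_insert_self _ _, ?_⟩
    rw [Finset.erase_insert (h _ (Finset.mem_sigma.1 hq').1 _ (Finset.mem_sigma.1 hq').2).1]
  · rw [Finset.filter_eq_empty_iff.2 fun q hq h' => he ?_]
    · simp
    · rw [← h']
      exact (Finset.card_insert_le _ _).trans (Nat.succ_le_succ
        (h _ (Finset.mem_sigma.1 hq).1 _ (Finset.mem_sigma.1 hq).2).2.1)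

theorem fin_key {a b s t : ℕ} (h1 : a ≤ (d + 2) ^ 3 * b) (h2 : b ≤ ν j * (s + 1)) (h3 : s ≤ t) :
    a ≤ (d + 2) ^ 3 * ν j * (t + 1) := by
  rw [mul_assoc]
  exact h1.trans (Nat.mul_le_mul_left _ (h2.trans (Nat.mul_le_mul_left _ (by omega))))

omit [Fintype V] in
theorem card_le_of_union (hτ : β ∪ κ = τ) (hy : τ.card + y = d + 1) :
    β.card ≤ d + 1 ∧ κ.card ≤ d + 1 :=
  ⟨(Finset.card_le_card (hτ ▸ Finset.subset_union_left)).trans (Nat.le.intro hy),
    (Finset.card_le_card (hτ ▸ Finset.subset_union_right)).trans (Nat.le.intro hy)⟩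

theorem key_A (hG : Good d ν H) (hcl : Closed d H) (hτ : β ∪ κ = τ) (hv : Val d H β τ U)
    (hj : κ.card ≤ j) (hjd : j ≤ d) (hy : τ.card + y = d + 1) :
    KA (lk H τ) U y ((d + 2) ^ 3 * ν j) := by
  intro T hT
  have hc : ∀ Y ∈ non (lk H τ) T y, Y.card ≤ d + 1 := fun Y hY => by
    have := (mem_non.1 hY).1.2; omega
  refine fin_key (cnt_pairs fun Y hY a ha => ?_) (hG 0 β κ (card_le_of_union hτ hy).1
    (card_le_of_union hτ hy).2 j hjd (T, ∅, ∅, non (lk H τ) T y) hc ?_) (by simp [Code.size])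
  · obtain ⟨a1, a2, a3⟩ := mem_apx.1 ha
    exact ⟨a2, hc Y hY, Y, hY, a, a1, a2, fun x hx h => (mem_non.1 h).2 (a3 x hx), rfl⟩
  · rintro e ⟨Y, hY, a, a1, a2, a3, rfl⟩
    obtain ⟨⟨b1, b2⟩, b3⟩ := mem_non.1 hY
    refine okk_two hcl hτ hv hj (b1.trans hT) (hT a1) a2 (by omega) b3 fun x hx => ?_
    by_contra h
    refine a3 x hx (mem_non.2 ⟨⟨Finset.insert_subset a1 ((Finset.erase_subset _ _).trans b1), ?_⟩, h⟩)
    rw [Finset.card_insert_of_notMem fun h => a2 (Finset.mem_of_mem_erase h),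
      Finset.card_erase_add_one hx, b2]

theorem key_F (hG : Good d ν H) (hcl : Closed d H) (hτ : β ∪ κ = τ) (hv : Val d H β τ U)
    (hj : κ.card ≤ j) (hjd : j ≤ d) (hy : τ.card + 2 = d + 1) :
    KF (lk H τ) U ((d + 2) ^ 3 * ν j) := by
  intro T hT
  refine fin_key (cnt_pairs fun Y hY a ha => ?_) (hG 2 β κ (card_le_of_union hτ hy).1
    (card_le_of_union hτ hy).2 j hjd (T, ∅, ∅, fac (lk H τ) T 2) (fun Y hY => by
      have := (mem_fac.1 hY).1.2; omega) ?_) (by simp [Code.size])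
  · obtain ⟨a1, a2, a3⟩ := mem_apx.1 ha
    obtain ⟨⟨b1, b2⟩, b3⟩ := mem_non.1 hY
    refine ⟨a2, by omega, Y, b1, b2, fun h => b3 (mem_fac.1 h).2, a, a1, a2, fun x hx => mem_fac.2
      ⟨⟨Finset.insert_subset a1 ((Finset.erase_subset _ _).trans b1), ?_⟩, a3 x hx⟩, rfl⟩
    rw [Finset.card_insert_of_notMem fun h => a2 (Finset.mem_of_mem_erase h),
      Finset.card_erase_add_one hx, b2]
  · rintro e ⟨Y, b1, b2, b3, a, a1, a2, a3, rfl⟩
    exact okk_two hcl hτ hv hj (b1.trans hT) (hT a1) a2 (by omega)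
      (fun h => b3 (mem_fac.2 ⟨⟨b1, b2⟩, h⟩)) fun x hx => (mem_fac.1 (a3 x hx)).2

theorem key_S (hG : Good d ν H) (hv : Disjoint U τ) (hj : 1 ≤ j) (hjd : j ≤ d)
    (hy : τ.card + 2 = d + 1) : KS (lk H τ) U ((d + 2) ^ 3 * ν j) := by
  intro T hT
  refine fin_key (le_trans (Finset.card_le_card fun Y hY => ?_)
    (Nat.le_mul_of_pos_left _ (by positivity))) (hG 3 τ ∅ (by omega)
    (by simp) j hjd (T, ∅, ∅, fac (lk H τ) T 2) (fun Y hY => by
      have := (mem_fac.1 hY).1.2; omega) ?_) (by simp [Code.size])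
  · obtain ⟨⟨b1, b2⟩, b3⟩ := mem_non.1 hY
    exact mem_sel.2 ⟨b1, b2, fun h => b3 (mem_fac.1 h).2⟩
  · rintro e ⟨b1, b2, b3⟩
    have hd := hv.mono_left (b1.trans hT)
    exact okk_one hj hd (by rw [Finset.card_union_of_disjoint hd.symm]; omega)
      fun h => b3 (mem_fac.2 ⟨⟨b1, b2⟩, h⟩)

/-- Edge list. -/
def edges (B : Finset V) (A : V → Finset V) : Finset (V × V) :=
  B.biUnion fun x => (A x).image fun a => (x, a)

omit [Fintype V] in
theorem mem_edges {B : Finset V} {A : V → Finset V} {x a : V} :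
    (x, a) ∈ edges B A ↔ x ∈ B ∧ a ∈ A x := by
  simp only [edges, Finset.mem_biUnion, Finset.mem_image, Prod.mk.injEq]
  constructor
  · rintro ⟨x', h1, a', h2, rfl, rfl⟩
    exact ⟨h1, h2⟩
  · exact fun h => ⟨x, h.1, a, h.2, rfl, rfl⟩

omit [Fintype V] in
theorem card_edges (B : Finset V) (A : V → Finset V) : (edges B A).card ≤ ∑ x ∈ B, (A x).card :=
  Finset.card_biUnion_le.trans (Finset.sum_le_sum fun _ _ => Finset.card_image_le)

theorem key_B (hG : Good d ν H) (hv : Disjoint U τ) (hj : 1 ≤ j) (hjd : j ≤ d)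
    (hy : τ.card + 2 = d + 1) : KB (lk H τ) U ((d + 2) ^ 3 * ν j) := by
  intro B hB P hP hBP
  refine fin_key ?_ (hG 4 τ ∅ (by omega) (by simp) j hjd
    (B, P, edges B fun x => nb (lk H τ) P {x}, ∅) (by simp) ?_)
    (by simpa [Code.size] using card_edges _ _)
  · rw [← Finset.sum_image (s := B) (g := fun x => ({x} : Finset V))
      (f := fun R => (nn (lk H τ) P R).card) (Finset.singleton_injective.injOn)]
    refine cnt_pairs fun Y hY a ha => ?_
    obtain ⟨x, hx, rfl⟩ := Finset.mem_image.1 hY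
    obtain ⟨a1, a2, a3⟩ := mem_nn.1 ha
    exact ⟨a2, by simp, x, hx, a, a1, fun h => a3 (mem_nb.1 (mem_edges.1 h).2).2.2, rfl⟩
  · rintro e ⟨x, hx, a, ha, h, rfl⟩
    have hax : a ∉ ({x} : Finset V) := fun h' =>
      Finset.disjoint_left.1 hBP hx (Finset.mem_singleton.1 h' ▸ ha)
    have hd := hv.mono_left (Finset.insert_subset (hP ha) (Finset.singleton_subset_iff.2 (hB hx)))
    exact okk_one hj hd (by
      rw [Finset.card_union_of_disjoint hd.symm, Finset.card_insert_of_notMem hax]; simpa using hy)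
      fun h' => h (mem_edges.2 ⟨hx, mem_nb.2 ⟨ha, hax, h'⟩⟩)

theorem key_C (hG : Good d ν H) (hcl : Closed d H) (hτ : β ∪ κ = τ) (hv : Val d H β τ U)
    (hj : κ.card ≤ j) (hjd : j ≤ d) (hy : τ.card + 2 = d + 1) :
    KC (lk H τ) U ((d + 2) ^ 3 * ν j) := by
  intro B hB P hP hBP hc
  refine fin_key ?_ (hG 5 β κ (card_le_of_union hτ hy).1 (card_le_of_union hτ hy).2 j hjd
    (B, P, edges B fun x => nb (lk H τ) P {x}, ∅) (by simp) ?_)
    (by simpa [Code.size] using card_edges _ _)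
  · simp only [← Finset.card_product]
    rw [← Finset.card_sigma]
    refine Finset.card_le_mul_card_image_of_maps_to (f := fun q => insert q.2.2 (insert q.2.1 {q.1}))
      (fun q hq => ?_) _ fun e he => ?_
    · obtain ⟨h1, h2⟩ := Finset.mem_sigma.1 hq
      obtain ⟨h2, h3⟩ := Finset.mem_product.1 h2
      exact mem_sel.2 ⟨q.1, h1, q.2.1, (mem_nn.1 h2).1, q.2.2, (mem_nb.1 h3).1,
        fun h => (mem_nn.1 h2).2.2 (mem_nb.1 (mem_edges.1 h).2).2.2, mem_edges.2 ⟨h1, h3⟩, rfl⟩
    · obtain ⟨x, -, a, -, b, -, -, -, he⟩ := mem_sel.1 he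
      have h3 : e.card ≤ d + 2 := he ▸ Finset.card_le_three.trans (by omega)
      refine le_trans (Finset.card_le_card (t := e.sigma fun _ => e ×ˢ e) fun q hq => ?_) ?_
      · obtain ⟨-, rfl⟩ := Finset.mem_filter.1 hq
        simp
      · rw [Finset.card_sigma, Finset.sum_const, Finset.card_product, smul_eq_mul]
        calc _ = e.card ^ 3 := by ring
          _ ≤ _ := Nat.pow_le_pow_left h3 3
  · rintro e ⟨x, hx, a, ha, b, hb, h1, h2, rfl⟩
    have hxP : x ∉ P := Finset.disjoint_left.1 hBP hx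
    have hax : a ≠ x := fun h' => hxP (h' ▸ ha)
    have hba : b ≠ a := fun h' => h1 (h' ▸ h2)
    have h3 := mem_nb.1 (mem_edges.1 h2).2
    refine okk_two hcl hτ hv hj (Finset.insert_subset (hP ha) (Finset.singleton_subset_iff.2 (hB hx)))
      (hP hb) (by simpa [hba] using h3.2.1) (by rw [Finset.card_pair hax]; exact hy)
      (fun h' => h1 (mem_edges.2 ⟨hx, mem_nb.2 ⟨ha, by simpa using hax, h'⟩⟩)) fun w hw => ?_
    rcases Finset.mem_insert.1 hw with rfl | hw
    · rw [Finset.erase_insert (by simpa using hax)]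
      exact h3.2.2
    · rw [Finset.mem_singleton.1 hw, Finset.pair_comm, Finset.erase_insert (by simpa using hax.symm)]
      exact hc _ (Finset.insert_subset hb (Finset.singleton_subset_iff.2 ha)) (Finset.card_pair hba)

theorem key_D (hG : Good d ν H) (hcl : Closed d H) (hτ : β ∪ κ = τ) (hv : Val d H β τ U)
    (hj : κ.card ≤ j) (hjd : j ≤ d) (hy : τ.card + y = d + 1) :
    KD (lk H τ) U y ((d + 2) ^ 3 * ν j) := by
  intro W hW Z D hD hL
  have hc : ∀ Y ∈ D, Y.card ≤ d + 1 := fun Y hY => by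
    have := (mem_non.1 (hD hY)).1.2; omega
  refine fin_key (cnt_pairs fun Y hY a ha => ?_) (hG 6 β κ (card_le_of_union hτ hy).1
    (card_le_of_union hτ hy).2 j hjd (W, ∅, edges W Z, D) hc ?_)
    (by simpa [Code.size] using card_edges _ _)
  · obtain ⟨a1, a2, a3⟩ := Finset.mem_filter.1 ha
    exact ⟨a2, hc Y hY, Y, hY, a, a1, a2,
      fun x hx h => Finset.disjoint_left.1 a3 hx (mem_edges.1 h).2, rfl⟩
  · rintro e ⟨Y, hY, a, a1, a2, a3, rfl⟩
    obtain ⟨⟨b1, b2⟩, b3⟩ := mem_non.1 (hD hY)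
    refine okk_two hcl hτ hv hj b1 (hW a1) a2 (by omega) b3 fun x hx => ?_
    have ha : a ∉ Y.erase x := fun h => a2 (Finset.mem_of_mem_erase h)
    refine hL a a1 _ (Finset.insert_subset (hW a1) ((Finset.erase_subset _ _).trans b1)) ?_
      (Finset.mem_insert_self _ _) ?_
    · rw [Finset.card_insert_of_notMem ha, Finset.card_erase_add_one hx, b2]
    · rw [Finset.erase_insert ha]
      exact Finset.disjoint_left.2 fun w hw h =>
        a3 w (Finset.mem_of_mem_erase hw) (mem_edges.2 ⟨a1, h⟩)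

theorem key_E (hG : Good d ν H) (hd : 1 ≤ d) {D : Finset (Finset V)} (hD : ∀ Y ∈ D, Y.card = d)
    (h : ∀ Y ∈ D, ∀ a, a ∉ Y → (∀ x ∈ Y, insert a (Y.erase x) ∉ D) → ¬ H (insert a Y)) :
    ∑ Y ∈ D, (apx (fun R => R ∉ D) univ Y).card ≤ (d + 2) ^ 3 * ν 1 * (D.card + 1) := by
  have hc : ∀ Y ∈ D, Y.card ≤ d + 1 := fun Y hY => by have := hD Y hY; omega
  refine fin_key (cnt_pairs fun Y hY a ha => ?_) (hG 1 ∅ ∅ (by simp) (by simp) 1 hd
    (∅, ∅, ∅, D) hc ?_) (by simp [Code.size])
  · obtain ⟨-, a2, a3⟩ := mem_apx.1 ha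
    exact ⟨a2, hc Y hY, Y, hY, a, a2, a3, rfl⟩
  · rintro e ⟨Y, hY, a, a2, a3, rfl⟩
    exact okk_one le_rfl (by simp) (by
      rw [Finset.empty_union, Finset.card_insert_of_notMem a2, hD Y hY])
      (by simpa using h Y hY a a2 a3)

end Pool.Agent.MP_8f9e6e_pr

end

-- part MP_8f9e6e_pr.Prob
section

/-! Binomial random subsets of a finite type and uniformly random orderings. -/

open Finset

namespace Pool.Agent.MP_8f9e6e_pr

variable {α : Type} [Fintype α] [DecidableEq α]

/-- Weight of a subset. -/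
noncomputable def wt (p : ℝ) (S : Finset α) : ℝ :=
  p ^ S.card * (1 - p) ^ (Fintype.card α - S.card)

open Classical in
/-- Probability of an event for the binomial random subset. -/
noncomputable def Pr (p : ℝ) (E : Finset α → Prop) : ℝ := ∑ S, if E S then wt p S else 0

variable {p : ℝ}

omit [DecidableEq α] in
theorem wt_nonneg (h0 : 0 ≤ p) (h1 : p ≤ 1) (S : Finset α) : 0 ≤ wt p S :=
  mul_nonneg (pow_nonneg h0 _) (pow_nonneg (sub_nonneg.2 h1) _)

omit [DecidableEq α] in
theorem sum_wt_pow (p x : ℝ) :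
    ∑ S : Finset α, wt p S * x ^ S.card = (1 - p + p * x) ^ Fintype.card α := by
  rw [add_comm, ← Fintype.sum_pow_mul_eq_add_pow α]
  refine Finset.sum_congr rfl fun S _ => ?_
  rw [wt, mul_pow]; ring

omit [DecidableEq α] in
theorem sum_wt (p : ℝ) : ∑ S : Finset α, wt p S = 1 := by
  simpa using sum_wt_pow (α := α) p 1

omit [DecidableEq α] in
theorem Pr_le_of (h0 : 0 ≤ p) (h1 : p ≤ 1) {E : Finset α → Prop} {g : Finset α → ℝ}
    (hg : ∀ S, 0 ≤ g S) (hE : ∀ S, E S → 1 ≤ g S) : Pr p E ≤ ∑ S, wt p S * g S := by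
  refine Finset.sum_le_sum fun S _ => ?_
  split_ifs with h
  · exact le_mul_of_one_le_right (wt_nonneg h0 h1 S) (hE S h)
  · exact mul_nonneg (wt_nonneg h0 h1 S) (hg S)

omit [DecidableEq α] in
theorem Pr_nonneg (h0 : 0 ≤ p) (h1 : p ≤ 1) (E : Finset α → Prop) : 0 ≤ Pr p E :=
  Finset.sum_nonneg fun S _ => by
    split_ifs
    · exact wt_nonneg h0 h1 S
    · exact le_rfl

omit [DecidableEq α] in
theorem Pr_union (h0 : 0 ≤ p) (h1 : p ≤ 1) {ι : Type} (I : Finset ι) {E : Finset α → Prop}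
    (F : ι → Finset α → Prop) (h : ∀ S, E S → ∃ i ∈ I, F i S) : Pr p E ≤ ∑ i ∈ I, Pr p (F i) := by
  classical
  unfold Pr
  rw [Finset.sum_comm]
  refine Finset.sum_le_sum fun S _ => ?_
  have hn : ∀ i ∈ I, 0 ≤ if F i S then wt p S else 0 := fun i _ => by
    split_ifs
    · exact wt_nonneg h0 h1 S
    · exact le_rfl
  split_ifs with hS
  · obtain ⟨i, hi, hF⟩ := h S hS
    refine le_trans ?_ (Finset.single_le_sum hn hi)
    simp [hF]
  · exact Finset.sum_nonneg hn

omit [DecidableEq α] in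
theorem Pr_mono (h0 : 0 ≤ p) (h1 : p ≤ 1) {E F : Finset α → Prop} (h : ∀ S, E S → F S) :
    Pr p E ≤ Pr p F := by
  simpa using Pr_union h0 h1 ({()} : Finset Unit) (fun _ => F) fun S hS => ⟨(), by simp, h S hS⟩

omit [DecidableEq α] in
theorem Pr_false {E : Finset α → Prop} (h : ∀ S, ¬ E S) : Pr p E = 0 :=
  Finset.sum_eq_zero fun S _ => if_neg (h S)

theorem sum_wt_subset (p : ℝ) (W : Finset α) :
    ∑ S : Finset α, wt p S * (if W ⊆ S then 1 else 0) = p ^ W.card := by
  have h := Fintype.prod_add (fun _ : α => p) (fun a => if a ∈ W then 0 else 1 - p)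
  have h2 : ∏ a : α, (p + if a ∈ W then 0 else 1 - p) = p ^ W.card := by
    rw [← Finset.prod_const, ← Finset.prod_subset (Finset.subset_univ W)]
    · exact Finset.prod_congr rfl fun a ha => by simp [ha]
    · intro a _ ha
      simp [ha]
  rw [← h2, h]
  refine Finset.sum_congr rfl fun S _ => ?_
  split_ifs with hS
  · rw [mul_one, wt, Finset.prod_const, ← Finset.card_compl, ← Finset.prod_const (s := Sᶜ)]
    congr 1
    exact Finset.prod_congr rfl fun a ha => by
      rw [if_neg fun h => (Finset.mem_compl.1 ha) (hS h)]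
  · obtain ⟨a, ha, haS⟩ := Finset.not_subset.1 hS
    rw [mul_zero, Finset.prod_eq_zero (Finset.mem_compl.2 haS) (by simp [ha]), mul_zero]

theorem Pr_subset (h0 : 0 ≤ p) (h1 : p ≤ 1) (W : Finset α) :
    Pr p (fun S => W ⊆ S) ≤ p ^ W.card := by
  rw [← sum_wt_subset]
  exact Pr_le_of h0 h1 (fun S => by split_ifs <;> norm_num) fun S hS => by simp [hS]

theorem Pr_blocks (h0 : 0 ≤ p) (h1 : p ≤ 1) {ι : Type} [DecidableEq ι] (I : Finset ι)
    (B : ι → Finset α) (hd : (I : Set ι).PairwiseDisjoint B) {j : ℕ}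
    (hj : ∀ i ∈ I, (B i).card ≤ j) :
    Pr p (fun S => ∀ i ∈ I, ¬ B i ⊆ S) ≤ Real.exp (-(p ^ j * I.card)) := by
  have e1 : Pr p (fun S => ∀ i ∈ I, ¬ B i ⊆ S) ≤
      ∑ S, wt p S * ∏ i ∈ I, (1 + -(if B i ⊆ S then (1 : ℝ) else 0)) :=
    Pr_le_of h0 h1 (fun S => Finset.prod_nonneg fun i _ => by split_ifs <;> norm_num)
      fun S hS => by
        rw [Finset.prod_congr rfl fun i hi => by rw [if_neg (hS i hi), neg_zero, add_zero]]
        simp
  have e2 : ∀ J ∈ I.powerset, ∑ S, wt p S * ∏ i ∈ J, -(if B i ⊆ S then (1 : ℝ) else 0) =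
      ∏ i ∈ J, -(p ^ (B i).card) := by
    intro J hJ
    have hJI := Finset.mem_powerset.1 hJ
    rw [Finset.prod_neg, Finset.prod_pow_eq_pow_sum,
      ← Finset.card_biUnion (hd.subset (Finset.coe_subset.2 hJI)), ← sum_wt_subset p (J.biUnion B),
      Finset.mul_sum]
    refine Finset.sum_congr rfl fun S _ => ?_
    rw [Finset.prod_neg, Finset.prod_boole]
    simp only [Finset.biUnion_subset]
    ring_nf
  have e3 : ∑ S, wt p S * ∏ i ∈ I, (1 + -(if B i ⊆ S then (1 : ℝ) else 0)) =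
      ∏ i ∈ I, (1 + -(p ^ (B i).card)) := by
    simp only [Finset.prod_one_add, Finset.mul_sum]
    rw [Finset.sum_comm]
    exact Finset.sum_congr rfl e2
  refine e1.trans (e3.le.trans ?_)
  calc ∏ i ∈ I, (1 + -(p ^ (B i).card)) ≤ ∏ _i ∈ I, Real.exp (-(p ^ j)) := by
        refine Finset.prod_le_prod (fun i _ => by linarith [pow_le_one₀ h0 h1 (n := (B i).card)])
          fun i hi => ?_
        have := pow_le_pow_of_le_one h0 h1 (hj i hi)
        linarith [Real.add_one_le_exp (-(p ^ j))]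
    _ = _ := by rw [Finset.prod_const, ← Real.exp_nat_mul]; congr 1; ring

omit [DecidableEq α] in
theorem Pr_card_gt (h0 : 0 ≤ p) (h1 : p ≤ 1) (t : ℕ) :
    Pr p (fun S : Finset α => t < S.card) ≤ Real.exp (p * Fintype.card α) / 2 ^ t := by
  refine (Pr_le_of h0 h1 (g := fun S => 2 ^ S.card / 2 ^ t) (fun S => by positivity)
    fun S hS => ?_).trans ?_
  · rw [le_div_iff₀ (by positivity), one_mul]
    exact pow_le_pow_right₀ one_le_two hS.le
  · simp only [← mul_div_assoc]
    rw [← Finset.sum_div, sum_wt_pow]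
    refine div_le_div_of_nonneg_right ?_ (by positivity)
    rw [mul_comm p (Fintype.card α : ℝ), Real.exp_nat_mul]
    exact pow_le_pow_left₀ (by linarith) (by linarith [Real.add_one_le_exp p]) _

omit [DecidableEq α] in
theorem Pr_card_lt (h0 : 0 ≤ p) (h1 : p ≤ 1) (t : ℕ) :
    Pr p (fun S : Finset α => S.card < t) ≤ Real.exp (-(p * Fintype.card α / 2)) * 2 ^ t := by
  refine (Pr_le_of h0 h1 (g := fun S => (1 / 2) ^ S.card * 2 ^ t) (fun S => by positivity)
    fun S hS => ?_).trans ?_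
  · rw [one_div, inv_pow, ← div_eq_inv_mul, le_div_iff₀ (by positivity), one_mul]
    exact pow_le_pow_right₀ one_le_two hS.le
  · simp only [← mul_assoc]
    rw [← Finset.sum_mul, sum_wt_pow]
    refine mul_le_mul_of_nonneg_right ?_ (by positivity)
    have : -(p * Fintype.card α / 2) = (Fintype.card α : ℕ) * (-(p / 2)) := by ring
    rw [this, Real.exp_nat_mul]
    exact pow_le_pow_left₀ (by linarith) (by linarith [Real.add_one_le_exp (-(p / 2))]) _

/-! Orderings. -/

variable {N : ℕ}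

/-- The first `t` elements. -/
def ini (π : Fin N ≃ α) (t : ℕ) : Finset α :=
  (univ.filter fun i : Fin N => (i : ℕ) < t).map π.toEmbedding

omit [Fintype α] [DecidableEq α] in
theorem mem_ini {π : Fin N ≃ α} {t : ℕ} {a : α} : a ∈ ini π t ↔ (π.symm a : ℕ) < t := by
  simp [ini, Finset.mem_map_equiv]

omit [Fintype α] [DecidableEq α] in
theorem ini_mono (π : Fin N ≃ α) {s t : ℕ} (h : s ≤ t) : ini π s ⊆ ini π t :=
  fun _ ha => mem_ini.2 ((mem_ini.1 ha).trans_le h)

omit [Fintype α] [DecidableEq α] in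
theorem card_ini (π : Fin N ≃ α) {t : ℕ} (h : t ≤ N) : (ini π t).card = t := by
  rw [ini, Finset.card_map, Fin.card_filter_val_lt, min_eq_right h]

open Classical in
/-- Number of orderings in an event. -/
noncomputable def cnt (E : (Fin N ≃ α) → Prop) : ℕ := (univ.filter E).card

theorem cnt_mono {E F : (Fin N ≃ α) → Prop} (h : ∀ π, E π → F π) : cnt E ≤ cnt F := by
  classical
  unfold cnt
  exact Finset.card_le_card fun π hπ => by
    simp only [Finset.mem_filter, Finset.mem_univ, true_and] at hπ ⊢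
    exact h π hπ

theorem cnt_union {ι : Type} (I : Finset ι) {E : (Fin N ≃ α) → Prop}
    (F : ι → (Fin N ≃ α) → Prop) (h : ∀ π, E π → ∃ i ∈ I, F i π) :
    cnt E ≤ ∑ i ∈ I, cnt (F i) := by
  classical
  unfold cnt
  refine le_trans (Finset.card_le_card fun π hπ => ?_) Finset.card_biUnion_le
  simp only [Finset.mem_filter, Finset.mem_univ, true_and, Finset.mem_biUnion] at hπ ⊢
  exact h π hπ

theorem cnt_ini_le {A A' : Finset α} (h : A.card = A'.card) (t : ℕ) :
    cnt (fun π : Fin N ≃ α => ini π t = A) ≤ cnt (fun π : Fin N ≃ α => ini π t = A') := by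
  classical
  obtain ⟨σ, hσ⟩ := Equiv.Perm.exists_map_finset_eq A A' h
  unfold cnt
  refine Finset.card_le_card_of_injOn (fun π => π.trans σ) (fun π hπ => ?_) fun π _ π' _ hh => ?_
  · simp only [Finset.coe_filter, Finset.mem_univ, true_and, Set.mem_ofPred_eq] at hπ ⊢
    rw [← hσ, ← hπ, ini, ini, Finset.map_map]
    rfl
  · ext i
    exact σ.injective (congrArg (fun e : Fin N ≃ α => e i) hh)

theorem cnt_ini (hN : Fintype.card α = N) (A : Finset α) :
    cnt (fun π : Fin N ≃ α => ini π A.card = A) * N.choose A.card = cnt fun _ : Fin N ≃ α => True := by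
  classical
  have hA : A.card ≤ N := hN ▸ A.card_le_univ
  have h := Finset.card_eq_sum_card_fiberwise (s := (univ : Finset (Fin N ≃ α)))
    (t := powersetCard A.card univ) (f := fun π => ini π A.card)
    fun π _ => by simp [card_ini π hA]
  have h2 : ∀ A' ∈ powersetCard A.card (univ : Finset α),
      (univ.filter fun π : Fin N ≃ α => ini π A.card = A').card =
        cnt (fun π : Fin N ≃ α => ini π A.card = A) := by
    intro A' hA'
    have hc := (Finset.mem_powersetCard.1 hA').2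
    have := le_antisymm (cnt_ini_le (N := N) hc A.card) (cnt_ini_le (N := N) hc.symm A.card)
    rw [← this]
    unfold cnt
    congr
  rw [Finset.sum_congr rfl h2, Finset.sum_const, Finset.card_powersetCard,
    Finset.card_univ (α := α), hN, smul_eq_mul] at h
  unfold cnt at h ⊢
  rw [mul_comm, ← h]
  simp

/-- Averaging over a binomial time. -/
theorem sum_time (hN : Fintype.card α = N) (p : ℝ) (E : Finset α → Prop) :
    ∑ S : Finset α, wt p S * (cnt (fun π : Fin N ≃ α => E (ini π S.card)) : ℝ) =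
      Pr p E * cnt fun _ : Fin N ≃ α => True := by
  classical
  have h1 : ∀ b, b ≤ N → (cnt (fun π : Fin N ≃ α => E (ini π b)) : ℝ) =
      ∑ A : Finset α, if A.card = b ∧ E A then (cnt (fun π : Fin N ≃ α => ini π A.card = A) : ℝ)
        else 0 := by
    intro b hb
    rw [← Finset.sum_filter, ← Nat.cast_sum]
    congr 1
    unfold cnt
    rw [Finset.card_eq_sum_card_fiberwise (t := univ.filter fun A : Finset α => A.card = b ∧ E A)
      (f := fun π => ini π b) fun π hπ => by
        simp only [Finset.coe_filter, Finset.mem_univ, true_and, Set.mem_ofPred_eq] at hπ ⊢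
        exact ⟨card_ini π hb, hπ⟩]
    refine Finset.sum_congr rfl fun A hA => ?_
    simp only [Finset.mem_filter, Finset.mem_univ, true_and] at hA
    congr 1
    ext π
    simp only [Finset.mem_filter, Finset.mem_univ, true_and, hA.1]
    exact ⟨fun h => h.2, fun h => ⟨h ▸ hA.2, h⟩⟩
  rw [Finset.sum_congr rfl fun S _ => by rw [h1 S.card (hN ▸ S.card_le_univ), Finset.mul_sum],
    Finset.sum_comm, Pr, Finset.sum_mul]
  refine Finset.sum_congr rfl fun A _ => ?_
  by_cases hE : E A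
  · rw [if_pos hE, ← cnt_ini hN A]
    have h2 : ∀ S : Finset α, wt p S * (if A.card = S.card ∧ E A then
        (cnt (fun π : Fin N ≃ α => ini π A.card = A) : ℝ) else 0) =
        if S.card = A.card then wt p A * (cnt (fun π : Fin N ≃ α => ini π A.card = A) : ℝ)
          else 0 := by
      intro S
      by_cases h : S.card = A.card
      · rw [if_pos ⟨h.symm, hE⟩, if_pos h, wt, wt, h]
      · rw [if_neg fun h' => h h'.1.symm, if_neg h, mul_zero]
    rw [Finset.sum_congr rfl fun S _ => h2 S, ← Finset.sum_filter, Finset.sum_const,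
      ← Finset.powerset_univ, ← Finset.powersetCard_eq_filter,
      Finset.card_powersetCard, Finset.card_univ, hN]
    push_cast
    rw [nsmul_eq_mul]
    ring
  · simp [hE]

theorem transfer (hN : Fintype.card α = N) (h0 : 0 ≤ p) (h1 : p ≤ 1) (E : Finset α → Prop)
    (t : ℕ) (G : ℕ → Prop) (hG : ∀ b, ¬ G b → ∀ π : Fin N ≃ α, E (ini π t) → E (ini π b)) :
    (cnt (fun π : Fin N ≃ α => E (ini π t)) : ℝ) ≤
      (Pr p E + Pr p (fun S : Finset α => G S.card)) * cnt fun _ : Fin N ≃ α => True := by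
  classical
  rw [add_mul, ← sum_time hN, Pr, Finset.sum_mul, ← Finset.sum_add_distrib,
    ← one_mul (cnt (fun π : Fin N ≃ α => E (ini π t)) : ℝ), ← sum_wt (α := α) p, Finset.sum_mul]
  refine Finset.sum_le_sum fun S _ => ?_
  have hw := wt_nonneg h0 h1 S
  by_cases hS : G S.card
  · rw [if_pos hS]
    have : (cnt (fun π : Fin N ≃ α => E (ini π t)) : ℝ) ≤ cnt fun _ : Fin N ≃ α => True :=
      Nat.cast_le.2 (cnt_mono fun _ _ => trivial)
    have h2 := mul_le_mul_of_nonneg_left this hw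
    have h3 : 0 ≤ wt p S * (cnt (fun π : Fin N ≃ α => E (ini π S.card)) : ℝ) := by positivity
    linarith
  · rw [if_neg hS, zero_mul, add_zero]
    exact mul_le_mul_of_nonneg_left (Nat.cast_le.2 (cnt_mono (hG _ hS))) hw

end Pool.Agent.MP_8f9e6e_pr

end

-- part MP_8f9e6e_pr.KeyProb
section

/-! The pseudo-randomness property holds with high probability. -/

open Finset

namespace Pool.Agent.MP_8f9e6e_pr

variable {V : Type} [Fintype V] [DecidableEq V] {d : ℕ} {p s : ℝ}

/-- Membership in a family of faces. -/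
def inS (S : Finset {f : Finset V // f.card = d + 1}) (f : Finset V) : Prop :=
  ∃ h : f.card = d + 1, ⟨f, h⟩ ∈ S

/-- The thresholds. -/
noncomputable def nu (p s : ℝ) (j : ℕ) : ℕ := ⌈s / p ^ j⌉₊

theorem pr_code (h0 : 0 < p) (h1 : p ≤ 1) (β κ : Finset V) (j m : ℕ) (σ : Finset V → Prop) :
    Pr p (fun S : Finset {f : Finset V // f.card = d + 1} =>
      (∀ e, σ e → Okk d (inS S) β κ j e) ∧ nu p s j * m < (sel σ).card) ≤ Real.exp (-s) ^ m := by
  by_cases hex : ∃ S : Finset {f : Finset V // f.card = d + 1},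
      (∀ e, σ e → Okk d (inS S) β κ j e) ∧ nu p s j * m < (sel σ).card
  · obtain ⟨S₀, hS, hlt⟩ := hex
    refine (Pr_mono h0.le h1 fun S hS e he hsub => ?_).trans ((Pr_blocks h0.le h1 (sel σ)
      (fun e => (blk d β κ e).subtype fun f => f.card = d + 1) (j := j) (fun e he e' he' hne => ?_)
      fun e he => ?_).trans ?_)
    · obtain ⟨-, -, f, hf, hf'⟩ := hS.1 e (mem_sel.1 he)
      exact hf' ⟨(mem_blk.1 hf).1.2, hsub (Finset.mem_subtype.2 hf)⟩
    · refine Finset.disjoint_left.2 fun f hf hf' => hne ?_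
      have key : ∀ e, σ e → f.1 ∈ blk d β κ e → e = f.1 \ (β ∪ κ) := fun e he h => by
        obtain ⟨⟨a1, -⟩, a2⟩ := mem_blk.1 h
        refine Finset.Subset.antisymm (Finset.subset_sdiff.2
          ⟨Finset.subset_union_right.trans a2, (hS e he).1⟩) fun x hx => ?_
        exact (Finset.mem_union.1 (a1 (Finset.mem_sdiff.1 hx).1)).resolve_left
          (Finset.mem_sdiff.1 hx).2
      rw [key e (mem_sel.1 he) (Finset.mem_subtype.1 hf),
        key e' (mem_sel.1 he') (Finset.mem_subtype.1 hf')]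
    · rw [Finset.card_subtype]
      exact (Finset.card_filter_le _ _).trans (hS e (mem_sel.1 he)).2.1
    · rw [← Real.exp_nat_mul]
      refine Real.exp_le_exp.2 ?_
      have a1 : s / p ^ j ≤ nu p s j := Nat.le_ceil _
      have a2 : (nu p s j : ℝ) * m ≤ (sel σ).card := by exact_mod_cast hlt.le
      have a3 : 0 < p ^ j := by positivity
      rw [div_le_iff₀ a3] at a1
      have a4 := mul_le_mul_of_nonneg_left a2 a3.le
      have a5 := mul_le_mul_of_nonneg_left a1 (Nat.cast_nonneg (α := ℝ) m)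
      nlinarith
  · rw [Pr_false fun S h => hex ⟨S, h⟩]
    positivity

/-- Small sets. -/
def small (V : Type) [Fintype V] (d : ℕ) : Finset (Finset V) := univ.filter fun Y => Y.card ≤ d + 1

theorem card_small (hV : 1 ≤ Fintype.card V) :
    (small V d).card ≤ (d + 2) * Fintype.card V ^ (d + 1) := by
  refine le_trans (Finset.card_le_card (t := (Finset.range (d + 2)).biUnion
    fun k => Finset.univ.powersetCard k) fun Y hY => ?_) ?_
  · simpa [small, Nat.lt_succ_iff] using hY
  · refine (Finset.card_biUnion_le_card_mul _ _ (Fintype.card V ^ (d + 1)) fun k hk => ?_).trans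
      (by simp)
    rw [Finset.card_powersetCard, Finset.card_univ]
    exact (Nat.choose_le_pow _ _).trans
      (Nat.pow_le_pow_right hV (Nat.lt_succ_iff.1 (Finset.mem_range.1 hk)))

omit [Fintype V] [DecidableEq V] in
theorem sum_powerset_pow (A : Finset V) (x : ℝ) : ∑ T ∈ A.powerset, x ^ T.card = (x + 1) ^ A.card := by
  simpa using Finset.sum_pow_mul_eq_add_pow x 1 A

theorem pr_bad (h0 : 0 < p) (h1 : p ≤ 1) (hd : 1 ≤ d) (hV : 1 ≤ Fintype.card V) {M : ℝ}
    (hM : M = (d + 2) * (Fintype.card V : ℝ) ^ (d + 1)) :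
    Pr p (fun S : Finset {f : Finset V // f.card = d + 1} =>
      ¬ Good d (nu p (4 * Real.log M)) (inS S)) ≤ 7 * (d + 1) * Real.exp 4 / M ^ 2 := by
  set x := Real.exp (-(4 * Real.log M)) with hx
  have hn : (1 : ℝ) ≤ Fintype.card V := by exact_mod_cast hV
  have hn2 : (Fintype.card V : ℝ) ^ 2 ≤ M := by
    rw [hM]
    exact (pow_le_pow_right₀ hn (by omega)).trans
      (le_mul_of_one_le_left (by positivity) (by linarith [Nat.cast_nonneg (α := ℝ) d]))
  have hM1 : 1 ≤ M := (one_le_pow₀ hn).trans hn2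
  have hxM : x = 1 / M ^ 4 := by
    rw [hx, Real.exp_neg, show (4 : ℝ) = (4 : ℕ) by norm_num, Real.exp_nat_mul,
      Real.exp_log (by linarith), one_div]
  have hx0 : 0 < x := Real.exp_pos _
  have hsm : ((small V d).card : ℝ) ≤ M := by rw [hM]; exact_mod_cast card_small hV
  set C : Finset (Code V) := univ.powerset ×ˢ univ.powerset ×ˢ univ.powerset ×ˢ (small V d).powerset
  have hC : ∑ c ∈ C, x ^ (c.size + 1) ≤ x * Real.exp 4 := by
    have e1 : ∑ c ∈ C, x ^ (c.size + 1) = x * (x + 1) ^ (Fintype.card V + Fintype.card V +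
        Fintype.card V ^ 2 + (small V d).card) := by
      simp only [C, Code.size, Finset.sum_product, pow_add, pow_one, ← Finset.sum_mul,
        ← Finset.mul_sum, sum_powerset_pow, Finset.card_univ, Fintype.card_prod, ← sq]
      ring
    rw [e1]
    refine mul_le_mul_of_nonneg_left ((pow_le_pow_left₀ (by positivity)
      (Real.add_one_le_exp x) _).trans ?_) hx0.le
    rw [← Real.exp_nat_mul]
    refine Real.exp_le_exp.2 ?_
    have a1 : M * x ≤ 1 := by
      rw [hxM, mul_one_div, div_le_one (by positivity)]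
      exact le_self_pow₀ hM1 (by norm_num)
    have a2 : (Fintype.card V : ℝ) ≤ M := (le_self_pow₀ hn (by norm_num)).trans hn2
    push_cast
    nlinarith
  refine (Pr_union h0.le h1 (((univ : Finset (Fin 7)) ×ˢ small V d ×ˢ small V d ×ˢ
    Finset.range (d + 1)) ×ˢ C) (fun q S => (∀ e, sch q.1.1 q.2 e →
      Okk d (inS S) q.1.2.1 q.1.2.2.1 q.1.2.2.2 e) ∧
      nu p (4 * Real.log M) q.1.2.2.2 * (q.2.size + 1) < (sel (sch q.1.1 q.2)).card)
    fun S hS => ?_).trans ((Finset.sum_le_sum fun q _ => pr_code h0 h1 _ _ _ _ _).trans ?_)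
  · unfold Good at hS
    push Not at hS
    obtain ⟨i, β, κ, a1, a2, j, a3, c, a4, a5, a6⟩ := hS
    refine ⟨((i, β, κ, j), c), ?_, a5, a6⟩
    simp only [C, small, Finset.mem_product, Finset.mem_univ, Finset.mem_filter, true_and,
      Finset.mem_range, Finset.mem_powerset, Finset.subset_univ]
    exact ⟨⟨a1, a2, by omega⟩, fun Y hY => Finset.mem_filter.2 ⟨Finset.mem_univ _, a4 Y hY⟩⟩
  · rw [Finset.sum_product]
    refine (Finset.sum_le_card_nsmul _ _ _ fun _ _ => hC).trans ?_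
    simp only [Finset.card_product, Finset.card_univ, Fintype.card_fin, Finset.card_range,
      nsmul_eq_mul]
    push_cast
    have a1 : ((small V d).card : ℝ) * (small V d).card ≤ M * M :=
      mul_self_le_mul_self (Nat.cast_nonneg _) hsm
    calc _ = 7 * (d + 1) * Real.exp 4 * x * (((small V d).card : ℝ) * (small V d).card) := by ring
      _ ≤ 7 * (d + 1) * Real.exp 4 * x * (M * M) := by gcongr
      _ = _ := by rw [hxM]; field_simp

end Pool.Agent.MP_8f9e6e_pr

end

-- part MP_8f9e6e_pr.SubProb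
section

/-! A fixed simplex has no stacked contraction when the density is small. -/

open Finset

namespace Pool.Agent.MP_8f9e6e_pr

variable {n d : ℕ} {p : ℝ}

theorem pr_many (h0 : 0 ≤ p) (h1 : p ≤ 1) (F : Finset (Finset (Fin n))) (k : ℕ) :
    Pr p (fun S : Finset (Face n d) => k ≤ (S.filter fun f => f.1 ∈ F).card) ≤
      (F.card : ℝ) ^ k / k.factorial * p ^ k := by
  set FA := (univ : Finset (Face n d)).filter fun f => f.1 ∈ F
  have e1 : FA.card ≤ F.card := Finset.card_le_card_of_injOn Subtype.val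
    (fun f hf => (Finset.mem_filter.1 hf).2) Subtype.val_injective.injOn
  refine (Pr_union h0 h1 (FA.powersetCard k) (fun W S => W ⊆ S) fun S hS => ?_).trans
    ((Finset.sum_le_card_nsmul _ _ (p ^ k) fun W hW => ?_).trans ?_)
  · obtain ⟨W, h2, h3⟩ := Finset.exists_subset_card_eq hS
    exact ⟨W, Finset.mem_powersetCard.2 ⟨h2.trans (Finset.filter_subset_filter _
      (Finset.subset_univ _)), h3⟩, h2.trans (Finset.filter_subset _ _)⟩
  · rw [← (Finset.mem_powersetCard.1 hW).2]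
    exact Pr_subset h0 h1 W
  · rw [Finset.card_powersetCard, nsmul_eq_mul]
    refine mul_le_mul_of_nonneg_right ((Nat.choose_le_pow_div _ _).trans ?_) (by positivity)
    gcongr

theorem pr_set (h0 : 0 ≤ p) (h1 : p ≤ 1) (hd : 2 ≤ d) {L m : ℕ}
    (hw : 2 ^ ((d + 1) * L + 1) * ((d + 1) * ((L : ℝ) ^ (d + 1) + 2)) * p * L ^ (d + 1) ≤ 1)
    {g A : Finset (Fin n)} (hL : A.card ≤ L) (hg : g.card = d + 1) (hA : A.card = d + 1 + m) :
    Pr p (fun S : Finset (Face n d) => Spn d {f | inS S f} g A) ≤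
      (A.card : ℝ) ^ m * Real.exp A.card * (2 * (d + 1)) ^ ((d + 1) * m + 1) * p ^ (d * m + 1) *
        Real.exp 1 := by
  set w : ℝ := 2 ^ ((d + 1) * L + 1) * ((d + 1) * ((L : ℝ) ^ (d + 1) + 2)) * p with hwd
  have w0 : 0 ≤ w := by positivity
  have hF : (A.powersetCard (d + 1)).card ≤ L ^ (d + 1) := by
    rw [Finset.card_powersetCard]
    exact (Nat.choose_le_pow _ _).trans (Nat.pow_le_pow_left hL _)
  by_cases hgA : g ⊆ A
  swap
  · rw [Pr_false fun S h => hgA h.2.2.subset]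
    positivity
  have hm : (A \ g).card = m := by rw [Finset.card_sdiff_of_subset hgA]; omega
  refine (Pr_union h0 h1 ((A.powersetCard (d + 1)).powerset.sigma fun X => pars d g A X)
    (fun i S => d * m + 1 + i.1.card ≤ (S.filter fun f =>
      f.1 ∈ (slots d A (insert g i.1)).image (ev (dec i.2 n))).card) fun S hS => ?_).trans
    ((Finset.sum_le_sum fun i _ => pr_many h0 h1
      ((slots d A (insert g i.1)).image (ev (dec i.2 n))) (d * m + 1 + i.1.card)).trans ?_)
  · obtain ⟨X, hX, φ, hφ, a1, a2⟩ := hS.code hd ((S.filter fun f => f.1 ⊆ A).image Subtype.val)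
      (fun f => by
        simp only [Finset.mem_image, Finset.mem_filter, Set.mem_ofPred_eq, inS]
        exact ⟨fun ⟨f', b1, b2⟩ => b2 ▸ ⟨⟨f'.2, b1.1⟩, b1.2⟩,
          fun b => ⟨⟨f, b.1.1⟩, ⟨b.1.2, b.2⟩, rfl⟩⟩) fun f hf => hf.1
    refine ⟨⟨X, φ⟩, Finset.mem_sigma.2 ⟨Finset.mem_powerset.2 hX, hφ⟩, ?_⟩
    have a3 := Finset.card_image_le (s := S.filter fun f => f.1 ⊆ A) (f := Subtype.val)
    have a4 : (S.filter fun f => f.1 ⊆ A).card ≤ (S.filter fun f =>
        f.1 ∈ (slots d A (insert g X)).image (ev (dec φ n))).card :=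
      Finset.card_le_card fun f hf => Finset.mem_filter.2
        ⟨(Finset.mem_filter.1 hf).1, a2 (Finset.mem_image_of_mem _ hf)⟩
    rw [hA, mul_add] at a1
    exact le_trans (show d * m + 1 + X.card ≤ _ by omega) a4
  rw [Finset.sum_sigma]
  refine (Finset.sum_le_sum (g := fun X => (A.card : ℝ) ^ m * Real.exp A.card *
    (2 * (d + 1)) ^ ((d + 1) * m + 1) * p ^ (d * m + 1) * w ^ X.card) fun X hX => ?_).trans ?_
  · have hX' := Finset.mem_powerset.1 hX
    set l := X.card with hl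
    set D : ℝ := (d + 1) * (l + 2) with hD
    have b1 : ((slots d A (insert g X)).card : ℝ) ≤ A.card * D := by
      have := (card_slots A (X := insert g X) fun x hx => (Finset.mem_insert.1 hx).elim
        (fun h => h ▸ hg) fun h => (Finset.mem_powersetCard.1 (hX' h)).2).trans
        (Nat.mul_le_mul_left _ (Nat.mul_le_mul_left _
          (Nat.succ_le_succ (Finset.card_insert_le g X))))
      rw [hD]
      exact_mod_cast this
    have b2 : D ≤ 2 * (d + 1) * 2 ^ l := by
      have : ((l + 1 + 1 : ℕ) : ℝ) ≤ ((2 ^ (l + 1) : ℕ) : ℝ) := Nat.cast_le.2 Nat.lt_two_pow_self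
      push_cast at this
      rw [hD, mul_comm 2, mul_assoc, ← pow_succ']
      exact mul_le_mul_of_nonneg_left (by linarith) (by positivity)
    have b3 : D ≤ (d + 1) * ((L : ℝ) ^ (d + 1) + 2) := by
      have : (l : ℝ) ≤ (L : ℝ) ^ (d + 1) := by exact_mod_cast (Finset.card_le_card hX').trans hF
      rw [hD]
      gcongr
    refine (Finset.sum_le_card_nsmul _ _ (Real.exp A.card * D ^ (d * m + 1 + l) *
      p ^ (d * m + 1 + l)) fun φ _ => ?_).trans ?_
    · refine mul_le_mul_of_nonneg_right ?_ (by positivity)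
      calc _ ≤ (A.card * D) ^ (d * m + 1 + l) / (d * m + 1 + l).factorial := by
            gcongr
            exact (Nat.cast_le.2 Finset.card_image_le).trans b1
        _ = (A.card : ℝ) ^ (d * m + 1 + l) / (d * m + 1 + l).factorial * D ^ (d * m + 1 + l) := by
            rw [mul_pow]; ring
        _ ≤ _ := mul_le_mul_of_nonneg_right (Real.pow_div_factorial_le_exp _ (Nat.cast_nonneg _) _)
            (by positivity)
    · rw [card_pars, hm, nsmul_eq_mul]
      push_cast
      have b4 : ((2 : ℝ) ^ l) ^ ((d + 1) * m + 1) ≤ (2 ^ ((d + 1) * L + 1)) ^ l := by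
        rw [← pow_mul, mul_comm l, pow_mul]
        gcongr
        · norm_num
        · omega
      calc _ ≤ (A.card * D) ^ m * (Real.exp A.card * D ^ (d * m + 1 + l) *
            p ^ (d * m + 1 + l)) := by gcongr
        _ = (A.card : ℝ) ^ m * Real.exp A.card * p ^ (d * m + 1) * p ^ l *
            (D ^ ((d + 1) * m + 1) * D ^ l) := by rw [mul_pow]; ring
        _ ≤ (A.card : ℝ) ^ m * Real.exp A.card * p ^ (d * m + 1) * p ^ l *
            ((2 * (d + 1) * 2 ^ l) ^ ((d + 1) * m + 1) *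
              ((d + 1) * ((L : ℝ) ^ (d + 1) + 2)) ^ l) := by gcongr
        _ ≤ (A.card : ℝ) ^ m * Real.exp A.card * p ^ (d * m + 1) * p ^ l *
            ((2 * (d + 1)) ^ ((d + 1) * m + 1) * (2 ^ ((d + 1) * L + 1)) ^ l *
              ((d + 1) * ((L : ℝ) ^ (d + 1) + 2)) ^ l) := by rw [mul_pow _ (2 ^ l)]; gcongr
        _ = _ := by rw [hwd, mul_pow _ p, mul_pow (2 ^ _)]; ring
  · rw [← Finset.mul_sum, sum_powerset_pow]
    refine mul_le_mul_of_nonneg_left ((pow_le_pow_left₀ (by positivity)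
      (Real.add_one_le_exp w) _).trans ?_) (by positivity)
    rw [← Real.exp_nat_mul]
    refine Real.exp_le_exp.2 (le_trans ?_ hw)
    rw [mul_comm]
    exact mul_le_mul_of_nonneg_left (by exact_mod_cast hF) w0

theorem pr_spn (h0 : 0 ≤ p) (h1 : p ≤ 1) (hd : 2 ≤ d) {L : ℕ} {θ : ℝ}
    (hw : 2 ^ ((d + 1) * L + 1) * ((d + 1) * ((L : ℝ) ^ (d + 1) + 2)) * p * L ^ (d + 1) ≤ 1)
    (hθ : Real.exp 2 * (2 * (d + 1)) ^ (d + 1) * (n * p ^ d) ≤ θ) (g : Finset (Fin n)) (m : ℕ) :
    Pr p (fun S : Finset (Face n d) => ∃ A, Spn d {f | inS S f} g A ∧ A.card ≤ L ∧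
      (A \ g).card = m) ≤ 2 * (d + 1) * Real.exp (2 * d + 3) * p * θ ^ m := by
  have hθ0 : 0 ≤ θ := le_trans (by positivity) hθ
  by_cases hg : g.card = d + 1
  swap
  · rw [Pr_false fun S ⟨A, h, _⟩ => hg h.1]
    positivity
  refine (Pr_union h0 h1 ((univ.powersetCard m).filter fun B => (g ∪ B).card ≤ L ∧
    (g ∪ B).card = d + 1 + m) (fun B S => Spn d {f | inS S f} g (g ∪ B)) fun S hS => ?_).trans
    ((Finset.sum_le_card_nsmul _ _ ((d + 1 + m : ℝ) ^ m * Real.exp (d + 1 + m) *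
      (2 * (d + 1)) ^ ((d + 1) * m + 1) * p ^ (d * m + 1) * Real.exp 1) fun B hB => ?_).trans ?_)
  · obtain ⟨A, a1, a2, a3⟩ := hS
    have a4 := Finset.union_sdiff_of_subset a1.2.2.subset
    have a7 := Finset.card_sdiff_add_card_eq_card a1.2.2.subset
    refine ⟨A \ g, ?_, by rwa [a4]⟩
    simp only [Finset.mem_filter, Finset.mem_powersetCard, Finset.subset_univ, true_and, a4]
    omega
  · obtain ⟨-, a1, a2⟩ := Finset.mem_filter.1 hB
    have := pr_set h0 h1 hd hw a1 hg a2
    rw [a2] at this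
    exact_mod_cast this
  · have e1 : (((univ.powersetCard m).filter fun B : Finset (Fin n) => (g ∪ B).card ≤ L ∧
        (g ∪ B).card = d + 1 + m).card : ℝ) ≤ (n : ℝ) ^ m / m.factorial := by
      have := (Finset.card_filter_le (univ.powersetCard m)
        fun B : Finset (Fin n) => (g ∪ B).card ≤ L ∧ (g ∪ B).card = d + 1 + m)
      rw [Finset.card_powersetCard, Finset.card_univ, Fintype.card_fin] at this
      exact (Nat.cast_le.2 this).trans (Nat.choose_le_pow_div _ _)
    have e2 := Real.pow_div_factorial_le_exp (d + 1 + m : ℝ) (by positivity) m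
    have e3 : Real.exp (d + 1 + m) * Real.exp (d + 1 + m) * Real.exp 1 =
        Real.exp (2 * d + 3) * Real.exp 2 ^ m := by
      rw [← Real.exp_nat_mul, ← Real.exp_add, ← Real.exp_add, ← Real.exp_add]
      congr 1; ring
    rw [nsmul_eq_mul]
    calc _ ≤ (n : ℝ) ^ m / m.factorial * ((d + 1 + m : ℝ) ^ m * Real.exp (d + 1 + m) *
          (2 * (d + 1)) ^ ((d + 1) * m + 1) * p ^ (d * m + 1) * Real.exp 1) :=
          mul_le_mul_of_nonneg_right e1 (by positivity)
      _ = ((d + 1 + m : ℝ) ^ m / m.factorial * Real.exp (d + 1 + m) * Real.exp 1) *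
          (n ^ m * (2 * (d + 1)) ^ ((d + 1) * m + 1) * p ^ (d * m + 1)) := by ring
      _ ≤ (Real.exp (d + 1 + m) * Real.exp (d + 1 + m) * Real.exp 1) *
          (n ^ m * (2 * (d + 1)) ^ ((d + 1) * m + 1) * p ^ (d * m + 1)) := by gcongr
      _ = 2 * (d + 1) * Real.exp (2 * d + 3) * p *
          (Real.exp 2 * (2 * (d + 1)) ^ (d + 1) * (n * p ^ d)) ^ m := by
          rw [e3, mul_pow _ _ m, mul_pow _ _ m, mul_pow _ _ m, ← pow_mul, ← pow_mul]; ring
      _ ≤ _ := by gcongr

theorem pr_sub (h0 : 0 ≤ p) (h1 : p ≤ 1) (hd : 2 ≤ d) {K L : ℕ} {θ : ℝ} (hK2 : 2 ≤ K)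
    (hL : L = (d + 2) * (d + K))
    (hw : 2 ^ ((d + 1) * L + 1) * ((d + 1) * ((L : ℝ) ^ (d + 1) + 2)) * p * L ^ (d + 1) ≤ 1)
    (hθ : Real.exp 2 * (2 * (d + 1)) ^ (d + 1) * (n * p ^ d) ≤ θ) (hθ2 : θ ≤ 1 / 2)
    (hK : (n : ℝ) ^ (d + 1) * θ ^ K ≤ 1) (f : Finset (Fin n)) :
    Pr p (fun S : Finset (Face n d) => Contr d {g | inS S g} f) ≤
      8 * (d + 1) * Real.exp (2 * d + 3) * p := by
  have hθ0 : 0 ≤ θ := le_trans (by positivity) hθ
  set q := 2 * (d + 1) * Real.exp (2 * d + 3) * p with hq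
  have hq0 : 0 ≤ q := by positivity
  have geo : ∀ k : ℕ, ∑ m ∈ Finset.Ico k (L + 1), q * θ ^ m ≤ 2 * q * θ ^ k := by
    intro k
    rw [← Finset.mul_sum]
    have := geom_sum_Ico_le_of_lt_one (x := θ) (m := k) (n := L + 1) hθ0 (by linarith)
    calc _ ≤ q * (θ ^ k / (1 - θ)) := by gcongr
      _ ≤ q * (θ ^ k / (1 / 2)) := by gcongr; linarith
      _ = _ := by ring
  refine (Pr_union h0 h1 (({f} ×ˢ Finset.Ico 0 (L + 1)).disjSum
    (univ.powersetCard (d + 1) ×ˢ Finset.Ico K (L + 1)))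
    (fun i S => ∃ A, Spn d {f | inS S f} (i.elim id id).1 A ∧ A.card ≤ L ∧
      (A \ (i.elim id id).1).card = (i.elim id id).2) fun S hS => ?_).trans
    ((Finset.sum_le_sum fun i _ => pr_spn h0 h1 hd hw hθ _ _).trans ?_)
  · rcases exists_spn (L := d + K) (fun g hg => hg.1) (by omega) hS with
      ⟨A, a1, a2⟩ | ⟨g, A, a1, a2, a3⟩
    · have a3 : A.card ≤ L := a1.trans (hL ▸ Nat.le_mul_of_pos_left _ (by omega))
      have a4 := Finset.card_le_card (Finset.sdiff_subset (s := A) (t := f))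
      exact ⟨.inl (f, (A \ f).card), by simp; omega, A, a2, a3, rfl⟩
    · have a4 := Finset.card_sdiff_add_card_eq_card a3.2.2.subset
      have a5 := a3.1
      rw [← hL] at a2
      exact ⟨.inr (g, (A \ g).card), by simp; omega, A, a3, a2, rfl⟩
  · rw [Finset.sum_disjSum, Finset.sum_product, Finset.sum_product]
    simp only [Sum.elim_inl, Sum.elim_inr, id, Finset.card_singleton, Finset.sum_const, Nat.cast_one,
      one_mul, Finset.card_powersetCard, Finset.card_univ, Fintype.card_fin, nsmul_eq_mul]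
    have e1 := geo 0
    have e2 : (n.choose (d + 1) : ℝ) * θ ^ K ≤ 1 := le_trans (mul_le_mul_of_nonneg_right
      (by exact_mod_cast Nat.choose_le_pow _ _) (by positivity)) hK
    have e3 := mul_le_mul_of_nonneg_left (geo K) (Nat.cast_nonneg (α := ℝ) (n.choose (d + 1)))
    have e4 := mul_le_mul_of_nonneg_left e2 hq0
    rw [pow_zero] at e1
    linarith

end Pool.Agent.MP_8f9e6e_pr

end

-- part MP_8f9e6e_pr.Det
section

/-! The gap property: a closed pseudo-random family is sparse or complete. -/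

open Finset

namespace Pool.Agent.MP_8f9e6e_pr

variable {V : Type} [Fintype V] [DecidableEq V]

/-- The link of `τ` is complete outside at most `z` vertices. -/
def NC (H : Finset V → Prop) (τ : Finset V) (y z : ℕ) : Prop :=
  ∃ Z : Finset V, Z.card ≤ z ∧ Comp (lk H τ) (τᶜ \ Z) y

/-- Sizes of the exceptional sets. -/
def zz (d m k : ℕ) : ℕ := (2 * d + 4) ^ k * (56 * m)

variable {d : ℕ} {ν : ℕ → ℕ} {H : Finset V → Prop} {Λ : ℕ}

/-- The standing assumptions. -/
structure Hyp (d : ℕ) (ν : ℕ → ℕ) (H : Finset V → Prop) (Λ : ℕ) : Prop where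
  two : 2 ≤ d
  good : Good d ν H
  cl : Closed d H
  pos : ∀ j, 1 ≤ ν j
  b1 : (d + 2) ^ 3 * ν (d - 1) ≤ Λ
  b2 : (d + 2) ^ 3 * ν 1 * ((d + 2) ^ 3 * ν (d - 2)) ≤ Λ
  big : 64 * (d + 1) ^ 2 * zz d Λ d ≤ Fintype.card V

theorem zz_le {m k : ℕ} (h : m ≤ Λ) (hk : k ≤ d) : zz d m k ≤ zz d Λ d :=
  Nat.mul_le_mul (Nat.pow_le_pow_right (by omega) hk) (by omega)

theorem le_zz (d m k : ℕ) : 56 * m ≤ zz d m k := Nat.le_mul_of_pos_left _ (by positivity)

theorem Hyp.mu (h : Hyp d ν H Λ) (j : ℕ) : 1 ≤ (d + 2) ^ 3 * ν j :=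
  Nat.mul_pos (by positivity) (h.pos j)

theorem Hyp.lam (h : Hyp d ν H Λ) : 1 ≤ Λ := (h.mu _).trans h.b1

theorem Hyp.big' (h : Hyp d ν H Λ) {k : ℕ} (hk : k ≤ d + 1) :
    32 * (d + 1) ^ 2 * zz d Λ d + (d + 1) * zz d Λ d + k + k * ((d + 1) * zz d Λ d) <
      Fintype.card V := by
  have h1 := h.big
  have h2 := le_zz d Λ d
  have h3 := h.lam
  have h4 : k * ((d + 1) * zz d Λ d) ≤ (d + 1) * ((d + 1) * zz d Λ d) := Nat.mul_le_mul_right _ hk
  have h5 : d + 1 ≤ (d + 1) * zz d Λ d := Nat.le_mul_of_pos_right _ (by omega)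
  have h6 : (d + 1) * zz d Λ d ≤ (d + 1) * ((d + 1) * zz d Λ d) := Nat.le_mul_of_pos_left _ (by omega)
  nlinarith

theorem val_empty (d : ℕ) (H : Finset V → Prop) (τ : Finset V) : Val d H ∅ τ τᶜ :=
  ⟨disjoint_compl_left, by simp⟩

theorem Hyp.clique (h : Hyp d ν H Λ) {τ P : Finset V} (hτ : τ.card + 2 = d + 1) (hP : P ⊆ τᶜ)
    (hc : Comp (lk H τ) P 2) (hv : 32 * Λ ≤ P.card) :
    NC H τ 2 (zz d ((d + 2) ^ 3 * ν (d - 1)) 0) := by
  have := h.two
  have e := h.b1
  simpa [zz, NC] using gb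
    (key_A h.good h.cl (Finset.empty_union τ) (val_empty d H τ) (j := d - 1) (by omega) (by omega) hτ)
    (key_B h.good disjoint_compl_left (by omega) (by omega) hτ)
    (key_C h.good h.cl (Finset.empty_union τ) (val_empty d H τ) (by omega) (by omega) hτ)
    (h.mu _) hP hc (by omega)

theorem Hyp.down (h : Hyp d ν H Λ) {κ W : Finset V} {k : ℕ} (hκ : κ.card + (k + 3) = d + 1)
    (hW : W ⊆ κᶜ) (hWc : W.card = 4 * ((d + 2) ^ 3 * ν (d - 1)))
    (hg : ∀ c ∈ W, NC H (insert c κ) (k + 2) (zz d ((d + 2) ^ 3 * ν (d - 1)) k)) :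
    NC H κ (k + 3) (zz d ((d + 2) ^ 3 * ν (d - 1)) (k + 1)) := by
  choose! Z hZ hc using hg
  have e1 := le_zz d ((d + 2) ^ 3 * ν (d - 1)) k
  have e2 := zz_le (k := k) h.b1 (show k ≤ d by omega)
  obtain ⟨Z', h1, h2⟩ := stepdown
    (key_A h.good h.cl (Finset.empty_union κ) (val_empty d H κ) (j := d - 1) (by omega) (by omega) hκ)
    (key_D h.good h.cl (Finset.empty_union κ) (val_empty d H κ) (j := d - 1) (by omega) (by omega) hκ)
    (h.mu _) (by omega) hW hWc (z := zz d ((d + 2) ^ 3 * ν (d - 1)) k) (by omega) Z hZ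
    (fun c hcW Y hY hYc hcY hd => by
      have := hc c hcW (Y.erase c) (Finset.subset_sdiff.2 ⟨fun x hx => by
        simpa [Finset.ne_of_mem_erase hx] using hY (Finset.mem_of_mem_erase hx), hd⟩)
        (by rw [Finset.card_erase_of_mem hcY, hYc]; rfl)
      rwa [lk, Finset.insert_union_comm, Finset.insert_erase hcY] at this)
    (by
      have a1 := h.big' (k := κ.card) (by omega)
      have a2 := Finset.card_add_card_compl κ
      have a3 : (k + 3) ^ 2 * zz d ((d + 2) ^ 3 * ν (d - 1)) k ≤ (d + 1) ^ 2 * zz d Λ d :=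
        Nat.mul_le_mul (Nat.pow_le_pow_left (by omega) 2) e2
      rw [mul_assoc] at a1 ⊢
      omega)
  refine ⟨Z', h1.trans ?_, h2⟩
  rw [zz, zz, pow_succ' (2 * d + 4), mul_assoc (2 * d + 4)]
  exact Nat.mul_le_mul_right _ (by omega)

theorem fac_le_sum (H : Finset V → Prop) (κ : Finset V) (y : ℕ) :
    (fac (lk H κ) κᶜ (y + 1)).card ≤ ∑ c ∈ κᶜ, (fac (lk H (insert c κ)) (insert c κ)ᶜ y).card := by
  refine le_trans (Finset.card_le_card (t := κᶜ.biUnion fun c =>
    (fac (lk H (insert c κ)) (insert c κ)ᶜ y).image (insert c)) fun Y hY => ?_)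
    (Finset.card_biUnion_le.trans (Finset.sum_le_sum fun _ _ => Finset.card_image_le))
  obtain ⟨⟨h1, h2⟩, h3⟩ := mem_fac.1 hY
  obtain ⟨c, hc⟩ := Finset.card_pos.1 (show 0 < Y.card by omega)
  refine Finset.mem_biUnion.2 ⟨c, h1 hc, Finset.mem_image.2 ⟨Y.erase c, mem_fac.2 ⟨⟨fun x hx => by
    simpa [Finset.ne_of_mem_erase hx] using h1 (Finset.mem_of_mem_erase hx), by
      rw [Finset.card_erase_of_mem hc, h2]; rfl⟩, ?_⟩, Finset.insert_erase hc⟩⟩
  rwa [lk, Finset.insert_union_comm, Finset.insert_erase hc]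

theorem Hyp.top (h : Hyp d ν H Λ) (k : ℕ) : ∀ κ : Finset V, κ.card + (k + 2) = d + 1 →
    ¬ NC H κ (k + 2) (zz d ((d + 2) ^ 3 * ν (d - 1)) k) → (fac (lk H κ) κᶜ (k + 2)).card ≤
      (128 + 4 * k) * ((d + 2) ^ 3 * ν (d - 1)) * Fintype.card V ^ (k + 1) := by
  classical
  have := h.two
  induction k with
  | zero =>
    intro κ hκ hno
    by_contra hlt
    refine hno ?_
    have a1 := h.big' (k := κ.card) (by omega)
    have a2 := Finset.card_add_card_compl κ
    simpa [zz, NC] using glemma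
      (key_A h.good h.cl (Finset.empty_union κ) (val_empty d H κ) (j := d - 1) (by omega) (by omega) hκ)
      (key_F h.good h.cl (Finset.empty_union κ) (val_empty d H κ) (by omega) (by omega) hκ)
      (key_B h.good disjoint_compl_left (by omega) (by omega) hκ)
      (key_C h.good h.cl (Finset.empty_union κ) (val_empty d H κ) (by omega) (by omega) hκ)
      (h.mu _) (Finset.card_pos.1 (by omega))
      (le_trans (Nat.mul_le_mul_left _ (Finset.card_le_univ _)) (by simpa using (not_le.1 hlt).le))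
  | succ k ih =>
    intro κ hκ hno
    set m := (d + 2) ^ 3 * ν (d - 1)
    set n := Fintype.card V
    set G := κᶜ.filter fun c => NC H (insert c κ) (k + 2) (zz d m k) with hG
    have e1 : G.card ≤ 4 * m := by
      by_contra hlt
      obtain ⟨W, hW, hWc⟩ := Finset.exists_subset_card_eq (not_le.1 hlt).le
      exact hno (h.down hκ (hW.trans (Finset.filter_subset _ _)) hWc
        fun c hc => (Finset.mem_filter.1 (hW hc)).2)
    refine (fac_le_sum H κ (k + 2)).trans ?_
    rw [← Finset.sum_filter_add_sum_filter_not κᶜ fun c => NC H (insert c κ) (k + 2) (zz d m k)]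
    have e2 : ∑ c ∈ G, (fac (lk H (insert c κ)) (insert c κ)ᶜ (k + 2)).card ≤
        4 * m * n ^ (k + 2) := by
      refine (Finset.sum_le_card_nsmul _ _ (n ^ (k + 2)) fun c _ => ?_).trans
        (Nat.mul_le_mul_right _ e1)
      refine (Finset.card_le_card (t := Finset.univ.powersetCard (k + 2)) fun Y hY => ?_).trans ?_
      · simpa using (mem_fac.1 hY).1.2
      · rw [Finset.card_powersetCard]
        exact Nat.choose_le_pow _ _
    have e3 : ∑ c ∈ κᶜ.filter fun c => ¬ NC H (insert c κ) (k + 2) (zz d m k),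
        (fac (lk H (insert c κ)) (insert c κ)ᶜ (k + 2)).card ≤
          n * ((128 + 4 * k) * m * n ^ (k + 1)) := by
      refine (Finset.sum_le_card_nsmul _ _ _ fun c hc => ih _ ?_ (Finset.mem_filter.1 hc).2).trans
        (Nat.mul_le_mul_right _ (Finset.card_le_univ _))
      rw [Finset.card_insert_of_notMem (Finset.mem_compl.1 (Finset.mem_filter.1 hc).1)]
      omega
    refine (add_le_add e2 e3).trans (le_of_eq ?_)
    ring

theorem Hyp.rel (h : Hyp d ν H Λ) {β κ U : Finset V} (hβ : β.Nonempty) (hd : Disjoint β κ)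
    (hτ : (β ∪ κ).card + 2 = d + 1) (hv : Val d H β (β ∪ κ) U) (hU : 1024 * Λ ≤ U.card) :
    NC H (β ∪ κ) 2 (zz d ((d + 2) ^ 3 * ν (d - 1)) 0) := by
  have := h.two
  have hl := h.lam
  have hUc : U ⊆ (β ∪ κ)ᶜ := fun x hx => Finset.mem_compl.2 (Finset.disjoint_left.1 hv.1 hx)
  have m1 : (d + 2) ^ 3 * ν 1 ≤ Λ := (Nat.le_mul_of_pos_right _ (h.mu _)).trans h.b2
  have m2 : (d + 2) ^ 3 * ν (d - 2) ≤ Λ := (Nat.le_mul_of_pos_left _ (h.mu _)).trans h.b2
  rcases κ.eq_empty_or_nonempty with rfl | hκ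
  · obtain ⟨P, hP, h1, h2⟩ := cluster (k := 32 * Λ)
      (key_B h.good hv.1 (j := 1) le_rfl (by omega) hτ) (h.mu _) (by omega) (by omega)
      fun a ha b hb c hc hab hca hcb h1 h2 => by
        by_contra hno
        obtain ⟨-, a2, f, hf, -⟩ := okk_two (j := 0) h.cl rfl hv (Y := {a, b}) (a := c) (by simp)
          (Finset.insert_subset ha (Finset.singleton_subset_iff.2 hb)) hc (by simp [hca, hcb])
          (by rw [Finset.card_pair hab]; exact hτ) hno fun x hx => by
            rcases Finset.mem_insert.1 hx with rfl | hx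
            · rw [Finset.erase_insert (by simpa using hab), Finset.pair_comm]
              exact h2
            · rw [Finset.mem_singleton.1 hx, Finset.pair_comm a b,
                Finset.erase_insert (by simpa using hab.symm), Finset.pair_comm]
              exact h1
        have := Finset.card_pos.2 ⟨f, hf⟩
        omega
    exact h.clique hτ (hP.trans hUc) h2 h1
  · have c1 := Finset.card_pos.2 hβ
    have c2 := Finset.card_pos.2 hκ
    have c3 := Finset.card_union_of_disjoint hd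
    obtain ⟨Z, hZ, hc⟩ := glemma
      (key_A h.good h.cl rfl hv (j := d - 2) (by omega) (by omega) hτ)
      (key_F h.good h.cl rfl hv (by omega) (by omega) hτ)
      (key_B h.good hv.1 (by omega) (by omega) hτ)
      (key_C h.good h.cl rfl hv (by omega) (by omega) hτ)
      (h.mu _) (Finset.card_pos.1 (by omega))
      (start (key_S h.good hv.1 (j := 1) le_rfl (by omega) hτ) (h.mu _) (h.mu _) (by
        rw [mul_assoc]
        exact (Nat.mul_le_mul_left _ h.b2).trans hU))
    refine h.clique hτ (Finset.sdiff_subset.trans hUc) hc ?_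
    have := Finset.le_card_sdiff Z U
    omega

theorem Hyp.up (h : Hyp d ν H Λ) {β : Finset V} {k : ℕ} (hβ : β.Nonempty)
    (hk : β.card + (k + 2) = d + 1)
    (hg : ∀ w ∈ β, NC H (β.erase w) (k + 3) (zz d ((d + 2) ^ 3 * ν (d - 1)) (k + 1))) :
    NC H β (k + 2) (zz d ((d + 2) ^ 3 * ν (d - 1)) k) := by
  choose! Z hZ hc using hg
  have c1 := Finset.card_pos.2 hβ
  set U := βᶜ \ β.biUnion Z with hU
  have e1 : ∀ κ : Finset V, κ.card + β.card ≤ d + 1 → 1024 * Λ ≤ (U \ κ).card := by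
    intro κ hκ
    have a1 := h.big' (k := d + 1) le_rfl
    have a2 := Finset.card_add_card_compl β
    have a3 : (β.biUnion Z).card ≤ (d + 1) * zz d Λ d :=
      (Finset.card_biUnion_le_card_mul _ _ _ fun w hw =>
        (hZ w hw).trans (zz_le h.b1 (by omega))).trans (Nat.mul_le_mul_right _ (by omega))
    have a4 : βᶜ.card - (β.biUnion Z).card ≤ U.card := Finset.le_card_sdiff _ _
    have a5 := Finset.le_card_sdiff κ U
    have a6 := le_zz d Λ d
    have a7 : zz d Λ d ≤ (d + 1) ^ 2 * zz d Λ d := Nat.le_mul_of_pos_left _ (by positivity)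
    rw [mul_assoc] at a1
    omega
  have e2 : ∀ i, ∀ κ ⊆ U, β.card + κ.card + (i + 2) = d + 1 →
      NC H (β ∪ κ) (i + 2) (zz d ((d + 2) ^ 3 * ν (d - 1)) i) := by
    have dj : ∀ κ ⊆ U, Disjoint β κ := fun κ hκ =>
      disjoint_compl_right.mono_right (hκ.trans Finset.sdiff_subset)
    intro i
    induction i with
    | zero =>
      intro κ hκ hi
      refine h.rel hβ (dj κ hκ) (by rw [Finset.card_union_of_disjoint (dj κ hκ)]; exact hi)
        ⟨Finset.disjoint_union_right.2 ⟨(dj _ Finset.sdiff_subset).symm, Finset.sdiff_disjoint⟩,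
          fun e he hec w hw => ?_⟩ (e1 κ (by omega))
      have hs : κ ∪ e ⊆ U := Finset.union_subset hκ (he.trans Finset.sdiff_subset)
      have hd := dj _ hs
      rw [Finset.union_assoc, Finset.card_union_of_disjoint hd] at hec
      rw [Finset.union_assoc, Finset.erase_union_distrib,
        Finset.erase_eq_of_notMem (Finset.disjoint_left.1 hd hw)]
      refine hc w hw _ (hs.trans (Finset.sdiff_subset_sdiff
        (Finset.compl_subset_compl.2 (Finset.erase_subset _ _))
        (Finset.subset_biUnion_of_mem Z hw))) (by omega)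
    | succ i ih =>
      intro κ hκ hi
      obtain ⟨W, hW, hWc⟩ := Finset.exists_subset_card_eq (s := U \ κ)
        (n := 4 * ((d + 2) ^ 3 * ν (d - 1))) (by have := e1 κ (by omega); have := h.b1; omega)
      refine h.down (by rw [Finset.card_union_of_disjoint (dj κ hκ)]; exact hi) (fun c hc => ?_) hWc
        fun c hc => ?_
      · obtain ⟨h1, h2⟩ := Finset.mem_sdiff.1 (hW hc)
        simpa [h2] using (Finset.mem_sdiff.1 h1).1
      · obtain ⟨h1, h2⟩ := Finset.mem_sdiff.1 (hW hc)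
        rw [← Finset.union_insert]
        exact ih _ (Finset.insert_subset h1 hκ) (by rw [Finset.card_insert_of_notMem h2]; omega)
  simpa using e2 k ∅ (by simp) (by simpa using hk)

theorem Hyp.all (h : Hyp d ν H Λ) {k₀ : ℕ} (hk₀ : k₀ + 2 = d + 1)
    (h0 : NC H ∅ (k₀ + 2) (zz d ((d + 2) ^ 3 * ν (d - 1)) k₀)) (i : ℕ) :
    ∀ (β : Finset V) (k : ℕ), β.card = i → β.card + (k + 2) = d + 1 →
      NC H β (k + 2) (zz d ((d + 2) ^ 3 * ν (d - 1)) k) := by
  induction i with
  | zero =>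
    intro β k hβ hk
    rw [Finset.card_eq_zero.1 hβ, show k = k₀ by omega]
    exact h0
  | succ i ih =>
    intro β k hβ hk
    refine h.up (Finset.card_pos.1 (by omega)) hk fun w hw => ih _ (k + 1) ?_ ?_ <;>
      rw [Finset.card_erase_of_mem hw] <;> omega

theorem Hyp.final (h : Hyp d ν H Λ)
    (hg : ∀ τ : Finset V, τ.card + 2 = d + 1 → NC H τ 2 (zz d Λ d)) (g : Finset V)
    (hgc : g.card = d + 1) : H g := by
  classical
  have := h.two
  have hb := h.big' (k := d + 1) le_rfl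
  have hΛ := le_zz d Λ d
  generalize zz d Λ d = z at hg hb hΛ
  choose! Z hZ hc using hg
  set Zr : Finset V → Finset V := fun ρ => ρ.biUnion fun w => Z (ρ.erase w) with hZr
  have z1 : ∀ ρ : Finset V, ρ.card = d → (Zr ρ).card ≤ (d + 1) * z := fun ρ hρ =>
    (Finset.card_biUnion_le_card_mul _ _ _ fun w hw => hZ _ (by
      rw [Finset.card_erase_of_mem hw]; omega)).trans (Nat.mul_le_mul_right _ (by omega))
  have pick : ∀ s : Finset V, s.card < Fintype.card V → ∃ v, v ∉ s := fun s hs => by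
    obtain ⟨v, -, hv⟩ := Finset.exists_mem_notMem_of_card_lt_card (t := Finset.univ) hs
    exact ⟨v, hv⟩
  have pr : ∀ τ : Finset V, τ.card + 2 = d + 1 → ∀ a b, a ≠ b → a ∉ τ → b ∉ τ → a ∉ Z τ →
      b ∉ Z τ → H (insert a (insert b τ)) := fun τ hτ a b hab h1 h2 h3 h4 => by
    have := hc τ hτ {a, b} (by simp [Finset.insert_subset_iff, h1, h2, h3, h4])
      (Finset.card_pair hab)
    rwa [lk, Finset.union_insert, Finset.union_singleton] at this
  set D := (Finset.univ.powersetCard d).filter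
    fun ρ : Finset V => ∀ x, x ∉ ρ → H (insert x ρ) → x ∈ Zr ρ with hD
  have mD : ∀ ρ : Finset V, ρ ∈ D ↔ ρ.card = d ∧ ∀ x, x ∉ ρ → H (insert x ρ) → x ∈ Zr ρ := by
    simp [hD]
  have thick : ∀ ρ : Finset V, ρ.card = d → ρ ∉ D → ∀ x, x ∉ ρ → x ∉ Zr ρ → H (insert x ρ) := by
    intro ρ hρ hno x hx hxZ
    rw [mD] at hno
    push Not at hno
    obtain ⟨c, c1, c2, c3⟩ := hno hρ
    by_cases hcx : c = x
    · exact hcx ▸ c2
    refine h.cl _ c (by rw [Finset.card_insert_of_notMem hx, hρ]) (by simp [hcx, c1]) fun w hw => ?_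
    rcases Finset.mem_insert.1 hw with rfl | hw
    · rwa [Finset.erase_insert hx]
    rw [Finset.erase_insert_of_ne (ne_of_mem_of_not_mem hw hx).symm]
    exact pr _ (by rw [Finset.card_erase_of_mem hw]; omega) c x hcx
      (fun h => c1 (Finset.mem_of_mem_erase h)) (fun h => hx (Finset.mem_of_mem_erase h))
      (fun h => c3 (Finset.mem_biUnion.2 ⟨w, hw, h⟩)) fun h => hxZ (Finset.mem_biUnion.2 ⟨w, hw, h⟩)
  have hz : z ≤ (d + 1) ^ 2 * z := Nat.le_mul_of_pos_left _ (by positivity)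
  rw [mul_assoc] at hb
  have e1 := key_E h.good (by omega) (D := D) (fun Y hY => ((mD Y).1 hY).1) fun Y hY a ha hx hH => by
    obtain ⟨hYc, hth⟩ := (mD Y).1 hY
    have r1 : ∀ x ∈ Y, (insert a (Y.erase x)).card = d := fun x hxY => by
      rw [Finset.card_insert_of_notMem fun h => ha (Finset.mem_of_mem_erase h),
        Finset.card_erase_add_one hxY, hYc]
    obtain ⟨v, hv⟩ := pick (Zr Y ∪ insert a Y ∪ Y.biUnion fun x => Zr (insert a (Y.erase x))) (by
      have a1 := Finset.card_biUnion_le_card_mul Y _ _ fun x hxY => z1 _ (r1 x hxY)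
      have a2 := Nat.mul_le_mul_right ((d + 1) * z) (show Y.card ≤ d + 1 by omega)
      have a3 := Finset.card_insert_le a Y
      have a4 := z1 Y hYc
      refine lt_of_le_of_lt ((Finset.card_union_le _ _).trans
        (add_le_add (Finset.card_union_le _ _) le_rfl)) (by omega))
    simp only [Finset.mem_union, Finset.mem_insert, Finset.mem_biUnion (s := Y), not_or,
      not_exists, not_and] at hv
    obtain ⟨⟨v1, v2, v3⟩, v4⟩ := hv
    refine v1 (hth v v3 (h.cl _ a (by rw [Finset.card_insert_of_notMem v3, hYc])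
      (by simp [ha, Ne.symm v2]) fun w hw => ?_))
    rcases Finset.mem_insert.1 hw with rfl | hw
    · rwa [Finset.erase_insert v3]
    rw [Finset.erase_insert_of_ne (ne_of_mem_of_not_mem hw v3).symm, Finset.insert_comm]
    exact thick _ (r1 w hw) (hx w hw) v (by simp [v2, v3]) (v4 w hw)
  have e2 : ∀ Y ∈ D, 32 * z ≤ (apx (fun R => R ∉ D) Finset.univ Y).card := by
    intro Y hY
    have hYc := ((mD Y).1 hY).1
    have a1 := card_le_apx (fun R => R ∉ D) Finset.univ Y
    have a2 : ∑ x ∈ Y, (nn (fun R => R ∉ D) Finset.univ (Y.erase x)).card ≤ (d + 1) * z := by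
      refine (Finset.sum_le_card_nsmul _ _ z fun x hx => ?_).trans
        (Nat.mul_le_mul_right _ (by omega))
      have r1 : (Y.erase x).card + 2 = d + 1 := by rw [Finset.card_erase_of_mem hx]; omega
      refine le_trans (Finset.card_le_card fun a ha => ?_) (hZ _ r1)
      obtain ⟨-, b1, b2⟩ := mem_nn.1 ha
      obtain ⟨b3, b4⟩ := (mD _).1 (not_not.1 b2)
      by_contra b5
      obtain ⟨v, hv⟩ := pick (Zr (insert a (Y.erase x)) ∪ insert a (Y.erase x) ∪ Z (Y.erase x)) (by
        have c1 := z1 _ b3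
        have c2 := hZ _ r1
        refine lt_of_le_of_lt ((Finset.card_union_le _ _).trans
          (add_le_add (Finset.card_union_le _ _) le_rfl)) (by omega))
      simp only [Finset.mem_union, not_or] at hv
      obtain ⟨⟨v1, v2⟩, v3⟩ := hv
      exact v1 (b4 v v2 (pr _ r1 v a (fun h => v2 (h ▸ Finset.mem_insert_self _ _))
        (fun h => v2 (Finset.mem_insert_of_mem h)) b1 v3 b5))
    rw [Finset.card_univ] at a1
    omega
  have e3 : D.card = 0 := by
    have a1 := (Finset.card_nsmul_le_sum _ _ _ e2).trans e1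
    have a2 : (d + 2) ^ 3 * ν 1 ≤ Λ := (Nat.le_mul_of_pos_right _ (h.mu _)).trans h.b2
    have a4 := h.lam
    rw [smul_eq_mul] at a1
    by_contra hne
    have a5 : 1 ≤ D.card := Nat.one_le_iff_ne_zero.2 hne
    nlinarith
  have r1 : ∀ w ∈ g, (g.erase w).card = d := fun w hw => by
    rw [Finset.card_erase_of_mem hw, hgc]; rfl
  obtain ⟨u, hu⟩ := pick (g ∪ g.biUnion fun w => Zr (g.erase w)) (by
    have a1 := Finset.card_biUnion_le_card_mul g _ _ fun w hw => z1 _ (r1 w hw)
    rw [hgc] at a1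
    refine lt_of_le_of_lt (Finset.card_union_le _ _) (by omega))
  simp only [Finset.mem_union, Finset.mem_biUnion (s := g), not_or, not_exists, not_and] at hu
  exact h.cl g u hgc hu.1 fun w hw => thick _ (r1 w hw) (by simp [Finset.card_eq_zero.1 e3]) u
    (fun h => hu.1 (Finset.mem_of_mem_erase h)) (hu.2 w hw)

theorem Hyp.gap (h : Hyp d ν H Λ) : (∀ g : Finset V, g.card = d + 1 → H g) ∨
    (fac H Finset.univ (d + 1)).card ≤
      (128 + 4 * d) * ((d + 2) ^ 3 * ν (d - 1)) * Fintype.card V ^ d := by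
  have := h.two
  obtain ⟨k, hk⟩ : ∃ k, k + 2 = d + 1 := ⟨d - 1, by omega⟩
  by_cases h0 : NC H ∅ (k + 2) (zz d ((d + 2) ^ 3 * ν (d - 1)) k)
  · refine Or.inl (h.final fun τ hτ => ?_)
    obtain ⟨Z, h1, h2⟩ := h.all hk h0 _ τ 0 rfl hτ
    exact ⟨Z, h1.trans (zz_le h.b1 (by omega)), h2⟩
  · have h1 := h.top k ∅ (by simpa using hk) h0
    have h2 : lk H ∅ = H := funext fun Y => by rw [lk, Finset.empty_union]
    rw [h2, Finset.compl_empty, hk, show k + 1 = d by omega] at h1
    exact Or.inr (h1.trans (Nat.mul_le_mul_right _ (Nat.mul_le_mul_right _ (by omega))))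

end Pool.Agent.MP_8f9e6e_pr

end
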