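import Pool.Agent.MP_8f9e6e_pr.Mg.Det

-- part MP_8f9e6e_pr.Fin
section

/-! The bound for a fixed number of vertices. -/

open Finset

namespace Pool.Agent.MP_8f9e6e_pr

variable {n d : ℕ}

theorem card_face (n d : ℕ) : Fintype.card (Face n d) = n.choose (d + 1) := by
  simp [Face, Fintype.card_finset_len]

theorem first_eq (π : Ord n d) (t : ℕ) : first π t = {f | inS (ini π t) f} := by
  ext f
  simp only [first, inS, mem_ini, Set.mem_ofPred_eq]
  constructor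
  · rintro ⟨i, hi, rfl⟩
    exact ⟨(π i).2, by simpa using hi⟩
  · rintro ⟨h, hi⟩
    exact ⟨_, hi, by simp⟩

theorem frac_eq (π : Ord n d) (t : ℕ) :
    frac π t = (fac (Contr d (first π t)) univ (d + 1)).card / (n.choose (d + 1) : ℝ) := by
  rw [frac, ← Set.ncard_coe_finset, ← Set.ncard_image_of_injective _ Subtype.val_injective]
  congr 3
  ext f
  simp only [Set.mem_image, Set.mem_ofPred_eq, Finset.mem_coe, mem_fac, Finset.subset_univ, true_and]
  exact ⟨fun ⟨g, h1, h2⟩ => h2 ▸ ⟨g.2, h1⟩, fun h => ⟨⟨f, h.1⟩, h.2, rfl⟩⟩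

theorem frac_one (hn : d + 1 ≤ n) (π : Ord n d) (t : ℕ)
    (h : ∀ g : Finset (Fin n), g.card = d + 1 → Contr d (first π t) g) : frac π t = 1 := by
  rw [frac, Set.eq_univ_of_forall (s := {f : Face n d | Contr d (first π t) f.1}) fun f => h _ f.2,
    Set.ncard_univ, Nat.card_eq_fintype_card, card_face]
  exact div_self (Nat.cast_ne_zero.2 (Nat.choose_pos hn).ne')

theorem prob_le_one (E : Set (Ord n d)) : prob E ≤ 1 :=
  div_le_one_of_le₀ (Nat.cast_le.2 (Set.ncard_le_card E)) (Nat.cast_nonneg _)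

theorem le_prob (E : Set (Ord n d)) {ε : ℝ}
    (h : (cnt fun π : Ord n d => π ∉ E) ≤ ε * cnt fun _ : Ord n d => True) : 1 - ε ≤ prob E := by
  classical
  have e0 : Nonempty (Ord n d) := ⟨(Fintype.equivFinOfCardEq (card_face n d)).symm⟩
  have e1 : (cnt fun _ : Ord n d => True) = Nat.card (Ord n d) := by simp [cnt]
  have e2 : (cnt fun π : Ord n d => π ∉ E) = Eᶜ.ncard := by
    rw [cnt, ← Set.ncard_coe_finset]
    congr 1
    ext π
    simp
  have e3 : (E.ncard : ℝ) + Eᶜ.ncard = Nat.card (Ord n d) := by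
    exact_mod_cast Set.ncard_add_ncard_compl E
  have e4 : (0 : ℝ) < Nat.card (Ord n d) := by exact_mod_cast Nat.card_pos
  rw [e1, e2] at h
  rw [prob, le_div_iff₀ e4]
  linarith

theorem inS_mono {S S' : Finset (Face n d)} (h : S ⊆ S') {f : Finset (Fin n)} (hf : inS S f) :
    inS S' f := ⟨hf.1, h hf.2⟩

theorem exp_aux (t : ℕ) : Real.exp (t / 2) / 2 ^ t ≤ (9 / 10) ^ t ∧
    Real.exp (-t) * 2 ^ t ≤ (9 / 10) ^ t := by
  constructor
  · rw [show (t : ℝ) / 2 = t * (1 / 2) by ring, Real.exp_nat_mul, ← div_pow]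
    refine pow_le_pow_left₀ (by positivity) ?_ _
    have h1 : Real.exp (1 / 2) * Real.exp (1 / 2) = Real.exp 1 := by rw [← Real.exp_add]; norm_num
    have := Real.exp_one_lt_d9
    nlinarith [Real.exp_pos (1 / 2)]
  · rw [show -(t : ℝ) = t * (-1) by ring, Real.exp_nat_mul, ← mul_pow]
    refine pow_le_pow_left₀ (by positivity) ?_ _
    have := Real.exp_neg_one_lt_d9
    linarith

theorem cnt_bad (hd : 1 ≤ d) (hn : d + 1 ≤ n) {M : ℝ} (hM : M = (d + 2) * (n : ℝ) ^ (d + 1))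
    {t : ℕ} (h1 : 1 ≤ t) (h2 : t ≤ n.choose (d + 1)) :
    (cnt fun π : Ord n d => ¬ Good d (nu (t / (2 * n.choose (d + 1))) (4 * Real.log M))
      (inS (ini π t))) ≤
      (7 * (d + 1) * Real.exp 4 / M ^ 2 + (9 / 10) ^ t) * cnt fun _ : Ord n d => True := by
  have hN : (0 : ℝ) < n.choose (d + 1) := by exact_mod_cast Nat.choose_pos hn
  have ht : (0 : ℝ) < t := by exact_mod_cast h1
  have ht2 : (t : ℝ) ≤ n.choose (d + 1) := by exact_mod_cast h2
  have p0 : (0 : ℝ) < t / (2 * n.choose (d + 1)) := by positivity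
  have p1 : (t : ℝ) / (2 * n.choose (d + 1)) ≤ 1 := by rw [div_le_one (by positivity)]; linarith
  refine (transfer (card_face n d) p0.le p1 (fun S => ¬ Good d _ (inS S)) t (fun b => t < b)
    fun b hb π h h' => h (h'.mono fun f _ => inS_mono (ini_mono π (not_lt.1 hb)))).trans
    (mul_le_mul_of_nonneg_right (add_le_add (pr_bad p0 p1 hd (by simp; omega) (by simpa using hM))
      ((Pr_card_gt p0.le p1 t).trans ?_)) (Nat.cast_nonneg _))
  rw [card_face, show (t : ℝ) / (2 * n.choose (d + 1)) * n.choose (d + 1) = t / 2 by field_simp]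
  exact (exp_aux t).1

theorem cnt_sub {t : ℕ} {q : ℝ} (h1 : 1 ≤ t) (h2 : 2 * t ≤ n.choose (d + 1)) (f : Finset (Fin n))
    (hq : Pr (2 * t / n.choose (d + 1))
      (fun S : Finset (Face n d) => Contr d {g | inS S g} f) ≤ q) :
    (cnt fun π : Ord n d => Contr d {g | inS (ini π t) g} f) ≤
      (q + (9 / 10) ^ t) * cnt fun _ : Ord n d => True := by
  have hN : (0 : ℝ) < n.choose (d + 1) := by exact_mod_cast (show 0 < n.choose (d + 1) by omega)
  have p0 : (0 : ℝ) ≤ 2 * t / n.choose (d + 1) := by positivity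
  have p1 : 2 * (t : ℝ) / n.choose (d + 1) ≤ 1 := by rw [div_le_one hN]; exact_mod_cast h2
  refine (transfer (card_face n d) p0 p1 (fun S => Contr d {g | inS S g} f) t (fun b => b < t)
    fun b hb π h => h.mono fun f => inS_mono (ini_mono π (not_lt.1 hb))).trans
    (mul_le_mul_of_nonneg_right (add_le_add hq ((Pr_card_lt p0 p1 t).trans ?_)) (Nat.cast_nonneg _))
  rw [card_face, show 2 * (t : ℝ) / n.choose (d + 1) * n.choose (d + 1) / 2 = t by field_simp]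
  exact (exp_aux t).2

theorem nu_le {p s r : ℝ} (h0 : 0 < p) (h1 : p ≤ 1) (hs : 1 ≤ s) (hr : 1 / p ≤ r) (j : ℕ) :
    1 ≤ nu p s j ∧ (nu p s j : ℝ) ≤ 2 * s * r ^ j := by
  have e1 : 1 ≤ s / p ^ j := by
    rw [le_div_iff₀ (by positivity), one_mul]
    exact (pow_le_one₀ h0.le h1).trans hs
  refine ⟨Nat.one_le_ceil_iff.2 (by linarith), ?_⟩
  have e2 : (nu p s j : ℝ) < s / p ^ j + 1 := Nat.ceil_lt_add_one (by linarith)
  have e3 : s / p ^ j ≤ s * r ^ j := by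
    rw [div_eq_mul_one_div, ← one_div_pow]
    gcongr
  linarith

theorem gap_at (hd : 2 ≤ d) (hn : d + 1 ≤ n) (π : Ord n d) {s r : ℝ} (hs : 1 ≤ s) {t : ℕ}
    (h1 : 1 ≤ t) (h2 : t ≤ n.choose (d + 1)) (hr : 2 * n.choose (d + 1) / t ≤ r)
    (hb : 64 * (d + 1) ^ 2 * (2 * d + 4) ^ d * 56 * (8 * (d + 2) ^ 6) * (s ^ 2 * r ^ (d - 1)) ≤ n)
    (hG : Good d (nu (t / (2 * n.choose (d + 1))) s) (inS (ini π t))) :
    (∀ g : Finset (Fin n), g.card = d + 1 → Contr d (first π t) g) ∨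
      frac π t ≤ (128 + 4 * d) * (d + 2) ^ 3 * 2 ^ d * s * (n.choose (d + 1) / t) ^ (d - 1) *
        (n ^ d / n.choose (d + 1)) := by
  have hN : (0 : ℝ) < n.choose (d + 1) := by exact_mod_cast Nat.choose_pos hn
  have ht : (0 : ℝ) < t := by exact_mod_cast h1
  have ht2 : (t : ℝ) ≤ n.choose (d + 1) := by exact_mod_cast h2
  set p : ℝ := t / (2 * n.choose (d + 1)) with hp
  have p0 : 0 < p := by positivity
  have p1 : p ≤ 1 := by rw [hp, div_le_one (by positivity)]; linarith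
  have p2 : 1 / p = 2 * n.choose (d + 1) / t := one_div_div _ _
  have r1 : 1 ≤ r := ((one_le_div p0).2 p1).trans (p2 ▸ hr)
  have nl := fun j => (nu_le p0 p1 hs (p2 ▸ hr) j).2
  have d2 : (1 : ℝ) ≤ (d + 2) ^ 3 := one_le_pow₀ (by linarith [Nat.cast_nonneg (α := ℝ) d])
  set y : ℝ := 4 * (d + 2) ^ 6 * (s ^ 2 * r ^ (d - 1)) with hy
  have y1 : (d + 2) ^ 3 * (2 * s * r ^ (d - 1)) ≤ y := by
    rw [hy, show (d + 2 : ℝ) ^ 6 = (d + 2) ^ 3 * (d + 2) ^ 3 by ring]
    have : 0 ≤ (d + 2 : ℝ) ^ 3 * (s * r ^ (d - 1)) := by positivity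
    have : 1 ≤ (d + 2 : ℝ) ^ 3 * s := one_le_mul_of_one_le_of_one_le d2 hs
    nlinarith
  have y2 : 1 ≤ y := le_trans (one_le_mul_of_one_le_of_one_le d2
    (one_le_mul_of_one_le_of_one_le (by linarith) (one_le_pow₀ r1))) y1
  have hyp : Hyp d (nu p s) (Contr d (first π t)) ⌈y⌉₊ := by
    refine ⟨hd, hG.mono fun f _ h => .base f (by rwa [first_eq]),
      fun g u h1 _ h2 => .step g u h1 h2, fun j => (nu_le p0 p1 hs le_rfl j).1, ?_, ?_, ?_⟩
    · refine Nat.cast_le (α := ℝ).1 (le_trans ?_ (y1.trans (Nat.le_ceil y)))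
      push_cast
      gcongr
      exact nl _
    · refine Nat.cast_le (α := ℝ).1 (le_trans ?_ (Nat.le_ceil y))
      push_cast
      calc _ ≤ (d + 2 : ℝ) ^ 3 * (2 * s * r ^ 1) * ((d + 2) ^ 3 * (2 * s * r ^ (d - 2))) := by
            gcongr <;> exact nl _
        _ = _ := by rw [hy, show d - 1 = d - 2 + 1 by omega]; ring
    · refine Nat.cast_le (α := ℝ).1 (le_trans ?_ (hb.trans (by simp)))
      have : (⌈y⌉₊ : ℝ) ≤ 2 * y := by linarith [Nat.ceil_lt_add_one (by linarith : 0 ≤ y)]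
      rw [zz]
      push_cast
      calc _ ≤ 64 * (d + 1 : ℝ) ^ 2 * ((2 * d + 4) ^ d * (56 * (2 * y))) := by gcongr
        _ = _ := by rw [hy]; ring
  refine hyp.gap.imp_right fun h => ?_
  rw [frac_eq, ← mul_div_assoc]
  refine div_le_div_of_nonneg_right ((Nat.cast_le.2 h).trans ?_) hN.le
  have := (nu_le p0 p1 hs le_rfl (d - 1)).2
  rw [Fintype.card_fin]
  push_cast
  calc _ ≤ (128 + 4 * d) * ((d + 2 : ℝ) ^ 3 * (2 * s * (1 / p) ^ (d - 1))) * n ^ d := by gcongr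
    _ = _ := by
      rw [p2, mul_div_assoc, mul_pow, show (2 : ℝ) ^ d = 2 ^ (d - 1 + 1) by congr 1; omega]
      ring

theorem fin_bound (hd : 2 ≤ d) (hn : d + 1 ≤ n) {M : ℝ} (hM : M = (d + 2) * (n : ℝ) ^ (d + 1))
    (hs : 1 ≤ 4 * Real.log M) {t₀ : ℕ} {q r : ℝ} (h1 : 1 ≤ t₀) (h2 : 2 * t₀ ≤ n.choose (d + 1))
    (hq : ∀ f, Pr (2 * t₀ / n.choose (d + 1))
      (fun S : Finset (Face n d) => Contr d {g | inS S g} f) ≤ q) (hr : 2 * n.choose (d + 1) / t₀ ≤ r)
    (hb : 64 * (d + 1) ^ 2 * (2 * d + 4) ^ d * 56 * (8 * (d + 2) ^ 6) *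
      ((4 * Real.log M) ^ 2 * r ^ (d - 1)) ≤ n) (E : Set (Ord n d))
    (hE : ∀ π : Ord n d, ∀ τ < n.choose (d + 1), t₀ ≤ τ →
      frac π τ ≤ (128 + 4 * d) * (d + 2) ^ 3 * 2 ^ d * (4 * Real.log M) *
        (n.choose (d + 1) / τ) ^ (d - 1) * (n ^ d / n.choose (d + 1)) →
      frac π (τ + 1) = 1 → π ∈ E) :
    1 - (q + (9 / 10) ^ t₀ + n.choose (d + 1) *
      (7 * (d + 1) * Real.exp 4 / M ^ 2 + (9 / 10) ^ t₀)) ≤ prob E := by
  classical
  obtain ⟨f, -, hf⟩ := Finset.exists_subset_card_eq (s := (univ : Finset (Fin n))) (n := d + 1)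
    (by simpa using hn)
  set N := n.choose (d + 1) with hN
  refine le_prob E ?_
  have e1 := cnt_union (insert none ((Finset.Ico t₀ N).map Function.Embedding.some))
    (E := fun π : Ord n d => π ∉ E) (fun i π => i.elim (Contr d {g | inS (ini π t₀) g} f)
      fun t => ¬ Good d (nu (t / (2 * N)) (4 * Real.log M)) (inS (ini π t))) fun π hπ => by
    by_contra hno
    push Not at hno
    have a1 : ¬ Contr d (first π t₀) f := by
      rw [first_eq]
      exact hno none (Finset.mem_insert_self _ _)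
    have a2 : ∃ t, t₀ ≤ t ∧ ∀ g : Finset (Fin n), g.card = d + 1 → Contr d (first π (t + 1)) g :=
      ⟨N - 1, by omega, fun g hg => .base g ⟨π.symm ⟨g, hg⟩, by
        have := (π.symm ⟨g, hg⟩).2; omega, by simp⟩⟩
    obtain ⟨b1, b2⟩ := Nat.find_spec a2
    have b3 : Nat.find a2 ≤ N - 1 := Nat.find_min' a2 ⟨by omega, fun g hg =>
      .base g ⟨π.symm ⟨g, hg⟩, by have := (π.symm ⟨g, hg⟩).2; omega, by simp⟩⟩
    set τ := Nat.find a2 with hτ
    have b4 := not_not.1 (hno (some τ) (by simp; omega))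
    refine hπ (hE π τ (by omega) b1 ((gap_at hd hn π hs (by omega) (by omega) (le_trans ?_ hr) hb
      b4).resolve_left fun h => ?_) (frac_one hn π _ b2))
    · have : (0 : ℝ) < t₀ := by exact_mod_cast h1
      gcongr
    · rcases b1.eq_or_lt with h' | h'
      · exact a1 (h' ▸ h f hf)
      · exact Nat.find_min a2 (m := τ - 1) (by omega) ⟨by omega, by
          rwa [Nat.sub_add_cancel (by omega)]⟩
  rw [Finset.sum_insert (by simp), Finset.sum_map] at e1
  refine (Nat.cast_le.2 e1).trans ?_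
  push_cast
  rw [add_mul]
  refine add_le_add (cnt_sub h1 h2 f (hq f)) ((Finset.sum_le_card_nsmul _ _
    ((7 * (d + 1) * Real.exp 4 / M ^ 2 + (9 / 10) ^ t₀) * cnt fun _ : Ord n d => True)
    fun t ht => ?_).trans ?_)
  · obtain ⟨a1, a2⟩ := Finset.mem_Ico.1 ht
    refine (cnt_bad (by omega) hn hM (by omega) a2.le).trans ?_
    gcongr ?_ * _
    exact add_le_add le_rfl (pow_le_pow_of_le_one (by norm_num) (by norm_num) a1)
  · rw [nsmul_eq_mul, Nat.card_Ico, mul_assoc (N : ℝ)]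
    refine mul_le_mul_of_nonneg_right (Nat.cast_le (α := ℝ).2 (Nat.sub_le _ _)) ?_
    positivity

end Pool.Agent.MP_8f9e6e_pr

end

-- part MP_8f9e6e_pr.Main
section

/-! Asymptotics. -/

open Finset Filter Topology

namespace Pool.Agent.MP_8f9e6e_pr

variable {n d : ℕ}

theorem sub_at (hd : 2 ≤ d) (hn : 1 ≤ n) {x p : ℝ} {J : ℕ} (hJ : J = 2 * d * (3 * (d + 1) ^ 2 * (d + 2)))
    (hx : x ^ d = n) (hx1 : 1 ≤ x) (h0 : 0 ≤ p)
    (hp : p * (Real.exp 2 * (2 * (d + 1)) ^ (d + 1) * 2 ^ J) ≤ 1 / x)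
    (hb : 2 * (6 * (d + 1) * 2 ^ (3 * (d + 1) * (d + 2) * (2 * d + 1))) ^ 2 ≤ x) (f : Finset (Fin n)) :
    Pr p (fun S : Finset (Face n d) => Contr d {g | inS S g} f) ≤
      8 * (d + 1) * Real.exp (2 * d + 3) * (1 / x) := by
  set w := Nat.log 2 n + 1 with hw
  have w1 : n ≤ 2 ^ w := (Nat.lt_pow_succ_log_self (by norm_num) n).le
  have w2 : 2 ^ w ≤ 2 * n := by
    rw [hw, pow_succ']
    exact Nat.mul_le_mul_left _ (Nat.pow_log_le_self 2 (by omega))
  have J1 : 1 ≤ J := by rw [hJ]; exact Nat.succ_le_of_lt (by positivity)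
  set B : ℝ := Real.exp 2 * (2 * (d + 1)) ^ (d + 1) with hB
  have B1 : 1 ≤ B := one_le_mul_of_one_le_of_one_le (Real.one_le_exp (by norm_num))
    (one_le_pow₀ (by linarith [Nat.cast_nonneg (α := ℝ) d]))
  have B2 : 1 ≤ B * 2 ^ J := one_le_mul_of_one_le_of_one_le B1 (one_le_pow₀ one_le_two)
  have p1 : p ≤ 1 / x := (le_mul_of_one_le_right h0 B2).trans hp
  have x0 : 0 < x := by linarith
  have p2 : p * x ≤ 1 := by rwa [le_div_iff₀ x0] at p1
  refine (pr_sub h0 (p1.trans (div_le_one_of_le₀ hx1 x0.le)) hd (K := (d + 1) * (w / J + 1))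
    (θ := (1 / 2) ^ J) (by nlinarith [Nat.zero_le (w / J)]) rfl ?_ ?_ ?_ ?_ f).trans (by gcongr)
  · set L := (d + 2) * (d + (d + 1) * (w / J + 1)) with hL
    set y : ℝ := 2 ^ ((d + 1) * L) with hy
    set z : ℝ := 2 ^ (3 * (d + 1) ^ 2 * (d + 2) * (w / J)) with hz
    set A : ℝ := 2 ^ (3 * (d + 1) * (d + 2) * (2 * d + 1)) with hA
    have y1 : 1 ≤ y := one_le_pow₀ one_le_two
    have y2 : (L : ℝ) ^ (d + 1) ≤ y := by
      rw [hy, mul_comm, pow_mul]
      exact pow_le_pow_left₀ (Nat.cast_nonneg _) (by exact_mod_cast Nat.lt_two_pow_self.le) _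
    have y3 : y ^ 3 = A * z := by
      rw [hy, hA, hz, ← pow_mul, ← pow_add, hL]
      congr 1; ring
    have z1 : z ^ 2 ≤ 2 * x := by
      refine le_of_pow_le_pow_left₀ (n := d) (by omega) (by positivity) ?_
      rw [hz, ← pow_mul, ← pow_mul, mul_pow, hx]
      calc (2 : ℝ) ^ (3 * (d + 1) ^ 2 * (d + 2) * (w / J) * (2 * d)) = 2 ^ (J * (w / J)) := by
            rw [hJ]; congr 1; ring
        _ ≤ 2 ^ w := pow_le_pow_right₀ one_le_two (Nat.mul_div_le _ _)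
        _ ≤ 2 * n := by exact_mod_cast w2
        _ ≤ _ := mul_le_mul_of_nonneg_right (le_self_pow₀ one_le_two (by omega)) (by positivity)
    have z2 : 6 * (d + 1) * A * z ≤ x := by
      refine le_of_pow_le_pow_left₀ (n := 2) (by omega) x0.le ?_
      rw [mul_pow]
      calc _ ≤ (6 * (d + 1) * A) ^ 2 * (2 * x) := by gcongr
        _ ≤ _ := by nlinarith
    rw [pow_succ, ← hy]
    calc _ ≤ y * 2 * ((d + 1) * (y + 2 * y)) * p * y := by gcongr; linarith
      _ = 6 * (d + 1) * A * z * p := by rw [mul_assoc _ A, ← y3]; ring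
      _ ≤ x * p := by gcongr
      _ ≤ 1 := by linarith
  · have a1 : (n : ℝ) * p ^ d ≤ p * x := by
      rw [← hx, ← mul_pow, mul_comm x]
      exact pow_le_of_le_one (by positivity) p2 (by omega)
    rw [one_div, inv_pow, ← one_div, le_div_iff₀ (by positivity)]
    rw [le_div_iff₀ x0] at hp
    calc _ ≤ B * (p * x) * 2 ^ J := by gcongr
      _ ≤ _ := by linarith
  · exact pow_le_of_le_one (by norm_num) (by norm_num) (by omega)
  · rw [← pow_mul, one_div, inv_pow, ← div_eq_mul_inv, div_le_one (by positivity)]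
    have a1 : w ≤ J * (w / J + 1) := (Nat.lt_mul_div_succ w J1).le
    calc _ ≤ ((2 : ℝ) ^ w) ^ (d + 1) :=
          pow_le_pow_left₀ (Nat.cast_nonneg _) (by exact_mod_cast w1) _
      _ ≤ _ := by
          rw [← pow_mul]
          exact pow_le_pow_right₀ one_le_two (by nlinarith)

theorem choose_ge (hn : 2 * d ≤ n) :
    (n : ℝ) ^ (d + 1) ≤ 2 ^ (d + 1) * (d + 1).factorial * n.choose (d + 1) := by
  have h1 := Nat.pow_le_choose (α := ℝ) (d + 1) n
  rw [div_le_iff₀ (by positivity)] at h1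
  have h2 : (n : ℝ) ≤ 2 * ((n + 1 - (d + 1) : ℕ) : ℝ) := by exact_mod_cast (by omega)
  calc _ ≤ (2 * ((n + 1 - (d + 1) : ℕ) : ℝ)) ^ (d + 1) := by gcongr
    _ ≤ _ := by
      rw [mul_pow, mul_assoc, mul_comm ((d + 1).factorial : ℝ)]
      exact mul_le_mul_of_nonneg_left (by exact_mod_cast h1) (by positivity)

theorem at_n (hd : 2 ≤ d) (hn : 2 * d ≤ n) {x c : ℝ} {J : ℕ}
    (hJ : J = 2 * d * (3 * (d + 1) ^ 2 * (d + 2)))
    (hc : c = 1 / (4 * (Real.exp 2 * (2 * (d + 1)) ^ (d + 1) * 2 ^ J))) (hx : x ^ d = n) (hx1 : 1 ≤ x)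
    (h1 : 2 ^ (d + 1) * (d + 1).factorial ≤ c * n)
    (h2 : 2 * (6 * (d + 1) * 2 ^ (3 * (d + 1) * (d + 2) * (2 * d + 1))) ^ 2 ≤ x)
    (h3 : 64 * (d + 1) ^ 2 * (2 * d + 4) ^ d * 56 * (8 * (d + 2) ^ 6) * (4 * (d + 2)) ^ 2 *
      (2 / c) ^ (d - 1) * Real.log n ^ 2 ≤ x) :
    1 - (8 * (d + 1) * Real.exp (2 * d + 3) * (1 / x) + (9 / 10) ^ n +
      (7 * (d + 1) * Real.exp 4 / n + n ^ (d + 1) * (9 / 10) ^ n)) ≤
    prob {π : Ord n d | ∃ τ < n.choose (d + 1), c * (1 / x) * n.choose (d + 1) ≤ τ ∧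
      frac π τ ≤ (128 + 4 * d) * (d + 2) ^ 3 * 2 ^ d * (4 * (d + 2)) * (1 / c) ^ (d - 1) *
        (2 ^ (d + 1) * (d + 1).factorial) * Real.log n * (1 / x) ∧ frac π (τ + 1) = 1} := by
  set N := n.choose (d + 1) with hN
  set B : ℝ := Real.exp 2 * (2 * (d + 1)) ^ (d + 1) * 2 ^ J with hB
  have B1 : 1 ≤ B := one_le_mul_of_one_le_of_one_le (one_le_mul_of_one_le_of_one_le
    (Real.one_le_exp (by norm_num)) (one_le_pow₀ (by linarith [Nat.cast_nonneg (α := ℝ) d])))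
    (one_le_pow₀ one_le_two)
  have c0 : 0 < c := by rw [hc]; positivity
  have c1 : 4 * c * B = 1 := by rw [hc]; field_simp
  have c2 : 4 * c ≤ 1 := by nlinarith
  have x0 : 0 < x := by linarith
  have n1 : (d + 2 : ℝ) ≤ n := by exact_mod_cast (by omega)
  have d0 := Nat.cast_nonneg (α := ℝ) d
  have n0 : (0 : ℝ) < n := by linarith
  have N0 : (0 : ℝ) < N := by exact_mod_cast Nat.choose_pos (by omega)
  have N1 := choose_ge hn
  have N2 : (N : ℝ) ≤ n ^ (d + 1) := by exact_mod_cast Nat.choose_le_pow _ _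
  have xn : x ≤ n := hx ▸ le_self_pow₀ hx1 (by omega)
  set M : ℝ := (d + 2) * (n : ℝ) ^ (d + 1) with hM
  have n2 : (n : ℝ) ≤ n ^ (d + 1) := le_self_pow₀ (by linarith) (by omega)
  have M1 : (n : ℝ) ^ (d + 1) ≤ M := le_mul_of_one_le_left (by positivity) (by linarith)
  have l1 : 1 ≤ Real.log M := by
    rw [Real.le_log_iff_exp_le (by positivity)]
    have : (2 : ℝ) ≤ d := by exact_mod_cast hd
    linarith [Real.exp_one_lt_d9]
  have l2 : Real.log M ≤ (d + 2) * Real.log n := by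
    have : M ≤ n ^ (d + 2) := by rw [hM, pow_succ' _ (d + 1)]; gcongr
    simpa using Real.log_le_log (by positivity) this
  have u1 : (n : ℝ) ≤ c * (1 / x) * N := by
    rw [mul_one_div, div_mul_eq_mul_div, le_div_iff₀ x0]
    have a1 : (n : ℝ) ^ 3 ≤ n ^ (d + 1) := pow_le_pow_right₀ (by linarith) (by omega)
    have a2 : (n : ℝ) ^ 3 ≤ c * n * N := a1.trans (N1.trans (by gcongr))
    have a3 : (n : ℝ) * n ≤ c * N := le_of_mul_le_mul_left (by linarith) n0
    nlinarith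
  set t := ⌈c * (1 / x) * N⌉₊ with ht
  have t1 : c * (1 / x) * N ≤ t := Nat.le_ceil _
  have t2 : (t : ℝ) ≤ 2 * (c * (1 / x) * N) := by
    linarith [Nat.ceil_lt_add_one (show 0 ≤ c * (1 / x) * N by positivity)]
  have t3 : n ≤ t := by exact_mod_cast u1.trans t1
  have t0 : (0 : ℝ) < t := n0.trans_le (u1.trans t1)
  have t4 : 2 * (t : ℝ) / N ≤ 4 * c * (1 / x) := by rw [div_le_iff₀ N0]; linarith
  have t5 : (N : ℝ) / t ≤ 1 / c * x := by
    rw [div_le_iff₀ t0]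
    calc (N : ℝ) = 1 / c * x * (c * (1 / x) * N) := by field_simp
      _ ≤ _ := by gcongr
  have e1 : x ^ (d - 1) * x = n := by rw [← pow_succ, ← hx]; congr 1; omega
  refine le_trans ?_ (fin_bound hd (by omega) hM (by linarith) (t₀ := t) (r := 2 / c * x) (by omega)
    ?_ (fun f => sub_at hd (by omega) hJ hx hx1 (by positivity) ?_ h2 f) ?_ ?_ _
    fun π τ a1 a2 a3 a4 => ⟨τ, a1, t1.trans (Nat.cast_le.2 a2), a3.trans ?_, a4⟩)
  · have a1 : (9 / 10 : ℝ) ^ t ≤ (9 / 10) ^ n := pow_le_pow_of_le_one (by norm_num) (by norm_num) t3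
    have a2 : (N : ℝ) * (7 * (d + 1) * Real.exp 4 / M ^ 2) ≤ 7 * (d + 1) * Real.exp 4 / n := by
      calc _ ≤ M * (7 * (d + 1) * Real.exp 4 / M ^ 2) := by gcongr; linarith
        _ = 7 * (d + 1) * Real.exp 4 / M := by field_simp
        _ ≤ _ := by gcongr; linarith
    have a3 : (N : ℝ) * (9 / 10) ^ t ≤ n ^ (d + 1) * (9 / 10) ^ n := by gcongr
    rw [mul_add (N : ℝ)]
    linarith
  · have : 4 * c * (1 / x) ≤ 1 := mul_le_one₀ c2 (by positivity) (div_le_one_of_le₀ hx1 x0.le)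
    exact_mod_cast (div_le_one N0).1 (t4.trans this)
  · calc _ ≤ 4 * c * (1 / x) * B := by gcongr
      _ = _ := by rw [mul_right_comm, c1, one_mul]
  · rw [mul_div_assoc]
    calc _ ≤ 2 * (1 / c * x) := by gcongr
      _ = _ := by ring
  · rw [← e1, mul_pow _ x]
    calc _ ≤ 64 * (d + 1) ^ 2 * (2 * d + 4) ^ d * 56 * (8 * (d + 2) ^ 6) *
          ((4 * ((d + 2) * Real.log n)) ^ 2 * ((2 / c) ^ (d - 1) * x ^ (d - 1))) := by gcongr
      _ = x ^ (d - 1) * (64 * (d + 1) ^ 2 * (2 * d + 4) ^ d * 56 * (8 * (d + 2) ^ 6) *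
          (4 * (d + 2)) ^ 2 * (2 / c) ^ (d - 1) * Real.log n ^ 2) := by ring
      _ ≤ _ := by gcongr
  · have b1 : (N : ℝ) / τ ≤ 1 / c * x := le_trans (by gcongr) t5
    have b2 : (n : ℝ) ^ d / N ≤ 2 ^ (d + 1) * (d + 1).factorial / n := by
      rw [div_le_div_iff₀ N0 n0, ← pow_succ]
      exact N1
    have b3 : 0 ≤ Real.log n := Real.log_nonneg (by linarith)
    calc _ ≤ (128 + 4 * d) * (d + 2) ^ 3 * 2 ^ d * (4 * ((d + 2) * Real.log n)) *
          (1 / c * x) ^ (d - 1) * (2 ^ (d + 1) * (d + 1).factorial / n) := by gcongr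
      _ = _ := by rw [mul_pow (1 / c), ← e1]; field_simp

theorem jump (d : ℕ) (hd : 2 ≤ d) : ∃ c > (0 : ℝ), ∃ C : ℝ, Tendsto (fun n : ℕ =>
    prob {π : Ord n d | ∃ τ < n.choose (d + 1),
      c * (n : ℝ) ^ (-(1 / d : ℝ)) * n.choose (d + 1) ≤ τ ∧
      frac π τ ≤ C * Real.log n * (n : ℝ) ^ (-(1 / d : ℝ)) ∧ frac π (τ + 1) = 1})
    atTop (𝓝 1) := by
  set J := 2 * d * (3 * (d + 1) ^ 2 * (d + 2)) with hJ
  set c : ℝ := 1 / (4 * (Real.exp 2 * (2 * (d + 1)) ^ (d + 1) * 2 ^ J)) with hc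
  have c0 : 0 < c := by positivity
  have d0 : (0 : ℝ) < 1 / d := by have : (0 : ℝ) < d := by exact_mod_cast (by omega)
                                  positivity
  refine ⟨c, c0, (128 + 4 * d) * (d + 2) ^ 3 * 2 ^ d * (4 * (d + 2)) * (1 / c) ^ (d - 1) *
    (2 ^ (d + 1) * (d + 1).factorial), ?_⟩
  have hx : Tendsto (fun n : ℕ => (n : ℝ) ^ (1 / d : ℝ)) atTop atTop :=
    (tendsto_rpow_atTop d0).comp tendsto_natCast_atTop_atTop
  have hε : Tendsto (fun n : ℕ => 1 - (8 * (d + 1) * Real.exp (2 * d + 3) *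
      (1 / (n : ℝ) ^ (1 / d : ℝ)) + (9 / 10) ^ n +
      (7 * (d + 1) * Real.exp 4 / n + n ^ (d + 1) * (9 / 10) ^ n))) atTop (𝓝 1) := by
    simpa using ((((tendsto_const_nhds (x := (1 : ℝ))).div_atTop hx).const_mul
      (8 * (d + 1) * Real.exp (2 * d + 3))).add
      (tendsto_pow_atTop_nhds_zero_of_lt_one (r := (9 / 10 : ℝ)) (by norm_num) (by norm_num))).add
      ((tendsto_const_div_atTop_nhds_zero_nat (7 * (d + 1) * Real.exp 4)).add
      (tendsto_pow_const_mul_const_pow_of_abs_lt_one (d + 1) (r := (9 / 10 : ℝ))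
        (by rw [abs_of_pos] <;> norm_num))) |>.const_sub 1
  refine tendsto_of_tendsto_of_tendsto_of_le_of_le' hε tendsto_const_nhds ?_
    (Eventually.of_forall fun n => prob_le_one _)
  set A : ℝ := 64 * (d + 1) ^ 2 * (2 * d + 4) ^ d * 56 * (8 * (d + 2) ^ 6) * (4 * (d + 2)) ^ 2 *
    (2 / c) ^ (d - 1) with hA
  have hl := tendsto_natCast_atTop_atTop.eventually
    (((isLittleO_log_rpow_rpow_atTop 2 d0).const_mul_left A).bound one_pos)
  filter_upwards [eventually_ge_atTop (2 * d), hx.eventually_ge_atTop 1,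
    (tendsto_natCast_atTop_atTop.const_mul_atTop c0).eventually_ge_atTop
      (2 ^ (d + 1) * (d + 1).factorial),
    hx.eventually_ge_atTop (2 * (6 * (d + 1) * 2 ^ (3 * (d + 1) * (d + 2) * (2 * d + 1))) ^ 2), hl]
    with n a1 a2 a3 a4 a5
  rw [Real.rpow_neg (Nat.cast_nonneg n), ← one_div ((n : ℝ) ^ _)]
  refine at_n hd a1 hJ hc (by
    rw [one_div, Real.rpow_inv_natCast_pow (Nat.cast_nonneg n) (by omega)]) a2 a3 a4 ?_
  rw [one_mul, Real.norm_of_nonneg (by linarith : (0 : ℝ) ≤ (n : ℝ) ^ (1 / d : ℝ)),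
    Real.rpow_two] at a5
  exact (le_abs_self _).trans a5

end Pool.Agent.MP_8f9e6e_pr

end
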